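import Pool.Agent.Lib.MP_9f2731_nt.GP.Sv.Spec

/-!
MP_9f2731_nt, GP/Sv: the correlation estimate (helper84).
-/

open Finset

namespace Pool.Agent.Lib.MP_9f2731_nt.GP.Sv

theorem Cor_pow (x t : ℝ) (ht : |x - 1| ≤ t) (n : ℕ) :
    |x ^ n - 1| ≤ (1 + t) ^ n - 1 ∧ |x ^ n| ≤ (1 + t) ^ n := by
  have ht0 : 0 ≤ t := (abs_nonneg _).trans ht
  have hx : |x| ≤ 1 + t := by
    have : x = 1 + (x - 1) := by ring
    rw [this]
    refine (abs_add_le _ _).trans ?_
    rw [abs_one]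
    linarith
  have hp : ∀ n : ℕ, |x ^ n| ≤ (1 + t) ^ n := fun n => by
    rw [abs_pow]
    exact pow_le_pow_left₀ (abs_nonneg _) hx n
  refine ⟨?_, hp n⟩
  induction n with
  | zero => simp
  | succ n ih =>
    have e : x ^ (n + 1) - 1 = x ^ n * (x - 1) + (x ^ n - 1) := by ring
    rw [e]
    refine (abs_add_le _ _).trans ?_
    rw [abs_mul]
    have h1 := mul_le_mul (hp n) ht (abs_nonneg _) ((abs_nonneg _).trans (hp n))
    rw [pow_succ]
    linarith

theorem Cor_exp {t η : ℝ} (ht : 0 ≤ t) (hη : 0 < η) {n J : ℕ} (hn : n ≤ J)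
    (h : J * t ≤ Real.log (1 + η)) : (1 + t) ^ n ≤ 1 + η := by
  have h1 : (1 + t) ^ n ≤ Real.exp t ^ n :=
    pow_le_pow_left₀ (by linarith) (by linarith [Real.add_one_le_exp t]) n
  rw [← Real.exp_nat_mul] at h1
  have h2 : (n : ℝ) * t ≤ J * t :=
    mul_le_mul_of_nonneg_right (by exact_mod_cast hn) ht
  have h3 : Real.exp (n * t) ≤ Real.exp (Real.log (1 + η)) := Real.exp_le_exp.2 (h2.trans h)
  rw [Real.exp_log (by linarith)] at h3
  exact h1.trans h3

/-- the error of the averages -/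
theorem Cor_lim (J : ℕ) {η : ℝ} (hη : 0 < η) :
    ∃ X0 : ℝ, ∀ X : ℝ, X0 ≤ X → 1 ≤ X ∧ (1 + Real.log X) ^ J * X ^ (1 / 2 : ℝ) / X ≤ η := by
  have h0 : Filter.Tendsto (fun X : ℝ => (1 + Real.log X) ^ J * X ^ (1 / 2 : ℝ) / X) Filter.atTop
      (nhds 0) := by
    have h1 : (fun X : ℝ => 1 + Real.log X) =o[Filter.atTop] fun X => X ^ (1 / (4 * (J + 1)) : ℝ) := by
      have hs : (0 : ℝ) < 1 / (4 * (J + 1)) := by positivity
      refine Asymptotics.IsLittleO.add ?_ (isLittleO_log_rpow_atTop hs)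
      exact (Asymptotics.isLittleO_const_left_of_ne one_ne_zero).2
        (Filter.tendsto_abs_atTop_atTop.comp (tendsto_rpow_atTop hs))
    have h2 : (fun X : ℝ => (1 + Real.log X) ^ J) =O[Filter.atTop]
        fun X => (X ^ (1 / (4 * (J + 1)) : ℝ)) ^ J := h1.isBigO.pow J
    have h3 : (fun X : ℝ => (1 + Real.log X) ^ J * X ^ (1 / 2 : ℝ) / X) =O[Filter.atTop]
        fun X => X ^ (-(1 / 4) : ℝ) := by
      have h4 : (fun X : ℝ => X ^ (1 / 2 : ℝ) / X) =O[Filter.atTop] fun X => X ^ (-(1 / 2) : ℝ) := by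
        refine Asymptotics.IsBigO.of_bound 1 ?_
        filter_upwards [Filter.eventually_gt_atTop 0] with X hX
        rw [one_mul]
        have : X ^ (1 / 2 : ℝ) / X = X ^ (-(1 / 2) : ℝ) := by
          nth_rewrite 2 [← Real.rpow_one X]
          rw [← Real.rpow_sub hX]
          norm_num
        rw [this]
      have h5 := h2.mul h4
      refine Asymptotics.IsBigO.trans ?_ (h5.trans ?_)
      · refine Asymptotics.IsBigO.of_bound 1 (Filter.Eventually.of_forall fun X => ?_)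
        rw [one_mul, mul_div_assoc]
      · refine Asymptotics.IsBigO.of_bound 1 ?_
        filter_upwards [Filter.eventually_ge_atTop 1] with X hX
        have hX0 : 0 < X := by linarith
        rw [one_mul, ← Real.rpow_natCast, ← Real.rpow_mul hX0.le, ← Real.rpow_add hX0,
          Real.norm_of_nonneg (Real.rpow_nonneg hX0.le _),
          Real.norm_of_nonneg (Real.rpow_nonneg hX0.le _)]
        refine Real.rpow_le_rpow_of_exponent_le hX ?_
        have hJ : (1 / (4 * ((J : ℝ) + 1))) * J ≤ 1 / 4 := by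
          rw [div_mul_eq_mul_div, one_mul, div_le_div_iff₀ (by positivity) (by norm_num)]
          linarith
        linarith
    exact h3.trans_tendsto (tendsto_rpow_neg_atTop (by norm_num))
  have h1 := (h0.eventually (gt_mem_nhds hη)).and (Filter.eventually_ge_atTop (1 : ℝ))
  obtain ⟨X0, hX0⟩ := Filter.eventually_atTop.1 h1
  exact ⟨X0, fun X hX => ⟨(hX0 X hX).2, (hX0 X hX).1.le⟩⟩

theorem Cor_sing_one {C : ℝ} (hC : 0 ≤ C) (w n : ℕ) : 1 ≤ sing C w n := by
  unfold sing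
  calc (1 : ℝ) = ∏ p ∈ n.primeFactors.filter (fun p => w < p), (1 : ℝ) := by simp
    _ ≤ ∏ p ∈ n.primeFactors.filter (fun p => w < p), (1 + C / (p : ℝ)) := by
        refine Finset.prod_le_prod (fun _ _ => zero_le_one) fun p _ => ?_
        have : 0 ≤ C / (p : ℝ) := div_nonneg hC (Nat.cast_nonneg _)
        linarith

theorem Cor_sing_mono {C D : ℝ} (hC : 0 ≤ C) (h : C ≤ D) (w n : ℕ) :
    sing C w n ≤ sing D w n := by
  unfold sing
  refine Finset.prod_le_prod (fun p _ => ?_) fun p _ => ?_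
  · have : 0 ≤ C / (p : ℝ) := div_nonneg hC (Nat.cast_nonneg _)
    linarith
  · have : C / (p : ℝ) ≤ D / (p : ℝ) := div_le_div_of_nonneg_right h (Nat.cast_nonneg _)
    linarith

theorem Cor_Del_ne (S : Finset ℕ) : Del S ≠ 0 := by
  unfold Del
  refine Finset.prod_ne_zero_iff.2 fun a ha => ?_
  rw [mem_filter] at ha
  omega

theorem Cor_Del_dvd (S : Finset ℕ) {a b : ℕ} (ha : a ∈ S) (hb : b ∈ S) (hab : a ≠ b) :
    Nat.dist a b ∣ Del S := by
  have key : ∀ a b : ℕ, a ∈ S → b ∈ S → a < b → b - a ∣ Del S := by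
    intro a b ha hb hab
    unfold Del
    exact Finset.dvd_prod_of_mem (fun c : ℕ × ℕ => c.2 - c.1) (a := (a, b))
      (mem_filter.2 ⟨mem_product.2 ⟨ha, hb⟩, hab⟩)
  rcases lt_or_gt_of_ne hab with h | h
  · rw [Nat.dist_eq_sub_of_le h.le]
    exact key a b ha hb h
  · rw [Nat.dist_eq_sub_of_le_right h.le]
    exact key b a hb ha h

theorem pCor (h1 : S_Sum) (h2 : S_TTb) : S_Cor := by
  intro J
  obtain ⟨C1, hC1, hsum⟩ := h1 J
  have hJ1 : (0 : ℝ) < 4 * ((J : ℝ) + 1) := by positivity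
  refine ⟨2, 1 / (4 * (J + 1)), max C1 (3 * 2 ^ J), by norm_num, by positivity, ?_,
    lt_max_of_lt_left hC1, ?_⟩
  · rw [mul_one_div, div_le_one hJ1]
    linarith [(Nat.cast_nonneg J : (0 : ℝ) ≤ J)]
  intro η hη
  have h2J : (0 : ℝ) < 2 ^ J := by positivity
  -- choice of w0
  obtain ⟨δ, hδ, hδ1, hδ2⟩ : ∃ δ : ℝ, 0 < δ ∧ δ ≤ 1 ∧ 2 ^ J * δ ≤ η / 4 := by
    refine ⟨min 1 (η / 4 / 2 ^ J), lt_min one_pos (by positivity), min_le_left _ _, ?_⟩
    have := min_le_right 1 (η / 4 / 2 ^ J)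
    calc 2 ^ J * min 1 (η / 4 / 2 ^ J) ≤ 2 ^ J * (η / 4 / 2 ^ J) :=
          mul_le_mul_of_nonneg_left this h2J.le
      _ = η / 4 := by field_simp
  have hlogδ : 0 < Real.log (1 + δ) := Real.log_pos (by linarith)
  obtain ⟨w1, hw1⟩ := exists_nat_ge (C1 / Real.log (1 + δ))
  refine ⟨w1 + 1, fun w hw => ?_⟩
  have hw1' : 1 ≤ w := by omega
  have hw0 : (0 : ℝ) < w := by exact_mod_cast hw1'
  have hexp : Real.exp (C1 / w) ≤ 1 + δ := by
    have hwle : (w1 : ℝ) ≤ w := by exact_mod_cast (by omega : w1 ≤ w)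
    have h3 : C1 / Real.log (1 + δ) ≤ w := hw1.trans hwle
    have h4 : C1 / w ≤ Real.log (1 + δ) := by
      rw [div_le_iff₀ hw0]
      rw [div_le_iff₀ hlogδ] at h3
      linarith
    have := Real.exp_le_exp.2 h4
    rwa [Real.exp_log (by linarith)] at this
  obtain ⟨C2, hC2, htt⟩ := h2 w
  have hη4 : 0 < η / 4 := by positivity
  have hlogη : 0 < Real.log (1 + η / 4) := Real.log_pos (by linarith)
  obtain ⟨X0, hX0⟩ := Cor_lim J hη4
  -- lower bound of log X
  let κ : ℝ := 1 / (4 * (J + 1))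
  have hκ : 0 < κ := by positivity
  have hκ1 : κ ≤ 1 := by
    show 1 / (4 * ((J : ℝ) + 1)) ≤ 1
    rw [div_le_one hJ1]
    linarith [(Nat.cast_nonneg J : (0 : ℝ) ≤ J)]
  let Λ : ℝ := max (max (Real.log 2 / κ) (C2 / κ)) (J * C2 / (κ * Real.log (1 + η / 4)))
  refine ⟨max X0 (Real.exp Λ), fun X hX S hS hSm => ?_⟩
  obtain ⟨hX1, herr⟩ := hX0 X ((le_max_left _ _).trans hX)
  have hXpos : (0 : ℝ) < X := by linarith
  have hX1' : 1 ≤ X := by exact_mod_cast hX1
  have hlogX : Λ ≤ Real.log X := by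
    rw [Real.le_log_iff_exp_le hXpos]
    exact (le_max_right _ _).trans hX
  obtain ⟨R, hRdef⟩ : ∃ R : ℝ, R = (X : ℝ) ^ κ := ⟨_, rfl⟩
  obtain ⟨L, hLdef⟩ : ∃ L : ℝ, L = Real.log R := ⟨_, rfl⟩
  have hLX : L = κ * Real.log X := by rw [hLdef, hRdef, Real.log_rpow hXpos]
  have hL2 : Real.log 2 ≤ L := by
    have h5 : Real.log 2 / κ ≤ Real.log X :=
      ((le_max_left _ _).trans (le_max_left _ _)).trans hlogX
    rw [div_le_iff₀ hκ] at h5
    rw [hLX]
    linarith
  have hLpos : 0 < L := (Real.log_pos one_lt_two).trans_le hL2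
  have hR0 : 0 < R := by
    rw [hRdef]
    exact Real.rpow_pos_of_pos hXpos _
  have hR2 : 2 ≤ R := by
    rw [hLdef] at hL2
    exact (Real.log_le_log_iff two_pos hR0).1 hL2
  have hR1 : 1 < R := by linarith
  have hCL : C2 / L ≤ 1 := by
    have h5 : C2 / κ ≤ Real.log X :=
      ((le_max_right _ _).trans (le_max_left _ _)).trans hlogX
    rw [div_le_iff₀ hκ] at h5
    rw [div_le_one hLpos, hLX]
    linarith
  have hCL0 : 0 ≤ C2 / L := by positivity
  have hJL : J * (C2 / L) ≤ Real.log (1 + η / 4) := by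
    have h5 : J * C2 / (κ * Real.log (1 + η / 4)) ≤ Real.log X := (le_max_right _ _).trans hlogX
    rw [div_le_iff₀ (by positivity)] at h5
    rw [← mul_div_assoc, div_le_iff₀ hLpos, hLX]
    linarith
  obtain ⟨hb1, hb2⟩ := htt R hR2
  obtain ⟨z, hz⟩ : ∃ z : ℝ, z = dl w * Real.log R * (3 / 4) := ⟨_, rfl⟩
  rw [← hz, ← hLdef] at hb1 hb2
  have hzpos : 0 < z := by
    rw [hz, ← hLdef]
    have := dl_pos w
    positivity
  have hzle : z ≤ 1 + Real.log X := by
    have h5 : z ≤ L := by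
      rw [hz, ← hLdef]
      have h6 := dl_le_one w
      have h7 : dl w * L ≤ L := by nlinarith
      linarith
    have h6 : 0 ≤ Real.log X := Real.log_nonneg hX1
    have h7 : L ≤ Real.log X := by
      rw [hLX]
      nlinarith
    linarith
  obtain ⟨T, hT⟩ : ∃ T : ℝ, T = (1 + C2 / L) / z := ⟨_, rfl⟩
  have hTT : ∀ b c : ℕ, |TT w R b c| ≤ T := by
    intro b c
    have h5 := hb1 b c
    rw [abs_mul, abs_of_pos hzpos] at h5
    rw [hT, le_div_iff₀ hzpos]
    linarith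
  have hzT : z * T = 1 + C2 / L := by
    rw [hT]
    field_simp
  have hcardS : Fintype.card {x // x ∈ S} = S.card := Fintype.card_coe S
  have hmain := hsum {x // x ∈ S} w R T X (Del S) (fun j => j.1) (by rw [hcardS]; exact hS) hw1'
    hR1 hX1' (Cor_Del_ne S) (fun j => hSm j.1 j.2)
    (fun j k hjk => Cor_Del_dvd S j.2 k.2 (fun e => hjk (Subtype.ext e))) hTT
  rw [hcardS] at hmain
  obtain ⟨n, hn⟩ : ∃ n, n = S.card := ⟨_, rfl⟩
  rw [← hn] at hmain hS
  -- the normalized average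
  have hnu : ∀ b, ∏ m ∈ S, nu 2 w R (Wp w * b * m + 1)
      = z ^ n * ∏ j : {x // x ∈ S}, Lam 2 R (nf w j.1 b) ^ 2 := by
    intro b
    rw [Finset.prod_coe_sort S (fun m => Lam 2 R (nf w m b) ^ 2), hn, ← Finset.prod_const,
      ← Finset.prod_mul_distrib]
    refine Finset.prod_congr rfl fun m _ => ?_
    rw [hz]
    unfold nu nf dl
    norm_num
  have havg : (∑ b ∈ Icc 1 X, ∏ m ∈ S, nu 2 w R (Wp w * b * m + 1)) / X
      = z ^ n * ((∑ b ∈ Icc 1 X, ∏ j : {x // x ∈ S}, Lam 2 R (nf w j.1 b) ^ 2) / X) := by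
    rw [Finset.sum_congr rfl fun b _ => hnu b, ← Finset.mul_sum, mul_div_assoc]
  have hgoal : |z ^ n * ((∑ b ∈ Icc 1 X, ∏ j : {x // x ∈ S}, Lam 2 R (nf w j.1 b) ^ 2) / X) - 1|
      ≤ η + max C1 (3 * 2 ^ J) * (sing (max C1 (3 * 2 ^ J)) w (Del S) - 1) := by
    have hzn : 0 < z ^ n := pow_pos hzpos n
    have h5 := mul_le_mul_of_nonneg_left hmain hzn.le
    rw [← abs_of_pos hzn, ← abs_mul, abs_of_pos hzn, mul_sub, ← mul_pow] at h5
    -- the main term
    have h6 : |(z * TT w R 1 1) ^ n - 1| ≤ η / 4 := by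
      have h7 := (Cor_pow _ _ hb2 n).1
      have h8 := Cor_exp hCL0 hη4 hS hJL
      linarith
    -- the error of the averages
    have h9 : z ^ n * (R ^ (2 * n) / X) ≤ η / 4 := by
      have h10 : z ^ n ≤ (1 + Real.log X) ^ J := by
        have hl : 1 ≤ 1 + Real.log X := by linarith [Real.log_nonneg hX1]
        exact (pow_le_pow_left₀ hzpos.le hzle n).trans (pow_le_pow_right₀ hl hS)
      have h11 : R ^ (2 * n) ≤ (X : ℝ) ^ (1 / 2 : ℝ) := by
        rw [hRdef, ← Real.rpow_natCast, ← Real.rpow_mul hXpos.le]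
        refine Real.rpow_le_rpow_of_exponent_le hX1 ?_
        have hnJ : (n : ℝ) ≤ J := by exact_mod_cast hS
        push_cast
        show 1 / (4 * ((J : ℝ) + 1)) * (2 * n) ≤ 1 / 2
        rw [div_mul_eq_mul_div, one_mul, div_le_div_iff₀ hJ1 two_pos]
        linarith
      have h12 : 0 ≤ (1 + Real.log X) ^ J := hzn.le.trans h10
      calc z ^ n * (R ^ (2 * n) / X) ≤ (1 + Real.log X) ^ J * ((X : ℝ) ^ (1 / 2 : ℝ) / X) := by
            refine mul_le_mul h10 (div_le_div_of_nonneg_right h11 hXpos.le) (by positivity) h12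
        _ = (1 + Real.log X) ^ J * (X : ℝ) ^ (1 / 2 : ℝ) / X := by rw [mul_div_assoc]
        _ ≤ η / 4 := herr
    -- the singular factor
    have h13 : z ^ n * (T ^ n * (Real.exp (C1 / w) * sing C1 w (Del S) - 1))
        ≤ η / 4 + max C1 (3 * 2 ^ J) * (sing (max C1 (3 * 2 ^ J)) w (Del S) - 1) := by
      rw [← mul_assoc, ← mul_pow, hzT]
      have hs1 := Cor_sing_one hC1.le w (Del S)
      have hs2 := Cor_sing_mono hC1.le (le_max_left C1 (3 * 2 ^ J)) w (Del S)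
      have hp : (1 + C2 / L) ^ n ≤ 2 ^ J := by
        calc (1 + C2 / L) ^ n ≤ 2 ^ n := pow_le_pow_left₀ (by linarith) (by linarith) n
          _ ≤ 2 ^ J := pow_le_pow_right₀ one_le_two hS
      have hE1 : 1 ≤ Real.exp (C1 / w) := Real.one_le_exp (by positivity)
      have hA : 0 ≤ Real.exp (C1 / w) * sing C1 w (Del S) - 1 := by nlinarith
      have hB : Real.exp (C1 / w) * sing C1 w (Del S) - 1
          ≤ 3 * (sing C1 w (Del S) - 1) + δ := by nlinarith
      have hC : (1 + C2 / L) ^ n * (Real.exp (C1 / w) * sing C1 w (Del S) - 1)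
          ≤ 2 ^ J * (3 * (sing C1 w (Del S) - 1) + δ) := mul_le_mul hp hB hA h2J.le
      have hD : 3 * 2 ^ J * (sing C1 w (Del S) - 1)
          ≤ max C1 (3 * 2 ^ J) * (sing (max C1 (3 * 2 ^ J)) w (Del S) - 1) :=
        mul_le_mul (le_max_right _ _) (by linarith) (by linarith)
          (hC1.le.trans (le_max_left _ _))
      nlinarith
    have h14 := abs_sub_le
      (z ^ n * ((∑ b ∈ Icc 1 X, ∏ j : {x // x ∈ S}, Lam 2 R (nf w j.1 b) ^ 2) / X))
      ((z * TT w R 1 1) ^ n) 1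
    rw [mul_add] at h5
    linarith
  have hfin : |(∑ b ∈ Icc 1 X, ∏ m ∈ S, nu 2 w R (Wp w * b * m + 1)) / X - 1|
      ≤ η + max C1 (3 * 2 ^ J) * (sing (max C1 (3 * 2 ^ J)) w (Del S) - 1) := by
    rw [havg]
    exact hgoal
  rw [hRdef] at hfin
  exact hfin

end Pool.Agent.Lib.MP_9f2731_nt.GP.Sv
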