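import Pool.Agent.Lib.MP_9f2731_nt.GP.Sv.Spec

/-!
MP_9f2731_nt, GP/Sv: sums of products of periodic functions over a full period.
-/

open Finset

namespace Pool.Agent.Lib.MP_9f2731_nt.GP.Sv

/-- two coprime periods -/
theorem Crt_two {A : Type} [CommRing A] {p M : ℕ} (hp : 0 < p) (hM : 0 < M) (hc : p.Coprime M)
    (h g : ℕ → A) (hh : ∀ b, h (b + p) = h b) (hg : ∀ b, g (b + M) = g b) :
    ∑ b ∈ range (p * M), h b * g b = (∑ b ∈ range p, h b) * ∑ b ∈ range M, g b := by
  have hh' : ∀ b, h (b % p) = h b := fun b => Function.Periodic.map_mod_nat (f := h) hh b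
  have hg' : ∀ b, g (b % M) = g b := fun b => Function.Periodic.map_mod_nat (f := g) hg b
  rw [Finset.sum_mul_sum, ← Finset.sum_product']
  refine Finset.sum_bij (fun b _ => (b % p, b % M)) ?_ ?_ ?_ ?_
  · intro b _
    rw [mem_product, mem_range, mem_range]
    exact ⟨Nat.mod_lt _ hp, Nat.mod_lt _ hM⟩
  · intro a ha b hb hab
    rw [mem_range] at ha hb
    have h1 : a ≡ b [MOD p] := (Prod.mk.injEq _ _ _ _ ▸ hab : _ ∧ _).1
    have h2 : a ≡ b [MOD M] := (Prod.mk.injEq _ _ _ _ ▸ hab : _ ∧ _).2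
    have h3 : a ≡ b [MOD p * M] := (Nat.modEq_and_modEq_iff_modEq_mul hc).1 ⟨h1, h2⟩
    exact Nat.ModEq.eq_of_lt_of_lt h3 ha hb
  · rintro ⟨u, v⟩ huv
    rw [mem_product, mem_range, mem_range] at huv
    refine ⟨(Nat.chineseRemainder hc u v : ℕ), ?_, ?_⟩
    · rw [mem_range]
      exact Nat.chineseRemainder_lt_mul hc u v hp.ne' hM.ne'
    · have h1 := (Nat.chineseRemainder hc u v).2
      have e1 : (Nat.chineseRemainder hc u v : ℕ) % p = u := by
        have := h1.1
        unfold Nat.ModEq at this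
        rw [this, Nat.mod_eq_of_lt huv.1]
      have e2 : (Nat.chineseRemainder hc u v : ℕ) % M = v := by
        have := h1.2
        unfold Nat.ModEq at this
        rw [this, Nat.mod_eq_of_lt huv.2]
      rw [e1, e2]
  · intro b _
    show h b * g b = h (b % p) * g (b % M)
    rw [hh', hg']

theorem Crt_periodic {A : Type} [CommRing A] (Q : Finset ℕ) (f : ℕ → ℕ → A)
    (hf : ∀ p ∈ Q, ∀ b, f p (b + p) = f p b) (b : ℕ) :
    ∏ p ∈ Q, f p (b + ∏ q ∈ Q, q) = ∏ p ∈ Q, f p b := by
  refine Finset.prod_congr rfl fun p hp => ?_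
  obtain ⟨k, hk⟩ := Finset.dvd_prod_of_mem (fun q : ℕ => q) hp
  have hk' : ∏ q ∈ Q, q = k * p := by rw [mul_comm]; exact hk
  rw [hk']
  have hper : Function.Periodic (f p) p := fun b => hf p hp b
  have := hper.nat_mul k
  exact this b

theorem pCrt : S_Crt := by
  intro A _ Q f
  induction Q using Finset.induction_on with
  | empty =>
    intro _ _
    simp
  | insert p Q hpQ ih =>
    intro hprime hper
    have hprime' : ∀ q ∈ Q, q.Prime := fun q hq => hprime q (mem_insert_of_mem hq)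
    have hper' : ∀ q ∈ Q, ∀ b, f q (b + q) = f q b := fun q hq => hper q (mem_insert_of_mem hq)
    have hpp := hprime p (mem_insert_self p Q)
    rw [Finset.prod_insert hpQ, Finset.prod_insert hpQ, ← ih hprime' hper']
    have hM : 0 < ∏ q ∈ Q, q := Finset.prod_pos fun q hq => (hprime' q hq).pos
    have hc : p.Coprime (∏ q ∈ Q, q) := by
      refine Nat.Coprime.prod_right fun q hq => ?_
      refine (Nat.coprime_primes hpp (hprime' q hq)).2 ?_
      rintro rfl
      exact hpQ hq
    rw [← Crt_two hpp.pos hM hc (f p) (fun b => ∏ q ∈ Q, f q b) (hper p (mem_insert_self p Q))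
      (Crt_periodic Q f hper')]
    refine Finset.sum_congr rfl fun b _ => ?_
    rw [Finset.prod_insert hpQ]

end Pool.Agent.Lib.MP_9f2731_nt.GP.Sv
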