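import Pool.Agent.Lib.MP_9f2731_nt.GP.Sv.Spec

/-!
MP_9f2731_nt, GP/Sv, module Dl: the density of the numbers prime to the primorial.
-/

namespace Pool.Agent.Lib.MP_9f2731_nt.GP.Sv

open Finset

private theorem dl_sqf (w : ℕ) : Squarefree (Wp w) := by
  unfold Wp primorial
  have h : ∀ s : Finset ℕ, (∀ p ∈ s, p.Prime) → Squarefree (∏ p ∈ s, p) := by
    intro s
    induction s using Finset.induction_on with
    | empty => intro _; simp
    | insert p s hp ih =>
      intro hs
      rw [prod_insert hp]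
      refine (Nat.squarefree_mul ?_).2 ⟨(hs p (mem_insert_self p s)).squarefree,
        ih fun q hq => hs q (mem_insert_of_mem hq)⟩
      refine Nat.Coprime.prod_right fun q hq => ?_
      refine (Nat.coprime_primes (hs p (mem_insert_self p s)) (hs q (mem_insert_of_mem hq))).2 ?_
      rintro rfl
      exact hp hq
  exact h _ fun p hp => (mem_filter.mp hp).2

/-- the arithmetic function 1/n -/
private noncomputable def dlF : ArithmeticFunction ℝ :=
  ⟨fun n => 1 / (n : ℝ), by simp⟩

private theorem dlF_apply (n : ℕ) : dlF n = 1 / (n : ℝ) := rfl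

private theorem dlF_mul : dlF.IsMultiplicative := by
  refine ⟨by simp [dlF_apply], fun {m n} _ => ?_⟩
  rw [dlF_apply, dlF_apply, dlF_apply]
  push_cast
  rw [one_div_mul_one_div]

theorem pDl : S_Dl := by
  intro w
  have h1 := dlF_mul.prodPrimeFactors_one_sub_of_squarefree dlF (dl_sqf w)
  have hW : (0 : ℝ) < (Wp w : ℝ) := by exact_mod_cast primorial_pos w
  have h2 : (((Wp w).totient : ℚ) : ℝ) =
      (((Wp w : ℚ) * ∏ p ∈ (Wp w).primeFactors, (1 - (p : ℚ)⁻¹) : ℚ) : ℝ) := by
    rw [Nat.totient_eq_mul_prod_factors]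
  push_cast at h2
  unfold dl
  rw [eq_div_iff hW.ne', h2, mul_comm]
  congr 1
  calc ∑ d ∈ (Wp w).divisors, ((ArithmeticFunction.moebius d : ℤ) : ℝ) / d
      = ∑ d ∈ (Wp w).divisors, ((ArithmeticFunction.moebius d : ℤ) : ℝ) * dlF d := by
        refine sum_congr rfl fun d _ => ?_
        rw [dlF_apply, mul_one_div]
    _ = ∏ p ∈ (Wp w).primeFactors, (1 - dlF p) := h1.symm
    _ = ∏ p ∈ (Wp w).primeFactors, (1 - (p : ℝ)⁻¹) := by
        refine prod_congr rfl fun p _ => ?_
        rw [dlF_apply, one_div]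

end Pool.Agent.Lib.MP_9f2731_nt.GP.Sv
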