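import Pool.Agent.Lib.MP_9f2731_nt.GP.Sv.Spec

/-!
MP_9f2731_nt, GP/Sv: the average over a full period as an Euler product of operators.
-/

open Finset

namespace Pool.Agent.Lib.MP_9f2731_nt.GP.Sv

theorem pExp (hU : S_Ub) (hC : S_Crt) : S_Exp := by
  intro ι _ _ w R m hR
  have hPq : (Pq w R : ℝ) ≠ 0 := by exact_mod_cast Pq_ne
  have hper : ∀ p ∈ Qs w R, ∀ b : ℕ,
      (∏ i, (1 - ind p (nf w (m i) (b + p)) • mon (e i p)) : Al ι)
        = ∏ i, (1 - ind p (nf w (m i) b) • mon (e i p)) := by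
    intro p _ b
    refine Finset.prod_congr rfl fun i _ => ?_
    have hh : ind p (nf w (m i) (b + p)) = ind p (nf w (m i) b) := by
      unfold ind
      have : (p ∣ nf w (m i) (b + p)) ↔ (p ∣ nf w (m i) b) := by
        have e1 : nf w (m i) (b + p) = nf w (m i) b + p * (Wp w * m i) := by
          unfold nf
          ring
        rw [e1]
        exact (Nat.dvd_add_iff_left (Dvd.intro _ rfl)).symm
      simp only [this]
    rw [hh]
  have h1 := hC (Al ι) (Qs w R)
    (fun p b => ∏ i, (1 - ind p (nf w (m i) b) • mon (e i p))) (fun p hp => (mem_Qs.1 hp).1) hper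
  have h2 : ∑ b ∈ range (Pq w R), ∏ i, Lam 2 R (nf w (m i) b)
      = act (∏ p ∈ Qs w R, ∑ b ∈ range p, ∏ i, (1 - ind p (nf w (m i) b) • mon (e i p)))
        (Ph R ι) 1 := by
    rw [← h1]
    have h3 : ∏ p ∈ Qs w R, p = Pq w R := rfl
    rw [h3, act_sum]
    refine Finset.sum_congr rfl fun b _ => ?_
    rw [hU ι w R (fun i => nf w (m i) b) hR fun i => ⟨nf_pos _ _ _, nf_coprime _ _ _⟩]
  have h4 : (∏ p ∈ Qs w R, EE w m p : Al ι) = (1 / (Pq w R : ℝ)) •
      ∏ p ∈ Qs w R, ∑ b ∈ range p, ∏ i, (1 - ind p (nf w (m i) b) • mon (e i p)) := by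
    unfold EE
    rw [Finset.prod_smul]
    congr 1
    unfold Pq
    push_cast
    rw [Finset.prod_div_distrib, Finset.prod_const_one]
  rw [h4, act_smul, ← h2]
  ring

end Pool.Agent.Lib.MP_9f2731_nt.GP.Sv
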