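import Pool.Agent.Lib.MP_9f2731_nt.GP.Sv.Spec

/-!
MP_9f2731_nt, GP/Sv: the tail of the truncated geometric series.
-/

open Finset

namespace Pool.Agent.Lib.MP_9f2731_nt.GP.Sv

theorem pGg : S_Gg := by
  intro ι K p x hK hp hx
  have hp0 : (0 : ℝ) < p := by linarith
  have e1 : gg K x - 1 - x = ∑ k ∈ Ico 2 K, x ^ k := by
    unfold gg
    rw [← Finset.sum_range_add_sum_Ico _ hK, Finset.sum_range_succ, Finset.sum_range_succ,
      Finset.sum_range_zero, pow_zero, pow_one]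
    ring
  rw [e1]
  refine (Nm.sum (Ico 2 K) (c := fun k => (1 / p) ^ k) fun k _ => hx.pow k).mono ?_
  have h1 : (0 : ℝ) ≤ 1 / p := by positivity
  have h2 : 1 / p ≤ 1 / 2 := one_div_le_one_div_of_le (by norm_num) hp
  have h5 := mul_neg_geom_sum (1 / p) (K - 2)
  have h6 : 0 ≤ ∑ k ∈ range (K - 2), (1 / p) ^ k := Finset.sum_nonneg fun k _ => by positivity
  have h7 : 0 ≤ (1 / p) ^ (K - 2) := by positivity
  have h8 : ∑ k ∈ range (K - 2), (1 / p) ^ k ≤ 2 := by nlinarith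
  have h4 : ∑ k ∈ Ico 2 K, (1 / p) ^ k = (1 / p) ^ 2 * ∑ k ∈ range (K - 2), (1 / p) ^ k := by
    rw [Finset.sum_Ico_eq_sum_range, Finset.mul_sum]
    exact Finset.sum_congr rfl fun k _ => by rw [pow_add]
  rw [h4]
  have e2 : 2 / p ^ 2 = (1 / p) ^ 2 * 2 := by
    field_simp
  rw [e2]
  exact mul_le_mul_of_nonneg_left h8 (by positivity)

end Pool.Agent.Lib.MP_9f2731_nt.GP.Sv
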