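import Pool.Agent.Lib.MP_9f2731_nt.GP.Sv.Spec

/-!
MP_9f2731_nt, GP/Sv/H0 (helper6, after helper84's docstring): the harmonic sum.
-/

open Finset

namespace Pool.Agent.Lib.MP_9f2731_nt.GP.Sv

theorem pH0 : S_H0 := by
  intro y hy
  set N := ⌊y⌋₊ with hN
  have hy0 : 0 ≤ y := by linarith
  have hN1 : 1 ≤ N := Nat.le_floor (by simpa using hy)
  have hN1' : (1 : ℝ) ≤ N := by exact_mod_cast hN1
  have h1 : (N : ℝ) ≤ y := Nat.floor_le hy0
  have h2 : y < N + 1 := Nat.lt_floor_add_one y
  have e1 : hs 0 y = ((harmonic N : ℚ) : ℝ) := by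
    unfold hs
    rw [harmonic_eq_sum_Icc]
    push_cast
    refine Finset.sum_congr rfl fun n _ => ?_
    rw [pow_zero, mul_one, one_div]
  have g1 := Real.eulerMascheroniSeq_lt_eulerMascheroniConstant N
  have g2 := Real.eulerMascheroniConstant_lt_eulerMascheroniSeq' N
  unfold Real.eulerMascheroniSeq at g1
  unfold Real.eulerMascheroniSeq' at g2
  rw [if_neg (by omega)] at g2
  rw [e1]
  have l1 : Real.log N ≤ Real.log y := Real.log_le_log (by linarith) h1
  have l2 : Real.log y ≤ Real.log (N + 1) := Real.log_le_log (by linarith) h2.le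
  have l3 : Real.log ((N : ℝ) + 1) - Real.log N ≤ 1 / N := by
    rw [← Real.log_div (by positivity) (by positivity)]
    refine (Real.log_le_sub_one_of_pos (by positivity)).trans (le_of_eq ?_)
    field_simp
    ring
  have l4 : 1 / (N : ℝ) ≤ 2 / y := by
    rw [div_le_div_iff₀ (by positivity) (by positivity)]
    linarith
  rw [abs_le]
  constructor <;> linarith

end Pool.Agent.Lib.MP_9f2731_nt.GP.Sv
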