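import Pool.Agent.Lib.MP_9f2731_nt.GP.Sv.Spec

/-!
MP_9f2731_nt, GP/Sv/H1 (helper6, after helper84's docstring): the sum of `log (y/n) / n`.
-/

open Finset

namespace Pool.Agent.Lib.MP_9f2731_nt.GP.Sv

theorem pH1 (hH0 : S_H0) (hL1 : S_L1) : S_H1 := by
  obtain ⟨c, C, hC, hL⟩ := hL1
  refine ⟨-c, 8 + 2 * C, by positivity, fun y hy => ?_⟩
  set N := ⌊y⌋₊ with hN
  have hy0 : 0 < y := by linarith
  have hN1 : 1 ≤ N := Nat.le_floor (by simpa using hy)
  have hN1' : (1 : ℝ) ≤ N := by exact_mod_cast hN1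
  have h1 : (N : ℝ) ≤ y := Nat.floor_le hy0.le
  have h2 : y < N + 1 := Nat.lt_floor_add_one y
  set l := Real.log y with hl
  set γ := Real.eulerMascheroniConstant with hγ
  set LN := ∑ n ∈ Icc 1 N, Real.log n / n with hLN
  have e0 : hs 0 y = ∑ n ∈ Icc 1 N, 1 / (n : ℝ) := by
    unfold hs
    refine Finset.sum_congr rfl fun n _ => ?_
    rw [pow_zero, mul_one]
  have e1 : hs 1 y = l * hs 0 y - LN := by
    rw [e0, hLN, Finset.mul_sum, ← Finset.sum_sub_distrib]
    unfold hs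
    refine Finset.sum_congr rfl fun n hn => ?_
    have hn1 := (Finset.mem_Icc.1 hn).1
    have hn0 : (n : ℝ) ≠ 0 := by positivity
    rw [pow_one, Real.log_div hy0.ne' hn0]
    ring
  have a1 := hH0 y hy
  have a2 := hL N hN1
  have hl0 : 0 ≤ l := Real.log_nonneg hy
  set s := Real.sqrt y with hs'
  have hs2 : s ^ 2 = y := Real.sq_sqrt hy0.le
  have hs1 : 1 ≤ s := by rw [hs']; exact Real.one_le_sqrt.2 hy
  have hls : l ≤ 2 * s := by
    have h3 : l = 2 * Real.log s := by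
      rw [hs', Real.log_sqrt hy0.le, hl]; ring
    have h4 := Real.log_le_sub_one_of_pos (x := s) (by linarith)
    linarith
  have hinv : 1 / y = (1 / s) * (1 / s) := by
    rw [← hs2]; field_simp
  have hls' : l * (1 / y) ≤ 2 * (1 / s) := by
    have h3 : l * (1 / y) ≤ 2 * s * (1 / y) := mul_le_mul_of_nonneg_right hls (by positivity)
    refine h3.trans (le_of_eq ?_)
    rw [hinv]; field_simp
  -- the three errors
  set ln := Real.log (N : ℝ) with hln
  have hln0 : 0 ≤ ln := Real.log_nonneg hN1'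
  have l1 : ln ≤ l := Real.log_le_log (by linarith) h1
  have l3 : l - ln ≤ 1 / N := by
    rw [hl, hln, ← Real.log_div hy0.ne' (by positivity)]
    refine (Real.log_le_sub_one_of_pos (by positivity)).trans ?_
    rw [div_sub_one (by positivity)]
    gcongr
    linarith
  have l4 : 1 / (N : ℝ) ≤ 2 * (1 / y) := by
    rw [mul_one_div, div_le_div_iff₀ (by positivity) (by positivity)]
    linarith
  have b1 : |l * (hs 0 y - l - γ)| ≤ 4 * (1 / s) := by
    rw [abs_mul, abs_of_nonneg hl0]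
    calc l * |hs 0 y - l - γ| ≤ l * (2 / y) := mul_le_mul_of_nonneg_left a1 hl0
      _ = 2 * (l * (1 / y)) := by ring
      _ ≤ _ := by linarith
  have b2 : |LN - 1 / 2 * ln ^ 2 - c| ≤ 2 * C * (1 / s) := by
    refine a2.trans ?_
    have h3 : s ≤ 2 * Real.sqrt N := by
      rw [hs', Real.sqrt_le_left (by positivity), mul_pow, Real.sq_sqrt (by positivity)]
      linarith
    have h4 : 0 < Real.sqrt N := Real.sqrt_pos.2 (by positivity)
    rw [mul_one_div, div_le_div_iff₀ h4 (by linarith)]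
    nlinarith
  have b3 : |1 / 2 * (l ^ 2 - ln ^ 2)| ≤ 4 * (1 / s) := by
    have h3 : 0 ≤ 1 / 2 * (l ^ 2 - ln ^ 2) := by nlinarith
    rw [abs_of_nonneg h3]
    have h4 : 1 / 2 * (l ^ 2 - ln ^ 2) ≤ (l - ln) * l := by nlinarith
    have h5 : (l - ln) * l ≤ 2 * (1 / y) * l := mul_le_mul_of_nonneg_right (l3.trans l4) hl0
    nlinarith
  have e2 : hs 1 y - 1 / 2 * l ^ 2 - γ * l - -c
      = l * (hs 0 y - l - γ) - (LN - 1 / 2 * ln ^ 2 - c) + 1 / 2 * (l ^ 2 - ln ^ 2) := by
    rw [e1]; ring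
  rw [e2]
  have e3 : (8 + 2 * C) / s = 4 * (1 / s) + 2 * C * (1 / s) + 4 * (1 / s) := by ring
  rw [e3]
  refine (abs_add_le _ _).trans (add_le_add ((abs_sub _ _).trans (add_le_add b1 b2)) b3)

end Pool.Agent.Lib.MP_9f2731_nt.GP.Sv
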