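import Pool.Agent.Lib.MP_9f2731_nt.GP.Sv.HwC

/-!
MP_9f2731_nt, GP/Sv/Hw0 (helper6, after helper84's docstring).
-/

open Finset

namespace Pool.Agent.Lib.MP_9f2731_nt.GP.Sv

open HwC in
theorem pHw0 (hE : S_HwE) (hD : S_Dl) (h0 : S_H0) : S_Hw0 := by
  intro w
  set γ := Real.eulerMascheroniConstant with hγ
  obtain ⟨C, hC, h⟩ := comb hE (w := w) (k := 0) (P := fun u => u + γ) (E := 2) (by norm_num)
    (fun t ht => by
      have h1 := h0 t ht
      have h2 : hs 0 t - (Real.log t + γ) = hs 0 t - Real.log t - γ := by ring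
      show |hs 0 t - (Real.log t + γ)| ≤ 2 / Real.sqrt t
      rw [h2]
      refine h1.trans ?_
      have h3 : Real.sqrt t ≤ t := by
        rw [Real.sqrt_le_left (by linarith)]; nlinarith
      have h4 : 0 < Real.sqrt t := Real.sqrt_pos.2 (by linarith)
      gcongr)
    (fun L hL => ⟨L + |γ|, by positivity, fun u hu1 hu2 => by
      show |u + γ| ≤ L + |γ|
      refine (abs_add_le _ _).trans (add_le_add ?_ le_rfl)
      rw [abs_le]; constructor <;> linarith⟩)
  refine ⟨∑ d ∈ (Wp w).divisors, ((ArithmeticFunction.moebius d : ℤ) : ℝ) / d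
    * (γ - Real.log d), C, hC, fun y hy => ?_⟩
  have h1 := h y hy
  have e1 : ∑ d ∈ (Wp w).divisors, ((ArithmeticFunction.moebius d : ℤ) : ℝ) / d
      * ((Real.log y - Real.log d) + γ)
      = dl w * Real.log y + ∑ d ∈ (Wp w).divisors,
        ((ArithmeticFunction.moebius d : ℤ) : ℝ) / d * (γ - Real.log d) := by
    rw [← hD w, Finset.sum_mul, ← Finset.sum_add_distrib]
    exact Finset.sum_congr rfl fun d _ => by ring
  have h2 : |hw w 0 y - ∑ d ∈ (Wp w).divisors, ((ArithmeticFunction.moebius d : ℤ) : ℝ) / d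
      * ((Real.log y - Real.log d) + γ)| ≤ C / Real.sqrt y := h1
  rw [e1, ← sub_sub] at h2
  exact h2

end Pool.Agent.Lib.MP_9f2731_nt.GP.Sv
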