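import Pool.Agent.Lib.MP_9f2731_nt.GP.Sv.HwC

/-!
MP_9f2731_nt, GP/Sv/Hw1 (helper6, after helper84's docstring).
-/

open Finset

namespace Pool.Agent.Lib.MP_9f2731_nt.GP.Sv

open HwC in
theorem pHw1 (hE : S_HwE) (hD : S_Dl) (h1 : S_H1) : S_Hw1 := by
  intro w
  obtain ⟨c, E, hE0, hH⟩ := h1
  set γ := Real.eulerMascheroniConstant with hγ
  obtain ⟨C, hC, h⟩ := comb hE (w := w) (k := 1) (P := fun u => 1 / 2 * u ^ 2 + γ * u + c)
    (E := E) hE0.le
    (fun t ht => by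
      have h1 := hH t ht
      have h2 : hs 1 t - (1 / 2 * Real.log t ^ 2 + γ * Real.log t + c)
          = hs 1 t - 1 / 2 * Real.log t ^ 2 - γ * Real.log t - c := by ring
      show |hs 1 t - (1 / 2 * Real.log t ^ 2 + γ * Real.log t + c)| ≤ E / Real.sqrt t
      rw [h2]
      exact h1)
    (fun L hL => ⟨1 / 2 * L ^ 2 + |γ| * L + |c|, by positivity, fun u hu1 hu2 => by
      show |1 / 2 * u ^ 2 + γ * u + c| ≤ 1 / 2 * L ^ 2 + |γ| * L + |c|
      have hu : |u| ≤ L := by rw [abs_le]; constructor <;> linarith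
      have b1 : |1 / 2 * u ^ 2| ≤ 1 / 2 * L ^ 2 := by
        rw [abs_of_nonneg (by positivity)]
        nlinarith
      have b2 : |γ * u| ≤ |γ| * L := by
        rw [abs_mul]; exact mul_le_mul_of_nonneg_left hu (abs_nonneg _)
      exact (abs_add_le _ _).trans (add_le_add ((abs_add_le _ _).trans (add_le_add b1 b2)) le_rfl)⟩)
  refine ⟨∑ d ∈ (Wp w).divisors, ((ArithmeticFunction.moebius d : ℤ) : ℝ) / d
    * (γ - Real.log d), ∑ d ∈ (Wp w).divisors, ((ArithmeticFunction.moebius d : ℤ) : ℝ) / d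
    * (1 / 2 * Real.log d ^ 2 - γ * Real.log d + c), C, hC, fun y hy => ?_⟩
  have h1 := h y hy
  have e1 : ∑ d ∈ (Wp w).divisors, ((ArithmeticFunction.moebius d : ℤ) : ℝ) / d
      * (1 / 2 * (Real.log y - Real.log d) ^ 2 + γ * (Real.log y - Real.log d) + c)
      = dl w / 2 * Real.log y ^ 2 + (∑ d ∈ (Wp w).divisors,
        ((ArithmeticFunction.moebius d : ℤ) : ℝ) / d * (γ - Real.log d)) * Real.log y
        + ∑ d ∈ (Wp w).divisors, ((ArithmeticFunction.moebius d : ℤ) : ℝ) / d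
        * (1 / 2 * Real.log d ^ 2 - γ * Real.log d + c) := by
    have e2 : dl w / 2 * Real.log y ^ 2 = (∑ d ∈ (Wp w).divisors,
        ((ArithmeticFunction.moebius d : ℤ) : ℝ) / d) * (1 / 2 * Real.log y ^ 2) := by
      rw [hD w]; ring
    rw [e2, Finset.sum_mul, Finset.sum_mul, ← Finset.sum_add_distrib, ← Finset.sum_add_distrib]
    exact Finset.sum_congr rfl fun d _ => by ring
  have h2 : |hw w 1 y - ∑ d ∈ (Wp w).divisors, ((ArithmeticFunction.moebius d : ℤ) : ℝ) / d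
      * (1 / 2 * (Real.log y - Real.log d) ^ 2 + γ * (Real.log y - Real.log d) + c)|
      ≤ C / Real.sqrt y := h1
  rw [e1] at h2
  have e3 : ∀ A B1 B2 B3 : ℝ, A - (B1 + B2 + B3) = A - B1 - B2 - B3 := fun _ _ _ _ => by ring
  rw [e3] at h2
  exact h2

end Pool.Agent.Lib.MP_9f2731_nt.GP.Sv
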