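import Pool.Agent.Lib.MP_9f2731_nt.GP.Sv.HwC

/-!
MP_9f2731_nt, GP/Sv/Hw2 (helper6, after helper84's docstring).
-/

open Finset

namespace Pool.Agent.Lib.MP_9f2731_nt.GP.Sv

namespace Hw2N

theorem one (h2 : S_H2) (d : ℕ) (hd : 1 ≤ d) (y : ℝ) (hy : 1 ≤ y) :
    |hs 2 (y / d) - 1 / 3 * Real.log y ^ 3| ≤ (1 + Real.log d) * (1 + Real.log y) ^ 2 := by
  have hd' : (1 : ℝ) ≤ d := by exact_mod_cast hd
  have hy0 : 0 < y := by linarith
  have hL : 0 ≤ Real.log d := Real.log_nonneg hd'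
  have hl : 0 ≤ Real.log y := Real.log_nonneg hy
  set L := Real.log (d : ℝ) with hLe
  set l := Real.log y with hle
  by_cases h : (d : ℝ) ≤ y
  · have h1 : 1 ≤ y / d := by
      rw [le_div_iff₀ (by positivity)]; linarith
    have h3 := h2 (y / d) h1
    rw [Real.log_div hy0.ne' (by positivity), ← hLe, ← hle] at h3
    have hLl : L ≤ l := Real.log_le_log (by positivity) h
    have b1 : |1 / 3 * (l - L) ^ 3 - 1 / 3 * l ^ 3| ≤ L * l ^ 2 := by
      have e : 1 / 3 * (l - L) ^ 3 - 1 / 3 * l ^ 3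
          = -(1 / 3 * L * ((l - L) ^ 2 + (l - L) * l + l ^ 2)) := by ring
      rw [e, abs_neg]
      have q0 : 0 ≤ l - L := by linarith
      have q1 : (l - L) ^ 2 ≤ l ^ 2 := pow_le_pow_left₀ q0 (by linarith) 2
      have q2 : (l - L) * l ≤ l ^ 2 := by nlinarith
      rw [abs_of_nonneg (by positivity)]
      nlinarith [mul_nonneg hL (sub_nonneg.2 q1), mul_nonneg hL (sub_nonneg.2 q2)]
    have b2 : (l - L) ^ 2 + 1 ≤ (1 + l) ^ 2 := by nlinarith
    have b3 : L * l ^ 2 ≤ L * (1 + l) ^ 2 := mul_le_mul_of_nonneg_left (by nlinarith) hL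
    have e2 : hs 2 (y / d) - 1 / 3 * l ^ 3
        = (hs 2 (y / d) - 1 / 3 * (l - L) ^ 3) + (1 / 3 * (l - L) ^ 3 - 1 / 3 * l ^ 3) := by ring
    rw [e2]
    refine (abs_add_le _ _).trans ((add_le_add h3 b1).trans ?_)
    nlinarith
  · rw [not_le] at h
    have h1 : y / d < 1 := by
      rw [div_lt_one (by positivity)]; exact h
    rw [HwC.hs_zero h1, zero_sub, abs_neg, abs_of_nonneg (by positivity)]
    have hld : l ≤ L := Real.log_le_log hy0 h.le
    have b1 : l ^ 3 ≤ L * l ^ 2 := by nlinarith [sq_nonneg l]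
    have b2 : L * l ^ 2 ≤ L * (1 + l) ^ 2 := mul_le_mul_of_nonneg_left (by nlinarith) hL
    have b3 : 0 ≤ (1 + l) ^ 2 := by positivity
    have b4 : 0 ≤ l ^ 3 := by positivity
    nlinarith

end Hw2N

open Hw2N in
theorem pHw2 (hE : S_HwE) (hD : S_Dl) (h2 : S_H2) : S_Hw2 := by
  intro w
  have hCd : ∀ d : ℕ, 0 ≤ 1 + Real.log d := fun d => by
    have : 0 ≤ Real.log (d : ℝ) := Real.log_natCast_nonneg d
    linarith
  refine ⟨1 + ∑ d ∈ (Wp w).divisors, (1 + Real.log d), ?_, fun y hy => ?_⟩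
  · have : 0 ≤ ∑ d ∈ (Wp w).divisors, (1 + Real.log (d : ℝ)) := Finset.sum_nonneg fun d _ => hCd d
    linarith
  · have e1 : dl w / 3 * Real.log y ^ 3 = ∑ d ∈ (Wp w).divisors,
        ((ArithmeticFunction.moebius d : ℤ) : ℝ) / d * (1 / 3 * Real.log y ^ 3) := by
      rw [← Finset.sum_mul, hD w]; ring
    rw [hE w 2 y (by linarith), e1, ← Finset.sum_sub_distrib]
    refine (Finset.abs_sum_le_sum_abs _ _).trans ?_
    have h3 : ∀ d ∈ (Wp w).divisors, |((ArithmeticFunction.moebius d : ℤ) : ℝ) / d * hs 2 (y / d)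
        - ((ArithmeticFunction.moebius d : ℤ) : ℝ) / d * (1 / 3 * Real.log y ^ 3)|
        ≤ (1 + Real.log d) * (1 + Real.log y) ^ 2 := by
      intro d hd
      have hd1 : 1 ≤ d := Nat.pos_of_mem_divisors hd
      rw [← mul_sub, abs_mul]
      calc _ ≤ 1 * ((1 + Real.log d) * (1 + Real.log y) ^ 2) :=
            mul_le_mul (HwC.abs_mu_div d) (one h2 d hd1 y hy) (abs_nonneg _) zero_le_one
        _ = _ := one_mul _
    refine (Finset.sum_le_sum h3).trans ?_
    rw [← Finset.sum_mul]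
    refine mul_le_mul_of_nonneg_right ?_ (by positivity)
    linarith

end Pool.Agent.Lib.MP_9f2731_nt.GP.Sv
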