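import Pool.Agent.Lib.MP_9f2731_nt.GP.Sv.Spec

/-!
MP_9f2731_nt, GP/Sv/L1 (helper6, after helper84's docstring): the sum of `log n / n`.
-/

open Finset

namespace Pool.Agent.Lib.MP_9f2731_nt.GP.Sv

theorem pL1 (hLim : S_Lim) : S_L1 := by
  set a : ℕ → ℝ := fun N => ∑ n ∈ Icc 1 N, Real.log n / n - (1 / 2) * Real.log N ^ 2 with ha
  have h : ∀ n : ℕ, 1 ≤ n → |a (n + 1) - a n| ≤ 4 / ((n : ℝ) * Real.sqrt n) := by
    intro n hn
    have hn' : (1 : ℝ) ≤ n := by exact_mod_cast hn
    have hn0 : (0 : ℝ) < n := by linarith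
    set l' := Real.log ((n + 1 : ℕ) : ℝ) with hl'
    set l := Real.log (n : ℝ) with hl
    have e1 : a (n + 1) - a n = l' / ((n : ℝ) + 1) - 1 / 2 * (l' ^ 2 - l ^ 2) := by
      rw [ha]
      simp only
      rw [Finset.sum_Icc_succ_top (by omega)]
      push_cast
      rw [hl', hl]
      push_cast
      ring
    have hl'0 : 0 ≤ l' := Real.log_nonneg (by push_cast; linarith)
    have hl0 : 0 ≤ l := Real.log_nonneg hn'
    -- bounds for the difference of the logarithms
    have hd : l' - l = Real.log (((n : ℝ) + 1) / n) := by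
      rw [hl', hl, Real.log_div (by positivity) (by positivity)]
      push_cast; rfl
    have t1 : l' - l ≤ 1 / n := by
      rw [hd]
      refine (Real.log_le_sub_one_of_pos (by positivity)).trans (le_of_eq ?_)
      field_simp
      ring
    have t2 : 1 / ((n : ℝ) + 1) ≤ l' - l := by
      rw [hd]
      refine le_trans (le_of_eq ?_) (Real.one_sub_inv_le_log_of_pos (by positivity))
      field_simp
      ring
    set t := l' - l with ht
    have t3 : 1 / (n : ℝ) - 1 / ((n : ℝ) + 1) ≤ 1 / (n : ℝ) ^ 2 := by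
      rw [div_sub_div _ _ hn0.ne' (by positivity), div_le_div_iff₀ (by positivity) (by positivity)]
      nlinarith
    have t0 : 0 ≤ t := le_trans (by positivity) t2
    have t4 : t ^ 2 ≤ 1 / (n : ℝ) ^ 2 := by
      calc t ^ 2 ≤ (1 / n) ^ 2 := pow_le_pow_left₀ t0 t1 2
        _ = _ := by rw [div_pow, one_pow]
    have e2 : l' / ((n : ℝ) + 1) - 1 / 2 * (l' ^ 2 - l ^ 2)
        = -(l' * (t - 1 / ((n : ℝ) + 1))) + t ^ 2 / 2 := by
      have : l = l' - t := by rw [ht]; ring
      rw [this]; ring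
    have b1 : 0 ≤ l' * (t - 1 / ((n : ℝ) + 1)) := mul_nonneg hl'0 (by linarith)
    have b2 : l' * (t - 1 / ((n : ℝ) + 1)) ≤ l' * (1 / (n : ℝ) ^ 2) :=
      mul_le_mul_of_nonneg_left (by linarith) hl'0
    have b3 : |a (n + 1) - a n| ≤ (l' + 1) * (1 / (n : ℝ) ^ 2) := by
      rw [e1, e2, abs_le]
      have h0 : 0 ≤ t ^ 2 := sq_nonneg t
      have h1 : 0 ≤ l' * (1 / (n : ℝ) ^ 2) := by positivity
      constructor
      · have : 0 ≤ 1 / (n : ℝ) ^ 2 := by positivity
        linarith
      · linarith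
    -- the logarithm
    set s := Real.sqrt n with hs
    have hs2 : s ^ 2 = n := Real.sq_sqrt (by positivity)
    have hs1 : 1 ≤ s := by rw [hs]; exact Real.one_le_sqrt.2 hn'
    have b4 : l' + 1 ≤ 4 * s := by
      have h1 : l' = 2 * Real.log (Real.sqrt ((n + 1 : ℕ) : ℝ)) := by
        rw [Real.log_sqrt (by positivity), hl']; ring
      have h2 := Real.log_le_sub_one_of_pos (x := Real.sqrt ((n + 1 : ℕ) : ℝ))
        (Real.sqrt_pos.2 (by positivity))
      have h3 : Real.sqrt ((n + 1 : ℕ) : ℝ) ≤ 2 * s := by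
        rw [Real.sqrt_le_left (by positivity)]
        push_cast
        nlinarith
      linarith
    refine b3.trans ?_
    have e3 : 4 / ((n : ℝ) * s) = 4 * s * (1 / (n : ℝ) ^ 2) := by
      have hs0 : s ≠ 0 := by positivity
      rw [← hs2]
      field_simp
    rw [e3]
    exact mul_le_mul_of_nonneg_right b4 (by positivity)
  obtain ⟨c, hc⟩ := hLim a 4 (by norm_num) h
  refine ⟨c, 4 * 4, by norm_num, fun N hN => hc N hN⟩

end Pool.Agent.Lib.MP_9f2731_nt.GP.Sv
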