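import Pool.Agent.Lib.MP_9f2731_nt.GP.Sv.Spec

/-!
MP_9f2731_nt, GP/Sv: `Lam` of a number prime to `Wp w` as a sum over the divisors of `Pq w R`.
-/

open Finset

namespace Pool.Agent.Lib.MP_9f2731_nt.GP.Sv

theorem LamP_dvd {w : ℕ} {R : ℝ} {d n : ℕ} (hd : Squarefree d) (hdn : d ∣ n)
    (hc : n.Coprime (Wp w)) (hdR : (d : ℝ) ≤ R) : d ∣ Pq w R := by
  have hd0 : d ≠ 0 := hd.ne_zero
  rw [← Nat.prod_primeFactors_of_squarefree hd]
  unfold Pq
  refine Finset.prod_dvd_prod_of_subset _ _ _ ?_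
  intro p hp
  have hpp := Nat.prime_of_mem_primeFactors hp
  have hpd := Nat.dvd_of_mem_primeFactors hp
  refine mem_Qs.2 ⟨hpp, ?_, ?_⟩
  · by_contra hcon
    have h1 : p ∣ Wp w := (prime_dvd_Wp hpp).2 (by omega)
    have h2 : p ∣ n := hpd.trans hdn
    have h3 := Nat.dvd_gcd h2 h1
    rw [hc] at h3
    exact hpp.one_lt.ne' (Nat.dvd_one.1 h3)
  · have h1 : p ≤ d := Nat.le_of_dvd (Nat.pos_of_ne_zero hd0) hpd
    exact h1.trans (Nat.le_floor hdR)

theorem pLamP : S_LamP := by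
  intro w R n hR hn hc
  unfold Lam
  have e1 : ∑ d ∈ n.divisors.filter (fun d : ℕ => (d : ℝ) ≤ R),
      ((ArithmeticFunction.moebius d : ℤ) : ℝ) * (1 - Real.log d / Real.log R) ^ 2
      = ∑ d ∈ ((Pq w R).divisors.filter (fun d : ℕ => d ∣ n ∧ (d : ℝ) ≤ R)),
        ((ArithmeticFunction.moebius d : ℤ) : ℝ) * (1 - Real.log d / Real.log R) ^ 2 := by
    symm
    refine Finset.sum_subset ?_ ?_
    · intro d hd
      rw [mem_filter, Nat.mem_divisors] at hd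
      rw [mem_filter, Nat.mem_divisors]
      exact ⟨⟨hd.2.1, by omega⟩, hd.2.2⟩
    · intro d hd hd2
      rw [mem_filter, Nat.mem_divisors] at hd
      have hns : ¬ Squarefree d := by
        intro hs
        apply hd2
        rw [mem_filter, Nat.mem_divisors]
        exact ⟨⟨LamP_dvd hs hd.1.1 hc hd.2, Pq_ne⟩, hd.1.1, hd.2⟩
      rw [ArithmeticFunction.moebius_eq_zero_of_not_squarefree hns]
      simp
  rw [e1, Finset.sum_filter]
  refine Finset.sum_congr rfl fun d hd => ?_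
  have hd1 : 1 ≤ d := Nat.pos_of_mem_divisors hd
  unfold ind chi
  by_cases h1 : d ∣ n
  · by_cases h2 : (d : ℝ) ≤ R
    · rw [if_pos ⟨h1, h2⟩, if_pos h1, if_pos ⟨hd1, h2⟩]
      ring
    · rw [if_neg (fun h : d ∣ n ∧ (d : ℝ) ≤ R => h2 h.2), if_neg (fun h : 1 ≤ d ∧ (d : ℝ) ≤ R => h2 h.2)]
      ring
  · rw [if_neg (fun h : d ∣ n ∧ (d : ℝ) ≤ R => h1 h.1), if_neg h1]
    ring

end Pool.Agent.Lib.MP_9f2731_nt.GP.Sv
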