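import Pool.Agent.Lib.MP_9f2731_nt.GP.Sv.Spec

/-!
MP_9f2731_nt, GP/Sv/Lim (helper6, after helper84's docstring): sequences with small increments.
-/

open Finset

namespace Pool.Agent.Lib.MP_9f2731_nt.GP.Sv

namespace LimN

theorem step (n : ℕ) (hn : 1 ≤ n) :
    1 / ((n : ℝ) * Real.sqrt n) ≤ 4 / Real.sqrt n - 4 / Real.sqrt ((n + 1 : ℕ) : ℝ) := by
  have hn' : (1 : ℝ) ≤ n := by exact_mod_cast hn
  set s := Real.sqrt n with hs
  set t := Real.sqrt ((n + 1 : ℕ) : ℝ) with ht
  have hs2 : s ^ 2 = n := Real.sq_sqrt (by positivity)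
  have ht2 : t ^ 2 = n + 1 := by
    rw [ht, Real.sq_sqrt (by positivity)]; push_cast; ring
  have hs1 : 1 ≤ s := by rw [hs]; exact Real.one_le_sqrt.2 hn'
  have hst : s ≤ t := Real.sqrt_le_sqrt (by push_cast; linarith)
  have ht0 : 0 < t := by linarith
  have hs0 : 0 < s := by linarith
  have h2 : t ≤ 2 * s := by nlinarith
  have e1 : (n : ℝ) * s = s ^ 3 := by rw [← hs2]; ring
  rw [e1]
  have e2 : 4 / s - 4 / t = 4 / (s * t * (s + t)) := by
    rw [div_sub_div _ _ hs0.ne' ht0.ne', div_eq_div_iff (by positivity) (by positivity)]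
    have : (t - s) * (s + t) = 1 := by nlinarith
    linear_combination (4 * s * t) * this
  rw [e2, div_le_div_iff₀ (by positivity) (by positivity)]
  have h3 : t * (s + t) ≤ 4 * s ^ 2 := by nlinarith
  nlinarith

end LimN

open LimN in
theorem pLim : S_Lim := by
  intro a C hC h
  set r : ℕ → ℝ := fun n => 4 * C / Real.sqrt ((n + 1 : ℕ) : ℝ) with hr
  have hr0 : ∀ n, 0 ≤ r n := fun n => by rw [hr]; positivity
  have hstep : ∀ n, |a (n + 2) - a (n + 1)| ≤ r n - r (n + 1) := by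
    intro n
    have h1 := h (n + 1) (by omega)
    have h2 := step (n + 1) (by omega)
    have h3 : C / (((n + 1 : ℕ) : ℝ) * Real.sqrt ((n + 1 : ℕ) : ℝ))
        = C * (1 / (((n + 1 : ℕ) : ℝ) * Real.sqrt ((n + 1 : ℕ) : ℝ))) := by ring
    rw [h3] at h1
    refine h1.trans ((mul_le_mul_of_nonneg_left h2 hC).trans (le_of_eq ?_))
    rw [hr]
    ring
  set f : ℕ → ℝ := fun n => a (n + 1) + r n with hf
  set g : ℕ → ℝ := fun n => a (n + 1) - r n with hg
  have hfa : Antitone f := antitone_nat_of_succ_le fun n => by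
    have := (abs_le.1 (hstep n)).2
    show a (n + 2) + r (n + 1) ≤ a (n + 1) + r n
    linarith
  have hgm : Monotone g := monotone_nat_of_le_succ fun n => by
    have := (abs_le.1 (hstep n)).1
    show a (n + 1) - r n ≤ a (n + 2) - r (n + 1)
    linarith
  have hgf : ∀ n m, g n ≤ f m := fun n m => by
    have h1 : g n ≤ g (max n m) := hgm (le_max_left _ _)
    have h2 : f (max n m) ≤ f m := hfa (le_max_right _ _)
    have h3 : g (max n m) ≤ f (max n m) := by
      have := hr0 (max n m)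
      show a (max n m + 1) - r (max n m) ≤ a (max n m + 1) + r (max n m)
      linarith
    linarith
  have hbdd : BddBelow (Set.range f) := ⟨g 0, by rintro _ ⟨n, rfl⟩; exact hgf 0 n⟩
  refine ⟨⨅ n, f n, fun n hn => ?_⟩
  obtain ⟨k, rfl⟩ : ∃ k, n = k + 1 := ⟨n - 1, by omega⟩
  have h1 : ⨅ n, f n ≤ f k := ciInf_le hbdd k
  have h2 : g k ≤ ⨅ n, f n := le_ciInf fun m => hgf k m
  have h3 : f k = a (k + 1) + r k := rfl
  have h4 : g k = a (k + 1) - r k := rfl
  show |a (k + 1) - ⨅ n, f n| ≤ r k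
  rw [abs_le]
  constructor <;> linarith

end Pool.Agent.Lib.MP_9f2731_nt.GP.Sv
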