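import Pool.Agent.Lib.MP_9f2731_nt.GP.Sv.Spec

/-!
MP_9f2731_nt, GP/Sv: the local factor is close to one.
-/

open Finset

namespace Pool.Agent.Lib.MP_9f2731_nt.GP.Sv

theorem pLocB (hO : S_One) : S_LocB := by
  intro σ _ _ w p m hp hw hm
  classical
  have hp0 : (0 : ℝ) < p := by exact_mod_cast hp.pos
  set n := Fintype.card σ with hn
  let G : ℕ → Al (σ × Bool) := fun b => ∏ i : σ × Bool, (1 - ind p (nf w (m i.1) b) • mon (e i p))
  -- the bad residues
  choose b0 hb0 hb0' using fun j => hO w (m j) p hp hw (hm j)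
  let S : Finset ℕ := univ.image b0
  have hS : S.card ≤ n := by
    refine (Finset.card_image_le).trans ?_
    rw [Finset.card_univ]
  have hSp : S ⊆ range p := by
    intro b hb
    obtain ⟨j, -, rfl⟩ := Finset.mem_image.1 hb
    exact mem_range.2 (hb0 j)
  have hz : ∀ b ∈ range p, b ∉ S → G b - 1 = 0 := by
    intro b hb hbS
    have : G b = 1 := by
      refine Finset.prod_eq_one fun i _ => ?_
      have h1 : ¬ p ∣ nf w (m i.1) b := by
        intro hd
        have := (hb0' i.1 b (mem_range.1 hb)).1 hd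
        exact hbS (Finset.mem_image.2 ⟨i.1, mem_univ _, this.symm⟩)
      unfold ind
      rw [if_neg h1, zero_smul, sub_zero]
    rw [this, sub_self]
  have hnm : ∀ b, Nm (G b - 1) ((4 : ℝ) ^ n + 1) := by
    intro b
    refine (Nm.sub (Nm.prod univ (c := fun _ => 2) fun i _ => ?_) Nm.one).mono ?_
    · have h1 : Nm (ind p (nf w (m i.1) b) • mon (e i p) : Al (σ × Bool))
          (|ind p (nf w (m i.1) b)| * 1) := (Nm.mon _).smul _
      refine (Nm.one.sub h1).mono ?_
      have : |ind p (nf w (m i.1) b)| ≤ 1 := by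
        unfold ind
        split_ifs <;> simp
      linarith
    · rw [Finset.prod_const, Finset.card_univ, Fintype.card_prod, Fintype.card_bool, ← hn]
      have : (2 : ℝ) ^ (n * 2) = 4 ^ n := by
        rw [mul_comm, pow_mul]
        norm_num
      rw [this]
  have e1 : EE w (fun i : σ × Bool => m i.1) p - 1 = (1 / (p : ℝ)) • ∑ b ∈ S, (G b - 1) := by
    have e2 : ∑ b ∈ S, (G b - 1) = ∑ b ∈ range p, (G b - 1) :=
      Finset.sum_subset hSp fun b hb hbS => hz b hb hbS
    rw [e2, Finset.sum_sub_distrib, Finset.sum_const, Finset.card_range, smul_sub]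
    unfold EE
    congr 1
    rw [← Nat.cast_smul_eq_nsmul ℝ, smul_smul, one_div, inv_mul_cancel₀ hp0.ne', one_smul]
  rw [e1]
  refine ((Nm.sum S (c := fun _ => (4 : ℝ) ^ n + 1) fun b _ => hnm b).smul (1 / (p : ℝ))).mono ?_
  rw [Finset.sum_const, nsmul_eq_mul, abs_of_pos (by positivity : (0 : ℝ) < 1 / p), div_mul_eq_mul_div,
    one_mul]
  refine div_le_div_of_nonneg_right ?_ hp0.le
  refine mul_le_mul_of_nonneg_right ?_ (by positivity)
  exact_mod_cast hS

end Pool.Agent.Lib.MP_9f2731_nt.GP.Sv
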