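import Pool.Agent.Lib.MP_9f2731_nt.GP.Sv.Spec

/-!
MP_9f2731_nt, GP/Sv: expansion of the approximate inverse of the local factor.
-/

open Finset

namespace Pool.Agent.Lib.MP_9f2731_nt.GP.Sv

/-- one factor -/
theorem LocD_one {ι : Type} {p : ℝ} (hp : 2 ≤ p) {z x x' a a' : Al ι} (hz : Nm z (1 / p))
    (hx : Nm x (1 / p)) (hx' : Nm x' (1 / p)) (ha : Nm (a - 1 - x) (2 / p ^ 2))
    (ha' : Nm (a' - 1 - x') (2 / p ^ 2)) :
    Nm ((1 - z) * a * a' - 1 - (x + x' - z)) (14 / p ^ 2) := by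
  have hp0 : (0 : ℝ) < p := by linarith
  have hA : Nm (a - 1) (2 / p) := by
    have h1 := hx.add ha
    have e1 : x + (a - 1 - x) = a - 1 := by ring
    rw [e1] at h1
    refine h1.mono ?_
    rw [div_add_div _ _ hp0.ne' (by positivity), div_le_div_iff₀ (by positivity) hp0]
    nlinarith [pow_pos hp0 2, pow_pos hp0 3]
  have hB : Nm (a' - 1) (2 / p) := by
    have h1 := hx'.add ha'
    have e1 : x' + (a' - 1 - x') = a' - 1 := by ring
    rw [e1] at h1
    refine h1.mono ?_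
    rw [div_add_div _ _ hp0.ne' (by positivity), div_le_div_iff₀ (by positivity) hp0]
    nlinarith [pow_pos hp0 2, pow_pos hp0 3]
  have e1 : (1 - z) * a * a' - 1 - (x + x' - z)
      = ((a - 1 - x) + (a' - 1 - x') + (a - 1) * (a' - 1)) - (z * (a - 1) + z * (a' - 1)
        + z * ((a - 1) * (a' - 1))) := by ring
  rw [e1]
  refine (((ha.add ha').add (hA.mul hB)).sub (((hz.mul hA).add (hz.mul hB)).add
    (hz.mul (hA.mul hB)))).mono ?_
  have e2 : 2 / p ^ 2 + 2 / p ^ 2 + 2 / p * (2 / p) + (1 / p * (2 / p) + 1 / p * (2 / p)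
      + 1 / p * (2 / p * (2 / p))) = 12 / p ^ 2 + 4 / p ^ 3 := by
    field_simp
    ring
  rw [e2]
  have h3 : 4 / p ^ 3 ≤ 2 / p ^ 2 := by
    rw [div_le_div_iff₀ (by positivity) (by positivity)]
    nlinarith [pow_pos hp0 2]
  have e3 : 14 / p ^ 2 = 12 / p ^ 2 + 2 / p ^ 2 := by ring
  linarith

theorem pLocD (hG : S_Gg) (hP : S_Pex) : S_LocD := by
  intro n
  obtain ⟨C', hC', H⟩ := hP n 14 (by norm_num)
  refine ⟨C', hC', ?_⟩
  intro σ _ _ K p hn hK hp
  have hp2 : (2 : ℝ) ≤ p := by exact_mod_cast hp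
  have hp0 : (0 : ℝ) < p := by linarith
  have hxx : ∀ i : σ × Bool, Nm (xx p i) (1 / p) := fun i => by
    have h1 := (Nm.mon (e i p)).smul (1 / (p : ℝ))
    rw [abs_of_pos (by positivity), mul_one] at h1
    exact h1
  have hzz : ∀ j : σ, Nm (zz p j) (1 / p) := fun j => by
    have h1 := (Nm.mon (e (j, true) p * e (j, false) p)).smul (1 / (p : ℝ))
    rw [abs_of_pos (by positivity), mul_one] at h1
    exact h1
  let u : σ → Al (σ × Bool) := fun j => xx p (j, true) + xx p (j, false) - zz p j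
  let r : σ → Al (σ × Bool) := fun j =>
    (1 - zz p j) * gg K (xx p (j, true)) * gg K (xx p (j, false)) - 1 - u j
  have hu : ∀ j ∈ (univ : Finset σ), Nm (u j) (14 / p) := fun j _ => by
    refine (((hxx (j, true)).add (hxx (j, false))).sub (hzz j)).mono ?_
    rw [← add_div, ← add_div]
    exact div_le_div_of_nonneg_right (by norm_num) hp0.le
  have hr : ∀ j ∈ (univ : Finset σ), Nm (r j) (14 / (p : ℝ) ^ 2) := fun j _ =>
    LocD_one hp2 (hzz j) (hxx _) (hxx _) (hG _ K p _ hK hp2 (hxx _)) (hG _ K p _ hK hp2 (hxx _))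
  have h1 := H (σ × Bool) σ univ u r p (by rw [Finset.card_univ]; exact hn) (by linarith) hu hr
  have e1 : ∏ j : σ, (1 + u j + r j) = DD K p := by
    unfold DD
    refine Finset.prod_congr rfl fun j _ => ?_
    show 1 + u j + ((1 - zz p j) * gg K (xx p (j, true)) * gg K (xx p (j, false)) - 1 - u j) = _
    ring
  have e2 : ∑ j : σ, u j = -((1 / (p : ℝ)) • ∑ j : σ, vv p j) := by
    rw [Finset.smul_sum, ← Finset.sum_neg_distrib]
    refine Finset.sum_congr rfl fun j _ => ?_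
    show xx p (j, true) + xx p (j, false) - zz p j = _
    unfold xx zz vv
    rw [mon_mul, smul_sub, smul_sub]
    ring
  rw [e1, e2, sub_neg_eq_add] at h1
  exact h1

end Pool.Agent.Lib.MP_9f2731_nt.GP.Sv
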