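import Pool.Agent.Lib.MP_9f2731_nt.GP.Sv.Spec

/-!
MP_9f2731_nt, GP/Sv/M0 (helper6, after helper84's docstring): the sum of `μ(n)/n` is bounded.
-/

open Finset

namespace Pool.Agent.Lib.MP_9f2731_nt.GP.Sv

theorem pM0 (hM : S_Mob) (hC : S_Cnt) : S_M0 := by
  intro w
  obtain ⟨C, hC0, hA⟩ := hC w
  have hdl := dl_pos w
  refine ⟨(1 + C) / dl w, by positivity, fun y hy => ?_⟩
  have hy0 : 0 < y := by linarith
  set I := (Icc 1 ⌊y⌋₊).filter (fun n => n.Coprime (Wp w)) with hI
  have h1 := hM w (fun _ => 1) y hy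
  rw [← hI] at h1
  have e1 : mw w 0 y = ∑ n ∈ I, ((ArithmeticFunction.moebius n : ℤ) : ℝ) / n := by
    unfold mw
    exact Finset.sum_congr rfl fun n _ => by rw [pow_zero, mul_one]
  have e2 : dl w * y * mw w 0 y
      = ∑ n ∈ I, ((ArithmeticFunction.moebius n : ℤ) : ℝ) * (dl w * (y / n)) := by
    rw [e1, Finset.mul_sum]
    exact Finset.sum_congr rfl fun n _ => by ring
  have h2 : |1 - dl w * y * mw w 0 y| ≤ C * y := by
    rw [← h1, e2, ← Finset.sum_sub_distrib]
    refine (Finset.abs_sum_le_sum_abs _ _).trans ?_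
    have h3 : ∀ u ∈ I, |((ArithmeticFunction.moebius u : ℤ) : ℝ) *
        ∑ _n ∈ (Icc 1 ⌊y / u⌋₊).filter (fun n => n.Coprime (Wp w)), (1 : ℝ)
        - ((ArithmeticFunction.moebius u : ℤ) : ℝ) * (dl w * (y / u))| ≤ C := by
      intro u _
      rw [← mul_sub, abs_mul]
      have a1 : |((ArithmeticFunction.moebius u : ℤ) : ℝ)| ≤ 1 := by
        have := ArithmeticFunction.abs_moebius_le_one (n := u)
        exact_mod_cast this
      have a2 := hA (y / u) (by positivity)
      rw [Finset.sum_const, nsmul_eq_mul, mul_one]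
      calc _ ≤ 1 * C := mul_le_mul a1 a2 (abs_nonneg _) zero_le_one
        _ = C := one_mul _
    refine (Finset.sum_le_sum h3).trans ?_
    rw [Finset.sum_const, nsmul_eq_mul, mul_comm]
    refine mul_le_mul_of_nonneg_left ?_ hC0.le
    have h4 : I.card ≤ ⌊y⌋₊ := by
      have := Finset.card_filter_le (Icc 1 ⌊y⌋₊) (fun n => n.Coprime (Wp w))
      rw [Nat.card_Icc] at this
      simpa using this
    calc (I.card : ℝ) ≤ (⌊y⌋₊ : ℝ) := by exact_mod_cast h4
      _ ≤ y := Nat.floor_le hy0.le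
  have h5 : dl w * y * |mw w 0 y| ≤ (1 + C) * y := by
    have h6 : |dl w * y * mw w 0 y| = dl w * y * |mw w 0 y| := by
      rw [abs_mul, abs_of_pos (by positivity)]
    rw [← h6]
    have h7 := abs_le.1 h2
    rw [abs_le]
    constructor <;> nlinarith
  rw [le_div_iff₀ hdl]
  have h8 : (dl w * |mw w 0 y|) * y ≤ (1 + C) * y := by linarith
  have := le_of_mul_le_mul_right h8 hy0
  linarith

end Pool.Agent.Lib.MP_9f2731_nt.GP.Sv
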