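import Pool.Agent.Lib.MP_9f2731_nt.GP.Sv.Spec

/-!
MP_9f2731_nt, GP/Sv, module M2: the Moebius sum with the square of the logarithm.
-/

open Finset

namespace Pool.Agent.Lib.MP_9f2731_nt.GP.Sv

private lemma M2_gen (h4 : S_Sq) (w : ℕ) (H : ℝ → ℝ) (A B c C : ℝ) (hC : 0 ≤ C)
    (hH : ∀ t : ℝ, 1 ≤ t → |H t - A * Real.log t ^ 2 - B * Real.log t - c| ≤ C / Real.sqrt t)
    (y : ℝ) (hy : 1 ≤ y) :
    |∑ u ∈ (Icc 1 ⌊y⌋₊).filter (fun n => n.Coprime (Wp w)),
        ((ArithmeticFunction.moebius u : ℤ) : ℝ) / u * H (y / u) -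
      A * mw w 2 y - B * mw w 1 y - c * mw w 0 y| ≤ 2 * C := by
  have hy0 : 0 < y := by linarith
  have e1 : ∑ u ∈ (Icc 1 ⌊y⌋₊).filter (fun n => n.Coprime (Wp w)),
        ((ArithmeticFunction.moebius u : ℤ) : ℝ) / u * H (y / u) -
      A * mw w 2 y - B * mw w 1 y - c * mw w 0 y =
      ∑ u ∈ (Icc 1 ⌊y⌋₊).filter (fun n => n.Coprime (Wp w)),
        ((ArithmeticFunction.moebius u : ℤ) : ℝ) / u *
          (H (y / u) - A * Real.log (y / u) ^ 2 - B * Real.log (y / u) - c) := by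
    unfold mw
    rw [Finset.mul_sum, Finset.mul_sum, Finset.mul_sum, ← Finset.sum_sub_distrib,
      ← Finset.sum_sub_distrib, ← Finset.sum_sub_distrib]
    refine Finset.sum_congr rfl fun u _ => ?_
    ring
  rw [e1]
  refine le_trans (Finset.abs_sum_le_sum_abs _ _) ?_
  have hterm : ∀ u ∈ (Icc 1 ⌊y⌋₊).filter (fun n => n.Coprime (Wp w)),
      |((ArithmeticFunction.moebius u : ℤ) : ℝ) / u *
          (H (y / u) - A * Real.log (y / u) ^ 2 - B * Real.log (y / u) - c)| ≤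
        C / Real.sqrt y * (1 / Real.sqrt u) := by
    intro u hu
    rw [Finset.mem_filter, Finset.mem_Icc] at hu
    have hu1 : (1 : ℝ) ≤ u := by exact_mod_cast hu.1.1
    have hu0 : (0 : ℝ) < u := by linarith
    have huy : (u : ℝ) ≤ y := (Nat.le_floor_iff hy0.le).1 hu.1.2
    have ht : 1 ≤ y / u := by rwa [one_le_div hu0]
    have h1 := hH (y / u) ht
    have h2 : |((ArithmeticFunction.moebius u : ℤ) : ℝ)| ≤ 1 := by
      exact_mod_cast ArithmeticFunction.abs_moebius_le_one (n := u)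
    have h3 : |((ArithmeticFunction.moebius u : ℤ) : ℝ) / u| ≤ 1 / u := by
      rw [abs_div, abs_of_pos hu0]
      exact div_le_div_of_nonneg_right h2 hu0.le
    rw [abs_mul]
    calc |((ArithmeticFunction.moebius u : ℤ) : ℝ) / u| *
          |H (y / u) - A * Real.log (y / u) ^ 2 - B * Real.log (y / u) - c|
        ≤ 1 / u * (C / Real.sqrt (y / u)) := mul_le_mul h3 h1 (abs_nonneg _) (by positivity)
      _ = C / Real.sqrt y * (1 / Real.sqrt u) := by
          have hs : Real.sqrt u * Real.sqrt u = u := Real.mul_self_sqrt hu0.le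
          have hsu : 0 < Real.sqrt (u : ℝ) := Real.sqrt_pos.2 hu0
          have hsy : 0 < Real.sqrt y := Real.sqrt_pos.2 hy0
          rw [Real.sqrt_div hy0.le]
          rw [div_div_eq_mul_div]
          nth_rw 1 [← hs]
          field_simp
  refine le_trans (Finset.sum_le_sum hterm) ?_
  rw [← Finset.mul_sum]
  have hsy : 0 < Real.sqrt y := Real.sqrt_pos.2 hy0
  have hs1 : ∑ u ∈ (Icc 1 ⌊y⌋₊).filter (fun n => n.Coprime (Wp w)), 1 / Real.sqrt (u : ℝ) ≤
      2 * Real.sqrt y := by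
    calc ∑ u ∈ (Icc 1 ⌊y⌋₊).filter (fun n => n.Coprime (Wp w)), 1 / Real.sqrt (u : ℝ)
        ≤ ∑ u ∈ Icc 1 ⌊y⌋₊, 1 / Real.sqrt (u : ℝ) :=
          Finset.sum_le_sum_of_subset_of_nonneg (Finset.filter_subset _ _)
            (fun u _ _ => by positivity)
      _ ≤ 2 * Real.sqrt (⌊y⌋₊ : ℝ) := h4 _
      _ ≤ 2 * Real.sqrt y := by
          have := Real.sqrt_le_sqrt (Nat.floor_le hy0.le)
          linarith
  calc C / Real.sqrt y * ∑ u ∈ (Icc 1 ⌊y⌋₊).filter (fun n => n.Coprime (Wp w)), 1 / Real.sqrt (u : ℝ)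
      ≤ C / Real.sqrt y * (2 * Real.sqrt y) := by gcongr
    _ = 2 * C := by field_simp

theorem pM2 (h1 : S_Mob) (h2 : S_Hw1) (h3 : S_M0) (h3' : S_M1) (h4 : S_Sq) : S_M2 := by
  intro w
  obtain ⟨c1, c2, C, hC, hH⟩ := h2 w
  obtain ⟨C0, hC0, hM0⟩ := h3 w
  obtain ⟨C1, hC1, hM1⟩ := h3' w
  have hdl := dl_pos w
  refine ⟨2 / dl w * (2 * C + |c1| * C1 + |c2| * C0), by positivity, ?_⟩
  intro y hy
  have hy0 : 0 < y := by linarith
  have hg := M2_gen h4 w (fun t => hw w 1 t) (dl w / 2) c1 c2 C hC.le hH y hy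
  have hmob := h1 w (fun k => 1 / (k : ℝ) * Real.log (y / k)) y hy
  have e1 : ∑ u ∈ (Icc 1 ⌊y⌋₊).filter (fun n => n.Coprime (Wp w)),
      ((ArithmeticFunction.moebius u : ℤ) : ℝ) / u * hw w 1 (y / u) = Real.log y := by
    have h11 : (1 : ℝ) / ((1 : ℕ) : ℝ) * Real.log (y / ((1 : ℕ) : ℝ)) = Real.log y := by simp
    rw [h11] at hmob
    rw [← hmob]
    refine Finset.sum_congr rfl fun u _ => ?_
    unfold hw
    rw [div_mul_eq_mul_div, mul_div_assoc, Finset.sum_div]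
    congr 1
    refine Finset.sum_congr rfl fun n _ => ?_
    rw [pow_one, Nat.cast_mul, div_div, mul_comm (1 / (n : ℝ)), mul_div_assoc, div_div,
      mul_comm (n : ℝ) (u : ℝ), mul_comm]
  simp only [e1] at hg
  have hm0 := hM0 y hy
  have hm1 := hM1 y hy
  have hb : |c2 * mw w 0 y| ≤ |c2| * C0 := by
    rw [abs_mul]
    exact mul_le_mul_of_nonneg_left hm0 (abs_nonneg _)
  have hb1 : |c1 * mw w 1 y| ≤ |c1| * C1 := by
    rw [abs_mul]
    exact mul_le_mul_of_nonneg_left hm1 (abs_nonneg _)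
  have hkey : mw w 2 y - 2 / dl w * Real.log y = 2 / dl w * (dl w / 2 * mw w 2 y - Real.log y) := by
    field_simp
  rw [hkey, abs_mul, abs_of_pos (by positivity : 0 < 2 / dl w)]
  apply mul_le_mul_of_nonneg_left _ (by positivity)
  rw [abs_le] at hg hb hb1 ⊢
  constructor <;> linarith [hg.1, hg.2, hb.1, hb.2, hb1.1, hb1.2]

end Pool.Agent.Lib.MP_9f2731_nt.GP.Sv
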