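import Pool.Agent.Lib.MP_9f2731_nt.GP.Sv.Spec

/-!
MP_9f2731_nt, GP/Sv: products of operators close to one.
-/

open Finset

namespace Pool.Agent.Lib.MP_9f2731_nt.GP.Sv

theorem pMas : S_Mas := by
  intro ι s H ε
  induction s using Finset.induction_on with
  | empty =>
    intro _
    rw [Finset.prod_empty, Finset.prod_empty, sub_self, sub_self]
    exact Nm.zero
  | insert q s hq ih =>
    intro h
    have ih' := ih fun p hp => h p (mem_insert_of_mem hp)
    have hP : Nm (∏ p ∈ s, H p) (∏ p ∈ s, (1 + ε p)) := by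
      refine Nm.prod s fun p hp => ?_
      have h1 := (h p (mem_insert_of_mem hp)).add (Nm.one (ι := ι))
      rw [sub_add_cancel, add_comm (ε p) 1] at h1
      exact h1
    have h2 := ((h q (mem_insert_self q s)).mul hP).add ih'
    rw [Finset.prod_insert hq, Finset.prod_insert hq]
    have e1 : H q * ∏ p ∈ s, H p - 1 = (H q - 1) * ∏ p ∈ s, H p + (∏ p ∈ s, H p - 1) := by ring
    have e2 : (1 + ε q) * ∏ p ∈ s, (1 + ε p) - 1
        = ε q * ∏ p ∈ s, (1 + ε p) + (∏ p ∈ s, (1 + ε p) - 1) := by ring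
    rw [e1, e2]
    exact h2

end Pool.Agent.Lib.MP_9f2731_nt.GP.Sv
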