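import Pool.Agent.Lib.MP_9f2731_nt.GP.Sv.Spec

/-!
MP_9f2731_nt, GP/Sv, module Moi: Moebius inversion for the correlation sums.
-/

namespace Pool.Agent.Lib.MP_9f2731_nt.GP.Sv

open Finset

private theorem moi_MM {w : ℕ} {R : ℝ} {n : ℕ} (h : n = 0 ∨ R < n) : MM w R n = 0 := by
  unfold MM
  refine sum_eq_zero fun u hu => ?_
  rw [chi_zero, mul_zero]
  rcases h with h | h
  · left
    rw [h, mul_zero]
  · right
    have hu1 : 1 ≤ u := Nat.pos_of_mem_divisors hu
    have h1 : n ≤ u * n := Nat.le_mul_of_pos_left n hu1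
    have h2 : (n : ℝ) ≤ ((u * n : ℕ) : ℝ) := by exact_mod_cast h1
    linarith

private theorem moi_sum (n : ℕ) (hn : 1 ≤ n) :
    ∑ d ∈ n.divisors, ((ArithmeticFunction.moebius d : ℤ) : ℝ) = if n = 1 then 1 else 0 := by
  have h1 : (ArithmeticFunction.moebius * (ArithmeticFunction.zeta : ArithmeticFunction ℤ)) n =
      (1 : ArithmeticFunction ℤ) n := by rw [ArithmeticFunction.moebius_mul_coe_zeta]
  rw [ArithmeticFunction.coe_mul_zeta_apply, ArithmeticFunction.one_apply] at h1
  have h2 : ((∑ d ∈ n.divisors, (ArithmeticFunction.moebius d : ℤ) : ℤ) : ℝ) =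
      ((if n = 1 then 1 else 0 : ℤ) : ℝ) := by rw [h1]
  push_cast at h2
  exact h2

/-- the coefficient of one number -/
private theorem moi_coef (w : ℕ) (R : ℝ) (n : ℕ) (hn : n ∈ Icc 1 ⌊R⌋₊) :
    ∑ p ∈ (((Pq w R).divisors ×ˢ (Icc 1 ⌊R⌋₊).filter (fun n => n.Coprime (Wp w))).filter
      (fun p : ℕ × ℕ => p.1 * p.2 = n)), ((ArithmeticFunction.moebius p.1 : ℤ) : ℝ) =
      if n = 1 then 1 else 0 := by
  rw [mem_Icc] at hn
  have hcop : ∀ h ∈ (Pq w R).divisors, h.Coprime (Wp w) := by
    intro h hh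
    refine Nat.Coprime.coprime_dvd_left (Nat.dvd_of_mem_divisors hh) ?_
    refine Nat.coprime_of_dvd fun p hp h1 h2 => ?_
    have h3 := (mem_Qs.1 ((prime_dvd_Pq hp).1 h1)).2.1
    have h4 := (prime_dvd_Wp hp).1 h2
    omega
  by_cases hc : n.Coprime (Wp w)
  · rw [← moi_sum n hn.1]
    have hmap : ∑ h ∈ n.divisors.filter (fun h => h ∣ Pq w R),
        ((ArithmeticFunction.moebius h : ℤ) : ℝ) =
        ∑ p ∈ (((Pq w R).divisors ×ˢ (Icc 1 ⌊R⌋₊).filter (fun n => n.Coprime (Wp w))).filter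
          (fun p : ℕ × ℕ => p.1 * p.2 = n)), ((ArithmeticFunction.moebius p.1 : ℤ) : ℝ) := by
      refine sum_bij' (fun h _ => (h, n / h)) (fun p _ => p.1) ?_ ?_ ?_ ?_ ?_
      · intro h hh
        obtain ⟨h1, h2⟩ := mem_filter.mp hh
        have h3 := Nat.dvd_of_mem_divisors h1
        have h4 : 1 ≤ n / h := Nat.div_pos (Nat.le_of_dvd hn.1 h3) (Nat.pos_of_mem_divisors h1)
        have h5 : h * (n / h) = n := Nat.mul_div_cancel' h3
        refine mem_filter.mpr ⟨mem_product.mpr ⟨Nat.mem_divisors.mpr ⟨h2, Pq_ne⟩,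
          mem_filter.mpr ⟨mem_Icc.mpr ⟨h4, (Nat.div_le_self n h).trans hn.2⟩, ?_⟩⟩, h5⟩
        exact Nat.Coprime.coprime_dvd_left (Nat.div_dvd_of_dvd h3) hc
      · intro p hp
        obtain ⟨h1, h2⟩ := mem_filter.mp hp
        obtain ⟨h3, h4⟩ := mem_product.mp h1
        refine mem_filter.mpr ⟨Nat.mem_divisors.mpr ⟨⟨p.2, h2.symm⟩, by omega⟩,
          Nat.dvd_of_mem_divisors h3⟩
      · intro h hh
        rfl
      · intro p hp
        obtain ⟨h1, h2⟩ := mem_filter.mp hp
        obtain ⟨h3, h4⟩ := mem_product.mp h1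
        have h5 : n / p.1 = p.2 := by
          rw [← h2]
          exact Nat.mul_div_cancel_left p.2 (Nat.pos_of_mem_divisors h3)
        exact Prod.ext rfl h5
      · intro h hh
        rfl
    rw [← hmap, sum_filter]
    refine sum_congr rfl fun h hh => ?_
    split_ifs with h1
    · rfl
    · have h2 : ¬ Squarefree h := by
        intro hs
        apply h1
        rw [← Nat.prod_primeFactors_of_squarefree hs]
        unfold Pq
        refine prod_dvd_prod_of_subset _ _ _ fun p hp => ?_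
        have hpp := Nat.prime_of_mem_primeFactors hp
        have hpn : p ∣ n := (Nat.dvd_of_mem_primeFactors hp).trans (Nat.dvd_of_mem_divisors hh)
        refine mem_Qs.mpr ⟨hpp, ?_, (Nat.le_of_dvd hn.1 hpn).trans hn.2⟩
        by_contra h3
        have h4 : p ∣ Wp w := (prime_dvd_Wp hpp).mpr (by omega)
        exact Nat.not_coprime_of_dvd_of_dvd hpp.one_lt hpn h4 hc
      rw [ArithmeticFunction.moebius_eq_zero_of_not_squarefree h2, Int.cast_zero]
  · have hn1 : n ≠ 1 := by
      rintro rfl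
      exact hc (Nat.coprime_one_left _)
    rw [if_neg hn1]
    refine sum_eq_zero fun p hp => ?_
    exfalso
    obtain ⟨h1, h2⟩ := mem_filter.mp hp
    obtain ⟨h3, h4⟩ := mem_product.mp h1
    apply hc
    rw [← h2]
    exact Nat.Coprime.mul_left (hcop _ h3) (mem_filter.mp h4).2

theorem pMoi : S_Moi := by
  intro w R b c hR
  rcases Nat.eq_zero_or_pos b with hb | hb
  · subst hb
    rw [moi_MM (Or.inl rfl), zero_mul]
    refine sum_eq_zero fun h _ => ?_
    unfold TT
    rw [sum_eq_zero, mul_zero]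
    intro g _
    rw [mul_zero, mul_zero, moi_MM (Or.inl rfl), mul_zero, zero_mul]
  rcases Nat.eq_zero_or_pos c with hc | hc
  · subst hc
    rw [moi_MM (n := 0) (Or.inl rfl), mul_zero]
    refine sum_eq_zero fun h _ => ?_
    unfold TT
    rw [sum_eq_zero, mul_zero]
    intro g _
    rw [mul_zero, mul_zero, moi_MM (n := 0) (Or.inl rfl), mul_zero]
  set G : ℕ → ℝ := fun n => 1 / (n : ℝ) * MM w R (n * b) * MM w R (n * c) with hG
  set A := (Icc 1 ⌊R⌋₊).filter (fun n => n.Coprime (Wp w)) with hA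
  have hR0 : 0 ≤ R := by linarith
  have hG0 : ∀ n : ℕ, ⌊R⌋₊ < n → G n = 0 := by
    intro n hn
    have h1 : R < (n : ℝ) := (Nat.floor_lt hR0).mp hn
    have h2 : R < ((n * b : ℕ) : ℝ) := by
      have h3 : n ≤ n * b := Nat.le_mul_of_pos_right n hb
      have h4 : (n : ℝ) ≤ ((n * b : ℕ) : ℝ) := by exact_mod_cast h3
      linarith
    simp only [hG]
    rw [moi_MM (Or.inr h2), mul_zero, zero_mul]
  calc ∑ h ∈ (Pq w R).divisors, ((ArithmeticFunction.moebius h : ℤ) : ℝ) / h *
        TT w R (h * b) (h * c)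
      = ∑ h ∈ (Pq w R).divisors, ∑ g ∈ A, ((ArithmeticFunction.moebius h : ℤ) : ℝ) * G (h * g) := by
        refine sum_congr rfl fun h hh => ?_
        unfold TT
        rw [mul_sum]
        refine sum_congr rfl fun g hg => ?_
        have hh0 : (h : ℝ) ≠ 0 := by
          have := Nat.pos_of_mem_divisors hh
          positivity
        simp only [hG]
        rw [show g * (h * b) = h * g * b by ring, show g * (h * c) = h * g * c by ring]
        push_cast
        field_simp
    _ = ∑ p ∈ (Pq w R).divisors ×ˢ A, ((ArithmeticFunction.moebius p.1 : ℤ) : ℝ) *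
          G (p.1 * p.2) := by rw [sum_product]
    _ = ∑ p ∈ ((Pq w R).divisors ×ˢ A).filter (fun p => p.1 * p.2 ∈ Icc 1 ⌊R⌋₊),
          ((ArithmeticFunction.moebius p.1 : ℤ) : ℝ) * G (p.1 * p.2) := by
        symm
        apply sum_filter_of_ne
        intro p hp hne
        obtain ⟨h3, h4⟩ := mem_product.mp hp
        have h5 := Nat.pos_of_mem_divisors h3
        have h6 := (mem_Icc.mp (mem_filter.mp h4).1).1
        refine mem_Icc.mpr ⟨Nat.mul_pos h5 h6, ?_⟩
        by_contra h7
        apply hne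
        rw [hG0 _ (by omega), mul_zero]
    _ = ∑ n ∈ Icc 1 ⌊R⌋₊, ∑ p ∈ (((Pq w R).divisors ×ˢ A).filter
          (fun p => p.1 * p.2 ∈ Icc 1 ⌊R⌋₊)).filter (fun p => p.1 * p.2 = n),
          ((ArithmeticFunction.moebius p.1 : ℤ) : ℝ) * G (p.1 * p.2) := by
        rw [sum_fiberwise_of_maps_to]
        intro p hp
        exact (mem_filter.mp hp).2
    _ = ∑ n ∈ Icc 1 ⌊R⌋₊, (if n = 1 then 1 else 0) * G n := by
        refine sum_congr rfl fun n hn => ?_
        rw [← moi_coef w R n hn, sum_mul]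
        have hf : (((Pq w R).divisors ×ˢ A).filter
            (fun p => p.1 * p.2 ∈ Icc 1 ⌊R⌋₊)).filter (fun p => p.1 * p.2 = n) =
            ((Pq w R).divisors ×ˢ A).filter (fun p => p.1 * p.2 = n) := by
          rw [filter_filter]
          refine filter_congr fun p _ => ?_
          constructor
          · exact fun h => h.2
          · intro h
            exact ⟨by rw [h]; exact hn, h⟩
        rw [hf]
        refine sum_congr rfl fun p hp => ?_
        rw [(mem_filter.mp hp).2]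
    _ = MM w R b * MM w R c := by
        have h1 : 1 ∈ Icc 1 ⌊R⌋₊ := mem_Icc.mpr ⟨le_rfl, Nat.le_floor (by rw [Nat.cast_one]; linarith)⟩
        simp only [ite_mul, one_mul, zero_mul]
        rw [sum_ite_eq_of_mem' _ _ _ h1]
        simp only [hG]
        rw [one_mul, one_mul, Nat.cast_one, div_one, one_mul]

end Pool.Agent.Lib.MP_9f2731_nt.GP.Sv
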