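import Pool.Agent.Lib.MP_9f2731_nt.GP.Sv.Spec

/-!
MP_9f2731_nt, GP/Sv: every form has exactly one zero modulo p.
-/

open Finset

namespace Pool.Agent.Lib.MP_9f2731_nt.GP.Sv

theorem pOne : S_One := by
  intro w m p hp hw hm
  have : Fact p.Prime := ⟨hp⟩
  have ha : ((Wp w * m : ℕ) : ZMod p) ≠ 0 := by
    rw [Ne, ZMod.natCast_eq_zero_iff]
    exact not_dvd_Wm hm hp hw
  have hkey : ∀ b : ℕ, p ∣ nf w m b ↔ (b : ZMod p) = -((Wp w * m : ℕ) : ZMod p)⁻¹ := by
    intro b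
    rw [← ZMod.natCast_eq_zero_iff]
    have e1 : ((nf w m b : ℕ) : ZMod p) = ((Wp w * m : ℕ) : ZMod p) * b + 1 := by
      unfold nf
      push_cast
      ring
    rw [e1]
    constructor
    · intro h
      have h1 : ((Wp w * m : ℕ) : ZMod p) * b = -1 := by linear_combination h
      calc (b : ZMod p) = ((Wp w * m : ℕ) : ZMod p)⁻¹ * (((Wp w * m : ℕ) : ZMod p) * b) := by
            rw [← mul_assoc, inv_mul_cancel₀ ha, one_mul]
        _ = _ := by rw [h1]; ring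
    · intro h
      rw [h, mul_neg, mul_inv_cancel₀ ha]
      ring
  refine ⟨(-((Wp w * m : ℕ) : ZMod p)⁻¹).val, ZMod.val_lt _, fun b hb => ?_⟩
  rw [hkey b]
  constructor
  · intro h
    rw [← h, ZMod.val_natCast, Nat.mod_eq_of_lt hb]
  · intro h
    rw [h, ZMod.natCast_zmod_val]

end Pool.Agent.Lib.MP_9f2731_nt.GP.Sv
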