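import Pool.Agent.Lib.MP_9f2731_nt.GP.Sv.Spec

/-!
MP_9f2731_nt, GP/Sv, module Per (helper44): the average over b up to X and over the residues.
-/

open Finset

namespace Pool.Agent.Lib.MP_9f2731_nt.GP.Sv

private noncomputable def per_D (w : ℕ) (R : ℝ) : Finset ℕ :=
  (Pq w R).divisors.filter (fun d => (d : ℝ) ≤ R)

private theorem per_card {w : ℕ} {R : ℝ} (hR : 1 < R) : ((per_D w R).card : ℝ) ≤ R := by
  have h1 : per_D w R ⊆ Icc 1 ⌊R⌋₊ := by
    intro d hd
    unfold per_D at hd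
    rw [mem_filter] at hd
    rw [mem_Icc]
    exact ⟨Nat.pos_of_mem_divisors hd.1, Nat.le_floor hd.2⟩
  have h2 := card_le_card h1
  rw [Nat.card_Icc, Nat.add_sub_cancel] at h2
  calc ((per_D w R).card : ℝ) ≤ (⌊R⌋₊ : ℝ) := by exact_mod_cast h2
    _ ≤ R := Nat.floor_le (by linarith)

private theorem per_Lam (hL : S_LamP) {w : ℕ} {R : ℝ} (hR : 1 < R) (m b : ℕ) :
    Lam 2 R (nf w m b) = ∑ d ∈ per_D w R,
      (((ArithmeticFunction.moebius d : ℤ) : ℝ) * chi R d) * ind d (nf w m b) := by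
  rw [hL w R _ hR (nf_pos w m b) (nf_coprime w m b)]
  unfold per_D
  rw [Finset.sum_filter]
  refine Finset.sum_congr rfl fun d _ => ?_
  split_ifs with h
  · ring
  · push Not at h
    rw [chi_zero (Or.inr h), mul_zero]

private theorem per_ind {ι : Type} [Fintype ι] (d n : ι → ℕ) :
    ∏ i, ind (d i) (n i) = if ∀ i, d i ∣ n i then 1 else 0 := by
  split_ifs with h
  · refine Finset.prod_eq_one fun i _ => ?_
    unfold ind
    rw [if_pos (h i)]
  · push Not at h
    obtain ⟨i, hi⟩ := h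
    refine Finset.prod_eq_zero (mem_univ i) ?_
    unfold ind
    rw [if_neg hi]

private theorem per_sum {ι : Type} [Fintype ι] [DecidableEq ι] (hL : S_LamP) {w : ℕ} {R : ℝ}
    (hR : 1 < R) (m : ι → ℕ) (B : Finset ℕ) :
    ∑ b ∈ B, ∏ i, Lam 2 R (nf w (m i) b) =
      ∑ d ∈ Fintype.piFinset (fun _ : ι => per_D w R),
        (∏ i, (((ArithmeticFunction.moebius (d i) : ℤ) : ℝ) * chi R (d i))) *
          ((B.filter (fun b => ∀ i, d i ∣ nf w (m i) b)).card : ℝ) := by
  have h1 : ∀ b ∈ B, ∏ i, Lam 2 R (nf w (m i) b) =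
      ∑ d ∈ Fintype.piFinset (fun _ : ι => per_D w R),
        (∏ i, (((ArithmeticFunction.moebius (d i) : ℤ) : ℝ) * chi R (d i))) *
          (if ∀ i, d i ∣ nf w (m i) b then 1 else 0) := by
    intro b _
    have h2 : ∏ i, Lam 2 R (nf w (m i) b) = ∏ i, ∑ d ∈ per_D w R,
        (((ArithmeticFunction.moebius d : ℤ) : ℝ) * chi R d) * ind d (nf w (m i) b) :=
      Finset.prod_congr rfl fun i _ => per_Lam hL hR (m i) b
    rw [h2, Finset.prod_univ_sum]
    refine Finset.sum_congr rfl fun d _ => ?_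
    rw [Finset.prod_mul_distrib, per_ind]
  rw [Finset.sum_congr rfl h1, Finset.sum_comm]
  refine Finset.sum_congr rfl fun d _ => ?_
  rw [← Finset.mul_sum, Finset.sum_boole]

private theorem per_coef {ι : Type} [Fintype ι] {R : ℝ} (hR : 1 < R) (d : ι → ℕ) :
    |∏ i, (((ArithmeticFunction.moebius (d i) : ℤ) : ℝ) * chi R (d i))| ≤ 1 := by
  rw [Finset.abs_prod]
  refine Finset.prod_le_one (fun i _ => abs_nonneg _) fun i _ => ?_
  rw [abs_mul, abs_of_nonneg (chi_nonneg R (d i))]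
  have h1 : |((ArithmeticFunction.moebius (d i) : ℤ) : ℝ)| ≤ 1 := by
    have := ArithmeticFunction.abs_moebius_le_one (n := d i)
    exact_mod_cast this
  exact mul_le_one₀ h1 (chi_nonneg R (d i)) (chi_le_one hR (d i))

theorem pPer (hL : S_LamP) (hD : S_Dns) : S_Per := by
  intro ι _ _ w R X m hR hX hm
  have hX0 : (0 : ℝ) < X := by exact_mod_cast hX
  rw [per_sum hL hR m, per_sum hL hR m, Finset.sum_div, Finset.sum_div,
    ← Finset.sum_sub_distrib]
  have h1 : ∀ d ∈ Fintype.piFinset (fun _ : ι => per_D w R),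
      |(∏ i, (((ArithmeticFunction.moebius (d i) : ℤ) : ℝ) * chi R (d i))) *
          (((Icc 1 X).filter (fun b => ∀ i, d i ∣ nf w (m i) b)).card : ℝ) / X -
        (∏ i, (((ArithmeticFunction.moebius (d i) : ℤ) : ℝ) * chi R (d i))) *
          (((range (Pq w R)).filter (fun b => ∀ i, d i ∣ nf w (m i) b)).card : ℝ) / Pq w R|
        ≤ 1 / X := by
    intro d hd
    rw [Fintype.mem_piFinset] at hd
    have h2 := hD ι w R X m d hX hm fun i => by
      have h3 := hd i
      unfold per_D at h3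
      rw [mem_filter] at h3
      exact Nat.dvd_of_mem_divisors h3.1
    rw [mul_div_assoc, mul_div_assoc, ← mul_sub, abs_mul]
    calc _ ≤ 1 * (1 / (X : ℝ)) :=
          mul_le_mul (per_coef hR d) h2 (abs_nonneg _) zero_le_one
      _ = 1 / X := one_mul _
  refine (Finset.abs_sum_le_sum_abs _ _).trans ((Finset.sum_le_sum h1).trans ?_)
  rw [Finset.sum_const, nsmul_eq_mul, Fintype.card_piFinset, Finset.prod_const, card_univ,
    mul_one_div]
  refine div_le_div_of_nonneg_right ?_ hX0.le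
  push_cast
  exact pow_le_pow_left₀ (Nat.cast_nonneg _) (per_card hR) _

end Pool.Agent.Lib.MP_9f2731_nt.GP.Sv
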