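import Pool.Agent.Lib.MP_9f2731_nt.GP.Sv.Spec

/-!
MP_9f2731_nt, GP/Sv: products of factors near one (helper84).
-/

open Finset

namespace Pool.Agent.Lib.MP_9f2731_nt.GP.Sv

theorem pPex : S_Pex := by
  intro n C hC
  induction n with
  | zero =>
    refine ⟨0, le_rfl, ?_⟩
    intro ι κ s u r p hs hp hu hr
    have : s = ∅ := Finset.card_eq_zero.1 (by omega)
    subst this
    simpa using (Nm.zero : Nm (0 : Al ι) 0)
  | succ n ih =>
    obtain ⟨D, hD, h⟩ := ih
    have hn0 : (0 : ℝ) ≤ n := Nat.cast_nonneg n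
    refine ⟨D + C + 2 * n * C ^ 2 + 2 * C * D, by positivity, ?_⟩
    intro ι κ s u r p hs hp hu hr
    classical
    have hp0 : 0 < p := by linarith
    obtain ⟨q, hq⟩ : ∃ q : ℝ, q = 1 / p := ⟨_, rfl⟩
    have hq0 : 0 < q := by rw [hq]; positivity
    have hq1 : q ≤ 1 := by
      rw [hq, div_le_one hp0]
      exact hp
    have e1 : ∀ c : ℝ, c / p = c * q := fun c => by rw [hq]; ring
    have e2 : ∀ c : ℝ, c / p ^ 2 = c * q ^ 2 := fun c => by rw [hq]; field_simp
    rcases s.eq_empty_or_nonempty with rfl | ⟨j, hj⟩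
    · have h0 : Nm (0 : Al ι) ((D + C + 2 * n * C ^ 2 + 2 * C * D) / p ^ 2) :=
        Nm.zero.mono (by positivity)
      simpa using h0
    · obtain ⟨t, ht⟩ : ∃ t, t = s.erase j := ⟨_, rfl⟩
      have hjt : j ∉ t := by rw [ht]; exact notMem_erase j s
      have hst : s = insert j t := by rw [ht, insert_erase hj]
      have htc : t.card ≤ n := by
        rw [ht, card_erase_of_mem hj]
        omega
      have hts : ∀ k ∈ t, k ∈ s := fun k hk => by
        rw [hst]
        exact mem_insert_of_mem hk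
      have hρ := h ι κ t u r p htc hp (fun k hk => hu k (hts k hk)) (fun k hk => hr k (hts k hk))
      have hS : Nm (∑ k ∈ t, u k) (n * (C / p)) := by
        refine (Nm.sum t fun k hk => hu k (hts k hk)).mono ?_
        rw [Finset.sum_const, nsmul_eq_mul]
        refine mul_le_mul_of_nonneg_right (by exact_mod_cast htc) (by positivity)
      have huj := hu j hj
      have hrj := hr j hj
      have e : ∏ k ∈ s, (1 + u k + r k) - 1 - ∑ k ∈ s, u k
          = (∏ k ∈ t, (1 + u k + r k) - 1 - ∑ k ∈ t, u k) + u j * (∑ k ∈ t, u k)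
            + u j * (∏ k ∈ t, (1 + u k + r k) - 1 - ∑ k ∈ t, u k) + r j
            + r j * (∑ k ∈ t, u k)
            + r j * (∏ k ∈ t, (1 + u k + r k) - 1 - ∑ k ∈ t, u k) := by
        rw [hst, Finset.prod_insert hjt, Finset.sum_insert hjt]
        ring
      rw [e]
      refine (((((hρ.add (huj.mul hS)).add (huj.mul hρ)).add hrj).add (hrj.mul hS)).add
        (hrj.mul hρ)).mono ?_
      simp only [e1, e2]
      have hq3 : q ^ 3 ≤ q ^ 2 := pow_le_pow_of_le_one hq0.le hq1 (by norm_num)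
      have hq4 : q ^ 4 ≤ q ^ 2 := pow_le_pow_of_le_one hq0.le hq1 (by norm_num)
      have a1 : C * D * q ^ 3 ≤ C * D * q ^ 2 := mul_le_mul_of_nonneg_left hq3 (by positivity)
      have a2 : n * C ^ 2 * q ^ 3 ≤ n * C ^ 2 * q ^ 2 := mul_le_mul_of_nonneg_left hq3 (by positivity)
      have a3 : C * D * q ^ 4 ≤ C * D * q ^ 2 := mul_le_mul_of_nonneg_left hq4 (by positivity)
      nlinarith

end Pool.Agent.Lib.MP_9f2731_nt.GP.Sv
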