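import Pool.Agent.Lib.MP_9f2731_nt.GP.Sv.Spec

/-!
MP_9f2731_nt, GP/Sv/Sq (helper6, after helper84's docstring).
-/

open Finset

namespace Pool.Agent.Lib.MP_9f2731_nt.GP.Sv

theorem pSq : S_Sq := by
  intro N
  induction N with
  | zero => simp
  | succ N ih =>
    rw [Finset.sum_Icc_succ_top (by omega)]
    have hs0 : 0 ≤ Real.sqrt (N : ℝ) := Real.sqrt_nonneg _
    have ht0 : 0 < Real.sqrt ((N + 1 : ℕ) : ℝ) := Real.sqrt_pos.2 (by positivity)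
    have hs2 : Real.sqrt (N : ℝ) ^ 2 = N := Real.sq_sqrt (by positivity)
    have ht2 : Real.sqrt ((N + 1 : ℕ) : ℝ) ^ 2 = N + 1 := by
      rw [Real.sq_sqrt (by positivity)]; push_cast; ring
    have h1 : 1 / Real.sqrt ((N + 1 : ℕ) : ℝ)
        ≤ 2 * Real.sqrt ((N + 1 : ℕ) : ℝ) - 2 * Real.sqrt (N : ℝ) := by
      rw [div_le_iff₀ ht0]
      nlinarith [sq_nonneg (Real.sqrt ((N + 1 : ℕ) : ℝ) - Real.sqrt (N : ℝ))]
    linarith

end Pool.Agent.Lib.MP_9f2731_nt.GP.Sv
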