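import Pool.Agent.Lib.MP_9f2731_nt.GP.Sv.Spec

/-!
MP_9f2731_nt, GP/Sv/TTb: the size of the correlation sum of one form.
-/

open Finset

namespace Pool.Agent.Lib.MP_9f2731_nt.GP.Sv

private theorem TTb_abs (h1 : S_MR) (w : ℕ) (R C2 δ : ℝ) (hR : 1 < R) (hδ : 0 < δ) (hC2 : 0 < C2)
    (hM : ∀ y : ℝ, 1 ≤ y → |mw w 2 y - 2 / δ * Real.log y| ≤ C2) (g b : ℕ) (hg : 1 ≤ g)
    (hgR : (g : ℝ) ≤ R) :
    |MM w R (g * b)| ≤ (2 / δ * Real.log (R / g) + C2) / Real.log R ^ 2 := by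
  have hL : 0 < Real.log R := Real.log_pos hR
  have hg0 : (0 : ℝ) < g := by exact_mod_cast hg
  have hx : 0 ≤ Real.log (R / g) := Real.log_nonneg ((one_le_div hg0).2 hgR)
  rw [h1 w R (g * b) hR]
  split_ifs with hb
  · obtain ⟨hb1, hbR⟩ := hb
    have hgb : (0 : ℝ) < ((g * b : ℕ) : ℝ) := by exact_mod_cast hb1
    rw [abs_div, abs_of_nonneg (sq_nonneg (Real.log R))]
    refine div_le_div_of_nonneg_right ?_ (sq_nonneg _)
    have h2 := hM (R / ((g * b : ℕ) : ℝ)) ((one_le_div hgb).2 hbR)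
    have h3 : 0 ≤ Real.log (R / ((g * b : ℕ) : ℝ)) :=
      Real.log_nonneg ((one_le_div hgb).2 hbR)
    have h4 : Real.log (R / ((g * b : ℕ) : ℝ)) ≤ Real.log (R / g) := by
      refine Real.log_le_log (div_pos (by linarith) hgb) ?_
      refine div_le_div_of_nonneg_left (by linarith) hg0 ?_
      have h5 : 1 ≤ b := by
        rcases Nat.eq_zero_or_pos b with h | h
        · rw [h, mul_zero] at hb1
          omega
        · exact h
      exact_mod_cast Nat.le_mul_of_pos_right g h5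
    have h6 : 0 < 2 / δ := by positivity
    rw [abs_le] at h2 ⊢
    constructor
    · linarith [mul_nonneg h6.le h3, mul_nonneg h6.le hx, h2.1]
    · linarith [mul_le_mul_of_nonneg_left h4 h6.le, h2.2]
  · rw [abs_zero]
    positivity

theorem pTTb (h1 : S_MR) (h2 : S_M2) (h3 : S_Hw0) (h4 : S_Hw1) (h5 : S_Hw2) : S_TTb := by
  intro w
  obtain ⟨C2, hC2, hM⟩ := h2 w
  obtain ⟨c0, C0, hC0, hH0⟩ := h3 w
  obtain ⟨c1, c2, C1, hC1, hH1⟩ := h4 w
  obtain ⟨C3, hC3, hH2⟩ := h5 w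
  obtain ⟨δ, hδe⟩ : ∃ δ, δ = dl w := ⟨_, rfl⟩
  have hδ : 0 < δ := by rw [hδe]; exact dl_pos w
  simp only [← hδe] at hM hH0 hH1 hH2 ⊢
  obtain ⟨K1, hK1⟩ : ∃ K1, K1 = δ / 2 + |c1| + |c2| + C1 := ⟨_, rfl⟩
  obtain ⟨K0, hK0⟩ : ∃ K0, K0 = δ + |c0| + C0 := ⟨_, rfl⟩
  have hK1p : 0 < K1 := by rw [hK1]; positivity
  have hK0p : 0 < K0 := by rw [hK0]; positivity
  obtain ⟨K2, hK2⟩ : ∃ K2, K2 = 4 * C2 / δ * K1 + C2 ^ 2 * K0 := ⟨_, rfl⟩
  have hK2p : 0 < K2 := by rw [hK2]; positivity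
  obtain ⟨K, hK⟩ : ∃ K, K = 4 / δ ^ 2 * C3 + K2 := ⟨_, rfl⟩
  have hKp : 0 < K := by rw [hK]; positivity
  refine ⟨27 / 4 * δ * K, by positivity, fun R hR => ?_⟩
  have hR1 : 1 < R := by linarith
  have hR0 : 0 < R := by linarith
  obtain ⟨L, hLe⟩ : ∃ L, L = Real.log R := ⟨_, rfl⟩
  have hLh : 1 / 2 ≤ L := by
    have ha := Real.log_two_gt_d9
    have hb : Real.log 2 ≤ Real.log R := Real.log_le_log (by norm_num) hR
    rw [hLe]
    linarith
  have hL : 0 < L := by linarith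
  have hX : (1 + L) ^ 2 ≤ 9 * L ^ 2 := by
    have ha : (1 + L) ^ 2 ≤ (3 * L) ^ 2 := pow_le_pow_left₀ (by linarith) (by linarith) 2
    calc (1 + L) ^ 2 ≤ (3 * L) ^ 2 := ha
      _ = 9 * L ^ 2 := by ring
  have hsq : 1 ≤ Real.sqrt R := by
    rw [Real.one_le_sqrt]
    exact hR1.le
  obtain ⟨S, hS⟩ : ∃ S, S = (Icc 1 ⌊R⌋₊).filter (fun n => n.Coprime (Wp w)) := ⟨_, rfl⟩
  have hSm : ∀ g ∈ S, 1 ≤ g ∧ (g : ℝ) ≤ R := by
    intro g hg
    rw [hS, mem_filter, mem_Icc] at hg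
    exact ⟨hg.1.1, (Nat.le_floor_iff hR0.le).1 hg.1.2⟩
  have hx : ∀ g ∈ S, 0 ≤ Real.log (R / g) := by
    intro g hg
    obtain ⟨ha, hb⟩ := hSm g hg
    have hc : (0 : ℝ) < g := by exact_mod_cast ha
    exact Real.log_nonneg ((one_le_div hc).2 hb)
  have e0 : hw w 0 R = ∑ g ∈ S, 1 / (g : ℝ) := by
    rw [hS]
    unfold hw
    exact Finset.sum_congr rfl fun g _ => by rw [pow_zero, mul_one]
  have e1 : hw w 1 R = ∑ g ∈ S, 1 / (g : ℝ) * Real.log (R / g) := by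
    rw [hS]
    unfold hw
    exact Finset.sum_congr rfl fun g _ => by rw [pow_one]
  have e2 : hw w 2 R = ∑ g ∈ S, 1 / (g : ℝ) * Real.log (R / g) ^ 2 := by
    rw [hS]
    rfl
  -- the two sums
  obtain ⟨A, hA⟩ : ∃ A, A = ∑ g ∈ S, 1 / (g : ℝ) * (2 / δ * Real.log (R / g)) ^ 2 := ⟨_, rfl⟩
  obtain ⟨E, hE⟩ : ∃ E, E = ∑ g ∈ S, 1 / (g : ℝ) *
      (C2 * (4 / δ * Real.log (R / g)) + C2 ^ 2) := ⟨_, rfl⟩
  have hA2 : A = 4 / δ ^ 2 * hw w 2 R := by
    rw [hA, e2, Finset.mul_sum]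
    exact Finset.sum_congr rfl fun g _ => by ring
  have hE2 : E = 4 * C2 / δ * hw w 1 R + C2 ^ 2 * hw w 0 R := by
    rw [hE, e1, e0, Finset.mul_sum, Finset.mul_sum, ← Finset.sum_add_distrib]
    exact Finset.sum_congr rfl fun g _ => by ring
  -- bounds
  have b0 : hw w 0 R ≤ K0 * (1 + L) ^ 2 := by
    have ha := hH0 R hR1.le
    have hb : C0 / Real.sqrt R ≤ C0 := div_le_self hC0.le hsq
    rw [← hLe, abs_le] at ha
    have hc := le_abs_self c0
    have h7 : L ≤ (1 + L) ^ 2 := by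
      have : (1 + L) ^ 2 = L + (1 + L + L * L) := by ring
      linarith [mul_pos hL hL]
    have h8 : (1 : ℝ) ≤ (1 + L) ^ 2 := by
      have : (1 + L) ^ 2 = 1 + (2 * L + L * L) := by ring
      linarith [mul_pos hL hL]
    have h9 := mul_le_mul_of_nonneg_left h7 hδ.le
    have h10 := mul_le_mul_of_nonneg_left h8 (abs_nonneg c0)
    have h11 := mul_le_mul_of_nonneg_left h8 hC0.le
    rw [hK0]
    linarith [ha.2]
  have b1 : hw w 1 R ≤ K1 * (1 + L) ^ 2 := by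
    have ha := hH1 R hR1.le
    have hb : C1 / Real.sqrt R ≤ C1 := div_le_self hC1.le hsq
    rw [← hLe, abs_le] at ha
    have hc := mul_le_mul_of_nonneg_right (le_abs_self c1) hL.le
    have hd := le_abs_self c2
    have h6 : L ^ 2 ≤ (1 + L) ^ 2 := by
      have : (1 + L) ^ 2 = L ^ 2 + (1 + 2 * L) := by ring
      linarith
    have h7 : L ≤ (1 + L) ^ 2 := by
      have : (1 + L) ^ 2 = L + (1 + L + L * L) := by ring
      linarith [mul_pos hL hL]
    have h8 : (1 : ℝ) ≤ (1 + L) ^ 2 := by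
      have : (1 + L) ^ 2 = 1 + (2 * L + L * L) := by ring
      linarith [mul_pos hL hL]
    have h9 := mul_le_mul_of_nonneg_left h6 (show 0 ≤ δ / 2 by positivity)
    have h10 := mul_le_mul_of_nonneg_left h7 (abs_nonneg c1)
    have h11 := mul_le_mul_of_nonneg_left h8 (abs_nonneg c2)
    have h12 := mul_le_mul_of_nonneg_left h8 hC1.le
    rw [hK1]
    linarith [ha.2]
  have b2 : |A - 4 / (3 * δ) * L ^ 3| ≤ 4 / δ ^ 2 * C3 * (1 + L) ^ 2 := by
    have ha := hH2 R hR1.le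
    rw [← hLe] at ha
    have hb : A - 4 / (3 * δ) * L ^ 3 = 4 / δ ^ 2 * (hw w 2 R - δ / 3 * L ^ 3) := by
      rw [hA2]
      field_simp
    rw [hb, abs_mul, abs_of_pos (show 0 < 4 / δ ^ 2 by positivity), mul_assoc]
    exact mul_le_mul_of_nonneg_left ha (by positivity)
  have b3 : E ≤ K2 * (1 + L) ^ 2 := by
    rw [hE2, hK2]
    have ha := mul_le_mul_of_nonneg_left b1 (show 0 ≤ 4 * C2 / δ by positivity)
    have hb := mul_le_mul_of_nonneg_left b0 (sq_nonneg C2)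
    linarith
  have hE0 : 0 ≤ E := by
    rw [hE]
    refine Finset.sum_nonneg fun g hg => ?_
    have := hx g hg
    positivity
  have b2' := abs_le.1 b2
  have hTT : ∀ b c : ℕ, TT w R b c = ∑ g ∈ S, 1 / (g : ℝ) * MM w R (g * b) * MM w R (g * c) := by
    intro b c
    rw [hS]
    rfl
  -- first estimate
  have k1 : ∀ b c : ℕ, L ^ 4 * |TT w R b c| ≤ A + E := by
    intro b c
    have ha : |TT w R b c| ≤ ∑ g ∈ S, 1 / (g : ℝ) *
        ((2 / δ * Real.log (R / g) + C2) / L ^ 2) ^ 2 := by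
      rw [hTT]
      refine (Finset.abs_sum_le_sum_abs _ _).trans (Finset.sum_le_sum fun g hg => ?_)
      obtain ⟨hg1, hgR⟩ := hSm g hg
      have hg0 : (0 : ℝ) < g := by exact_mod_cast hg1
      have m1 := TTb_abs h1 w R C2 δ hR1 hδ hC2 hM g b hg1 hgR
      have m2 := TTb_abs h1 w R C2 δ hR1 hδ hC2 hM g c hg1 hgR
      rw [← hLe] at m1 m2
      rw [abs_mul, abs_mul, abs_of_pos (show 0 < 1 / (g : ℝ) by positivity), mul_assoc, pow_two]
      refine mul_le_mul_of_nonneg_left ?_ (by positivity)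
      exact mul_le_mul m1 m2 (abs_nonneg _) ((abs_nonneg _).trans m1)
    calc L ^ 4 * |TT w R b c| ≤ L ^ 4 * ∑ g ∈ S, 1 / (g : ℝ) *
        ((2 / δ * Real.log (R / g) + C2) / L ^ 2) ^ 2 :=
          mul_le_mul_of_nonneg_left ha (by positivity)
      _ = A + E := by
          rw [hA, hE, Finset.mul_sum, ← Finset.sum_add_distrib]
          refine Finset.sum_congr rfl fun g _ => ?_
          field_simp
          ring
  -- second estimate
  have k2 : |L ^ 4 * TT w R 1 1 - A| ≤ E := by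
    have ha : L ^ 4 * TT w R 1 1 - A = ∑ g ∈ S, 1 / (g : ℝ) *
        (mw w 2 (R / g) ^ 2 - (2 / δ * Real.log (R / g)) ^ 2) := by
      rw [hTT, hA, Finset.mul_sum, ← Finset.sum_sub_distrib]
      refine Finset.sum_congr rfl fun g hg => ?_
      obtain ⟨hg1, hgR⟩ := hSm g hg
      rw [mul_one, h1 w R g hR1, if_pos ⟨hg1, hgR⟩, ← hLe]
      field_simp
    rw [ha, hE]
    refine (Finset.abs_sum_le_sum_abs _ _).trans (Finset.sum_le_sum fun g hg => ?_)
    obtain ⟨hg1, hgR⟩ := hSm g hg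
    have hg0 : (0 : ℝ) < g := by exact_mod_cast hg1
    have hxg := hx g hg
    rw [abs_mul, abs_of_pos (show 0 < 1 / (g : ℝ) by positivity)]
    refine mul_le_mul_of_nonneg_left ?_ (by positivity)
    have m1 := hM (R / g) ((one_le_div hg0).2 hgR)
    have e3 : mw w 2 (R / g) ^ 2 - (2 / δ * Real.log (R / g)) ^ 2 =
        (mw w 2 (R / g) - 2 / δ * Real.log (R / g)) *
        ((mw w 2 (R / g) - 2 / δ * Real.log (R / g)) + 4 / δ * Real.log (R / g)) := by ring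
    rw [e3, abs_mul]
    have m2 : |(mw w 2 (R / g) - 2 / δ * Real.log (R / g)) + 4 / δ * Real.log (R / g)| ≤
        C2 + 4 / δ * Real.log (R / g) := by
      refine (abs_add_le _ _).trans (add_le_add m1 (le_of_eq (abs_of_nonneg ?_)))
      positivity
    calc _ ≤ C2 * (C2 + 4 / δ * Real.log (R / g)) :=
          mul_le_mul m1 m2 (abs_nonneg _) hC2.le
      _ = _ := by ring
  have hfac : δ * L * (3 / 4) * (4 / (3 * δ) * L ^ 3) = L ^ 4 := by
    field_simp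
  have hKX : K * (1 + L) ^ 2 ≤ K * (9 * L ^ 2) := mul_le_mul_of_nonneg_left hX hKp.le
  have hδL : 0 < δ * L * (3 / 4) := by positivity
  have hL4 : 0 < L ^ 4 := by positivity
  rw [← hLe]
  constructor
  · intro b c
    have hk : L ^ 4 * |TT w R b c| ≤ 4 / (3 * δ) * L ^ 3 + K * (9 * L ^ 2) := by
      have := k1 b c
      rw [hK] at hKX ⊢
      linarith [b2'.2]
    rw [abs_mul, abs_of_pos hδL]
    have h6 : L ^ 4 * (δ * L * (3 / 4) * |TT w R b c|) ≤ L ^ 4 * (1 + 27 / 4 * δ * K / L) := by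
      calc L ^ 4 * (δ * L * (3 / 4) * |TT w R b c|)
          = δ * L * (3 / 4) * (L ^ 4 * |TT w R b c|) := by ring
        _ ≤ δ * L * (3 / 4) * (4 / (3 * δ) * L ^ 3 + K * (9 * L ^ 2)) :=
            mul_le_mul_of_nonneg_left hk hδL.le
        _ = L ^ 4 + δ * L * (3 / 4) * (K * (9 * L ^ 2)) := by rw [mul_add, hfac]
        _ = L ^ 4 * (1 + 27 / 4 * δ * K / L) := by
            field_simp
            ring
    exact le_of_mul_le_mul_left h6 hL4
  · have hk : |L ^ 4 * TT w R 1 1 - 4 / (3 * δ) * L ^ 3| ≤ K * (9 * L ^ 2) := by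
      have k2' := abs_le.1 k2
      rw [hK] at hKX ⊢
      rw [abs_le]
      constructor
      · linarith [b2'.1, k2'.1]
      · linarith [b2'.2, k2'.2]
    have h6 : L ^ 4 * |δ * L * (3 / 4) * TT w R 1 1 - 1| ≤ L ^ 4 * (27 / 4 * δ * K / L) := by
      have h7 : L ^ 4 * (δ * L * (3 / 4) * TT w R 1 1 - 1) =
          δ * L * (3 / 4) * (L ^ 4 * TT w R 1 1 - 4 / (3 * δ) * L ^ 3) := by
        rw [mul_sub (δ * L * (3 / 4)), hfac]
        ring
      calc L ^ 4 * |δ * L * (3 / 4) * TT w R 1 1 - 1|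
          = |L ^ 4 * (δ * L * (3 / 4) * TT w R 1 1 - 1)| := by
            rw [abs_mul, abs_of_pos hL4]
        _ = δ * L * (3 / 4) * |L ^ 4 * TT w R 1 1 - 4 / (3 * δ) * L ^ 3| := by
            rw [h7, abs_mul, abs_of_pos hδL]
        _ ≤ δ * L * (3 / 4) * (K * (9 * L ^ 2)) := mul_le_mul_of_nonneg_left hk hδL.le
        _ = L ^ 4 * (27 / 4 * δ * K / L) := by
            field_simp
            ring
    exact le_of_mul_le_mul_left h6 hL4

end Pool.Agent.Lib.MP_9f2731_nt.GP.Sv
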