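import Pool.Agent.Lib.MP_9f2731_nt.GP.Sv.Spec

/-!
MP_9f2731_nt, GP/Sv/The (helper46): the action of the model of the local factors.
-/

open Finset

namespace Pool.Agent.Lib.MP_9f2731_nt.GP.Sv

private theorem theInt {ι : Type} (k : ℤ) (f : Al ι) (Φ : Fn ι) (a : ι → ℕ) :
    act ((k : Al ι) * f) Φ a = (k : ℝ) * act f Φ a := by
  have h : ((k : Al ι) * f) = (k : ℝ) • f := by
    rw [← zsmul_eq_mul, Int.cast_smul_eq_zsmul]
  rw [h, act_smul]

/-- one variable -/
private theorem theOne {ι : Type} [DecidableEq ι] (w : ℕ) (R : ℝ) (i : ι) (ψ : Fn ι)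
    (hψ : ∀ (u : ℕ) (a : ι → ℕ), ψ (e i u * a) = ψ a) :
    act (∏ p ∈ Qs w R, (1 - xx p i)) (fun a => chi R (a i) * ψ a) =
      fun a => MM w R (a i) * ψ a := by
  funext a
  have h2 := sqx (A := Al ι) w R (fun d : ℕ => (1 / (d : ℝ)) • mon (e i d)) (by
      show (1 / ((1 : ℕ) : ℝ)) • mon (e i 1) = 1
      rw [e_one, mon_one, Nat.cast_one, div_one, one_smul]) (by
      intro m n _
      show (1 / ((m * n : ℕ) : ℝ)) • mon (e i (m * n)) = _
      rw [e_mul, mon_mul, smul_mul_smul_comm]
      congr 1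
      push_cast
      rw [one_div_mul_one_div])
  have h3 : ∏ p ∈ Qs w R, (1 - xx p i) =
      ∏ p ∈ Qs w R, (1 - (fun d : ℕ => (1 / (d : ℝ)) • mon (e i d)) p) := rfl
  rw [h3, h2, act_sum]
  unfold MM
  rw [Finset.sum_mul]
  refine Finset.sum_congr rfl fun d _ => ?_
  rw [theInt, act_smul, act_mon, hψ]
  have h4 : (e i d * a) i = d * a i := by
    rw [Pi.mul_apply, e_self]
  rw [h4]
  ring

private theorem theLocX {σ : Type} [DecidableEq σ] (j : σ) (s : Bool) (p : ℕ) :
    Loc {i : σ × Bool | i.1 = j} (1 - xx p (j, s)) := by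
  refine Loc.one.sub (Loc.smul (Loc.mon ?_) _)
  intro i hi
  apply e_ne
  intro h
  apply hi
  show i.1 = j
  rw [h]

private theorem theLocZ {σ : Type} [DecidableEq σ] (j : σ) (K p : ℕ) :
    Loc {i : σ × Bool | i.1 = j} (gg K (zz p j)) := by
  refine Loc.sum _ fun k _ => Loc.pow (Loc.smul (Loc.mon ?_) _) _
  intro i hi
  have h : ∀ s : Bool, i ≠ (j, s) := by
    intro s h
    apply hi
    show i.1 = j
    rw [h]
  rw [Pi.mul_apply, e_ne (h true), e_ne (h false), mul_one]

private theorem theJ (h1 : S_ThZ) (σ : Type) [Fintype σ] [DecidableEq σ] (w K : ℕ) (R : ℝ)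
    (hR : 1 < R) (hK : R < 2 ^ K) (j : σ) (a : σ × Bool → ℕ) :
    act (∏ p ∈ Qs w R, ((1 - xx p (j, true)) * (1 - xx p (j, false)) * gg K (zz p j)))
      (fun b => chi R (b (j, true)) * chi R (b (j, false))) a =
      TT w R (a (j, true)) (a (j, false)) := by
  have ht : ((j, true) : σ × Bool) ≠ (j, false) := by
    intro h
    exact absurd (congrArg Prod.snd h) (by simp)
  have s1 := theOne w R (j, false) (fun b : σ × Bool → ℕ => chi R (b (j, true))) (by
    intro u b
    show chi R ((e (j, false) u * b) (j, true)) = chi R (b (j, true))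
    rw [Pi.mul_apply, e_ne ht, one_mul])
  have s2 := theOne w R (j, true) (fun b : σ × Bool → ℕ => MM w R (b (j, false))) (by
    intro u b
    show MM w R ((e (j, true) u * b) (j, false)) = MM w R (b (j, false))
    rw [Pi.mul_apply, e_ne ht.symm, one_mul])
  rw [Finset.prod_mul_distrib, Finset.prod_mul_distrib, mul_comm, act_mul, act_mul]
  have e1 : (fun b : σ × Bool → ℕ => chi R (b (j, true)) * chi R (b (j, false))) =
      fun b => chi R (b (j, false)) * chi R (b (j, true)) := by
    funext b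
    rw [mul_comm]
  have e2 : (fun b : σ × Bool → ℕ => MM w R (b (j, false)) * chi R (b (j, true))) =
      fun b => chi R (b (j, true)) * MM w R (b (j, false)) := by
    funext b
    rw [mul_comm]
  rw [e1, s1, e2, s2]
  exact h1 σ w K R j hR hK a

/-- **The** -/
theorem pThe (h1 : S_ThZ) : S_The := by
  intro σ _ _ w K R hR hK a
  have s1 : ∏ p ∈ Qs w R, FF (σ := σ) K p = ∏ j : σ, ∏ p ∈ Qs w R,
      ((1 - xx p (j, true)) * (1 - xx p (j, false)) * gg K (zz p j)) := by
    unfold FF
    rw [Finset.prod_comm]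
  have s2 : Ph R (σ × Bool) = fun b => ∏ j : σ, (chi R (b (j, true)) * chi R (b (j, false))) := by
    funext b
    unfold Ph
    rw [Fintype.prod_prod_type]
    refine Finset.prod_congr rfl fun j _ => ?_
    rw [Fintype.prod_bool]
  rw [s1, s2]
  have s3 := block (Finset.univ : Finset σ) (fun j => {i : σ × Bool | i.1 = j}) (by
      intro j _ k _ hjk
      rw [Set.disjoint_left]
      intro i hi hi'
      exact hjk (hi.symm.trans hi'))
    (fun j => ∏ p ∈ Qs w R,
      ((1 - xx p (j, true)) * (1 - xx p (j, false)) * gg K (zz p j)))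
    (fun j b => chi R (b (j, true)) * chi R (b (j, false)))
    (by
      intro j _
      refine Loc.prod _ fun p _ => ?_
      exact ((theLocX j true p).mul (theLocX j false p)).mul (theLocZ j K p))
    (by
      intro j _ b c hbc
      show chi R (b (j, true)) * chi R (b (j, false)) = chi R (c (j, true)) * chi R (c (j, false))
      rw [hbc (j, true) rfl, hbc (j, false) rfl]) a
  rw [s3]
  refine Finset.prod_congr rfl fun j _ => ?_
  exact theJ h1 σ w K R hR hK j a

end Pool.Agent.Lib.MP_9f2731_nt.GP.Sv
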