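import Pool.Agent.Lib.MP_9f2731_nt.GP.Sv.Spec

/-!
MP_9f2731_nt, GP/Sv: the product of the `Lam` as the value of an operator.
-/

open Finset

namespace Pool.Agent.Lib.MP_9f2731_nt.GP.Sv

theorem pUb (h : S_LamP) : S_Ub := by
  intro ι _ _ w R n hR hn
  rw [Finset.prod_comm]
  have hb := block (ι := ι) (κ := ι) univ (fun i => {i}) (fun j _ k _ hjk => by
    rw [Set.disjoint_singleton]
    exact hjk) (fun i => ∏ p ∈ Qs w R, (1 - ind p (n i) • mon (e i p)))
    (fun i a => chi R (a i)) (fun i _ => by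
      refine Loc.prod _ fun p _ => ?_
      refine Loc.sub Loc.one (Loc.smul (Loc.mon fun k hk => ?_) _)
      exact e_ne (fun hki => hk (by rw [Set.mem_singleton_iff]; exact hki)) p)
    (fun i _ a b hab => by
      show chi R (a i) = chi R (b i)
      rw [hab i (Set.mem_singleton i)]) 1
  have e0 : Ph R ι = fun a => ∏ i ∈ univ, chi R (a i) := rfl
  rw [e0, hb]
  refine Finset.prod_congr rfl fun i _ => ?_
  have hsq := sqx (A := Al ι) w R (fun d => ind d (n i) • mon (e i d)) (by
    show ind 1 (n i) • mon (e i 1) = 1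
    rw [e_one, mon_one]
    unfold ind
    rw [if_pos (one_dvd _), one_smul]) (fun k l hkl => by
    show ind (k * l) (n i) • mon (e i (k * l)) = (ind k (n i) • mon (e i k)) * (ind l (n i) • mon (e i l))
    rw [e_mul, mon_mul, smul_mul_smul_comm]
    congr 1
    unfold ind
    by_cases hk : k ∣ n i
    · by_cases hl : l ∣ n i
      · rw [if_pos hk, if_pos hl, if_pos (hkl.mul_dvd_of_dvd_of_dvd hk hl), one_mul]
      · rw [if_neg hl, if_neg (fun h' => hl ((Dvd.intro_left k rfl).trans h')), mul_zero]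
    · rw [if_neg hk, if_neg (fun h' => hk ((Dvd.intro l rfl).trans h')), zero_mul])
  rw [hsq, act_sum, h w R (n i) hR (hn i).1 (hn i).2]
  refine Finset.sum_congr rfl fun d _ => ?_
  have e1 : ((ArithmeticFunction.moebius d : ℤ) : Al ι) * (ind d (n i) • mon (e i d))
      = (((ArithmeticFunction.moebius d : ℤ) : ℝ) * ind d (n i)) • mon (e i d) := by
    rw [mul_smul, ← zsmul_eq_mul, ← Int.cast_smul_eq_zsmul ℝ]
  rw [e1, act_smul, act_mon, mul_one, e_self]

end Pool.Agent.Lib.MP_9f2731_nt.GP.Sv
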