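import Pool.Agent.Lib.MP_9f2731_nt.GP.Sv.Cnt
import Pool.Agent.Lib.MP_9f2731_nt.GP.Sv.Cor
import Pool.Agent.Lib.MP_9f2731_nt.GP.Sv.Crt
import Pool.Agent.Lib.MP_9f2731_nt.GP.Sv.Dl
import Pool.Agent.Lib.MP_9f2731_nt.GP.Sv.Dns
import Pool.Agent.Lib.MP_9f2731_nt.GP.Sv.Exp
import Pool.Agent.Lib.MP_9f2731_nt.GP.Sv.Gg
import Pool.Agent.Lib.MP_9f2731_nt.GP.Sv.H0
import Pool.Agent.Lib.MP_9f2731_nt.GP.Sv.H1
import Pool.Agent.Lib.MP_9f2731_nt.GP.Sv.H2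
import Pool.Agent.Lib.MP_9f2731_nt.GP.Sv.Hw0
import Pool.Agent.Lib.MP_9f2731_nt.GP.Sv.Hw1
import Pool.Agent.Lib.MP_9f2731_nt.GP.Sv.Hw2
import Pool.Agent.Lib.MP_9f2731_nt.GP.Sv.HwE
import Pool.Agent.Lib.MP_9f2731_nt.GP.Sv.Inv
import Pool.Agent.Lib.MP_9f2731_nt.GP.Sv.L1
import Pool.Agent.Lib.MP_9f2731_nt.GP.Sv.LamP
import Pool.Agent.Lib.MP_9f2731_nt.GP.Sv.Lim
import Pool.Agent.Lib.MP_9f2731_nt.GP.Sv.LocA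
import Pool.Agent.Lib.MP_9f2731_nt.GP.Sv.LocB
import Pool.Agent.Lib.MP_9f2731_nt.GP.Sv.LocC
import Pool.Agent.Lib.MP_9f2731_nt.GP.Sv.LocD
import Pool.Agent.Lib.MP_9f2731_nt.GP.Sv.M0
import Pool.Agent.Lib.MP_9f2731_nt.GP.Sv.M1
import Pool.Agent.Lib.MP_9f2731_nt.GP.Sv.M2
import Pool.Agent.Lib.MP_9f2731_nt.GP.Sv.MR
import Pool.Agent.Lib.MP_9f2731_nt.GP.Sv.Mas
import Pool.Agent.Lib.MP_9f2731_nt.GP.Sv.Mob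
import Pool.Agent.Lib.MP_9f2731_nt.GP.Sv.Moi
import Pool.Agent.Lib.MP_9f2731_nt.GP.Sv.One
import Pool.Agent.Lib.MP_9f2731_nt.GP.Sv.Per
import Pool.Agent.Lib.MP_9f2731_nt.GP.Sv.Pex
import Pool.Agent.Lib.MP_9f2731_nt.GP.Sv.Sng
import Pool.Agent.Lib.MP_9f2731_nt.GP.Sv.Sq
import Pool.Agent.Lib.MP_9f2731_nt.GP.Sv.Sum
import Pool.Agent.Lib.MP_9f2731_nt.GP.Sv.TTb
import Pool.Agent.Lib.MP_9f2731_nt.GP.Sv.ThZ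
import Pool.Agent.Lib.MP_9f2731_nt.GP.Sv.The
import Pool.Agent.Lib.MP_9f2731_nt.GP.Sv.Ub

/-!
MP_9f2731_nt, GP/Sv: correlations of the sieve majorant.
-/

namespace Pool.Agent.Lib.MP_9f2731_nt.GP.Sv

theorem svAll : CorStmt := by
  have aExp := pExp (pUb pLamP) pCrt
  have aPer := pPer pLamP pDns
  have aThe := pThe (pThZ pMoi)
  have aLocC := pLocC (pLocA pOne) (pLocB pOne) (pLocD pGg pPex)
  have aSum := pSum aPer aExp pInv aThe aLocC pMas pSng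
  have aHw0 := pHw0 pHwE pDl pH0
  have aHw1 := pHw1 pHwE pDl (pH1 pH0 (pL1 pLim))
  have aHw2 := pHw2 pHwE pDl pH2
  have aM0 := pM0 pMob (pCnt pDl)
  have aM1 := pM1 pMob aHw0 aM0 pSq
  have aM2 := pM2 pMob aHw1 aM0 aM1 pSq
  exact pCor aSum (pTTb pMR aM2 aHw0 aHw1 aHw2)

end Pool.Agent.Lib.MP_9f2731_nt.GP.Sv
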