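import Pool.Agent.Lib.MP_9f2731_nt.GP.Sv.Base2

/-!
MP_9f2731_nt, chapter Sv of THEOREM GP (helper84): the correlation estimate `CorStmt` with `l = 2`.

ELEMENTARY PROOF (no zeta function, no Fourier analysis). Every `S_X` is proved in the file
`GP/Sv/X.lean` as `theorem pX : S_X` (the statements `S_Y` it uses are HYPOTHESES:
`theorem pX (h : S_Y) : S_X`). All tasks are independent.

Overview. `E_b ∏ Lam^2` is `act (∏_p EE p) Ph 1` up to `R^(2n)/X` (Per, Exp). `Ph = act (∏_p DD p) Θ`,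
`Θ = act (∏_p FF p) Ph = ∏_j TT(a_j, a_j')` (Inv, The). `EE p * DD p = 1 + O(1/p^2)`, and `1 + O(1/p)`
if p divides a difference of the multipliers (LocC). So the correlation is `∏_j TT(1,1)` up to
`(e^(C/w) sing - 1) sup |Θ|` (Mas, Sng, Sum). `TT` is computed by elementary estimates of Moebius sums
(M0, M1, M2, TTb).
-/

open Finset

namespace Pool.Agent.Lib.MP_9f2731_nt.GP.Sv

/-! ### Averages over b -/

/-- **LamP** (60 lines) Proof. Both sides are finite sums over divisors. Left side: `d ∣ n`, `d ≤ R`, coefficient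
`μ(d) (1 - log d / log R)^2`; only squarefree `d` count. If `d` is squarefree, `d ∣ n`, `d ≤ R`, then every prime
`p ∣ d` divides `n`, hence does not divide `Wp w` (`n` is prime to it), so `w < p` (`prime_dvd_Wp`), and `p ≤ d ≤ R`, so
`p ∈ Qs w R`; so `d ∣ Pq w R` (`d` is the product of its prime factors, `Nat.prod_primeFactors_of_squarefree`, and
`Finset.prod_dvd_prod_of_subset`). For `d ∣ Pq w R` with `d ∣ n`, `d ≤ R` the terms agree, the other terms on the right side are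
zero (`ind d n = 0` or `chi R d = 0`). -/
def S_LamP : Prop := ∀ (w : ℕ) (R : ℝ) (n : ℕ), 1 < R → 1 ≤ n → n.Coprime (Wp w) →
  Lam 2 R n = ∑ d ∈ (Pq w R).divisors,
    ((ArithmeticFunction.moebius d : ℤ) : ℝ) * ind d n * chi R d

/-- **Dns** (100 lines) Proof. `B(b)`: `∀ i, d i ∣ nf w (m i) b`. `D` = lcm of the `d i` (`Finset.univ.lcm d`), `D ∣ Pq w R`
(`Finset.lcm_dvd`). If no natural number satisfies `B`, both cardinalities are 0. Otherwise let `B(b0)`. Claim: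
`B(b) ↔ b ≡ b0 [MOD D]`. (⇐) `b ≡ b0` modulo `d i`, so `nf w (m i) b ≡ nf w (m i) b0 ≡ 0`. (⇒) `d i` divides the integer
`Wp w * m i * (b - b0)` and is prime to `Wp w * m i` (a common prime is in `Qs w R` by `prime_dvd_Pq`, so `> w`: `not_dvd_Wm`), so
`d i ∣ b - b0` for all `i`, so `D ∣ b - b0`. Now `|#{b ∈ [1, X] : b ≡ b0 (D)} - X/D| ≤ 1` (`Nat.count_modEq_card`,
`Nat.Ioc_filter_modEq_card` or `Int.Ioc_filter_modEq_card`) and `#{b < Pq : b ≡ b0 (D)} = Pq/D` exactly, since `D ∣ Pq`. -/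
def S_Dns : Prop := ∀ (ι : Type) [Fintype ι] (w : ℕ) (R : ℝ) (X : ℕ) (m d : ι → ℕ), 1 ≤ X →
  (∀ i, Sm w (m i)) → (∀ i, d i ∣ Pq w R) →
  |(((Icc 1 X).filter (fun b => ∀ i, d i ∣ nf w (m i) b)).card : ℝ) / X
    - (((range (Pq w R)).filter (fun b => ∀ i, d i ∣ nf w (m i) b)).card : ℝ) / Pq w R| ≤ 1 / X

/-- **Per** (100 lines; uses `S_LamP`, `S_Dns`) Proof. `nf w (m i) b` is prime to `Wp w` (`nf_coprime`). By `S_LamP`
`Lam 2 R (nf w (m i) b) = ∑ d ∈ D0, μ(d) chi R d * ind d (nf w (m i) b)` with `D0` = divisors of `Pq w R` that are at most `R`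
(`chi_zero`). Expand the product (`Finset.prod_univ_sum`): sum over `d ∈ Fintype.piFinset (fun _ => D0)` of
`c(d) * [∀ i, d i ∣ nf w (m i) b]` with `|c(d)| = |∏ i, μ(d i) chi R (d i)| ≤ 1`. Exchange the sums: both averages are
`∑ d, c(d) * density(d)`, and by `S_Dns` the densities differ by at most `1/X`. The number of `d` is at most
`(#D0)^(card ι) ≤ R^(card ι)` (`D0 ⊆ Icc 1 ⌊R⌋₊`). -/
def S_Per : Prop := ∀ (ι : Type) [Fintype ι] [DecidableEq ι] (w : ℕ) (R : ℝ) (X : ℕ) (m : ι → ℕ),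
  1 < R → 1 ≤ X → (∀ i, Sm w (m i)) →
  |(∑ b ∈ Icc 1 X, ∏ i, Lam 2 R (nf w (m i) b)) / X
    - (∑ b ∈ range (Pq w R), ∏ i, Lam 2 R (nf w (m i) b)) / Pq w R| ≤ R ^ (Fintype.card ι) / X

/-- **Crt** (80 lines) Proof. Induction on `Q`. Step: for coprime `M` and `p`, `g` periodic modulo `M`, `h` periodic modulo `p`:
`∑ b ∈ range (p * M), h b * g b = (∑ b ∈ range p, h b) * ∑ b ∈ range M, g b`: the map `b ↦ (b % p, b % M)` is a bijection of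
`range (p * M)` onto `range p ×ˢ range M` (Chinese remainder theorem: injective by `Nat.modEq_and_modEq_iff_modEq_mul`, and equal
cardinalities, or `Nat.chineseRemainder` for surjectivity), and `h b = h (b % p)`, `g b = g (b % M)`
(`Function.Periodic.map_mod_nat`). The product of the `f q`, `q ∈ Q`, is periodic modulo `∏ q ∈ Q, q`. -/
def S_Crt : Prop := ∀ (A : Type) [CommRing A] (Q : Finset ℕ) (f : ℕ → ℕ → A), (∀ p ∈ Q, p.Prime) →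
  (∀ p ∈ Q, ∀ b, f p (b + p) = f p b) →
  ∑ b ∈ range (∏ p ∈ Q, p), ∏ p ∈ Q, f p b = ∏ p ∈ Q, ∑ b ∈ range p, f p b

/-- **Ub** (80 lines; uses `S_LamP`) Proof. Exchange the two products (`Finset.prod_comm`). `block` with `I i = {i}`,
`f i = ∏ p ∈ Qs w R, (1 - ind p (n i) • mon (e i p))` (`Loc` by `Loc.prod`, `Loc.sub`, `Loc.smul`, `Loc.mon`, `e_ne`),
`φ i a = chi R (a i)`. By `sqx` with `F d = ind d (n i) • mon (e i d)` (multiplicative on coprime numbers: `e_mul`, `mon_mul`,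
`Nat.Coprime.mul_dvd_of_dvd_of_dvd`) `f i = ∑ d ∈ divisors, μ(d) * F d`; so
`act (f i) (φ i) 1 = ∑ d, μ(d) ind d (n i) chi R d = Lam 2 R (n i)` (`S_LamP`; `(e i d * 1) i = d`). -/
def S_Ub : Prop := ∀ (ι : Type) [Fintype ι] [DecidableEq ι] (w : ℕ) (R : ℝ) (n : ι → ℕ), 1 < R →
  (∀ i, 1 ≤ n i ∧ (n i).Coprime (Wp w)) →
  act (∏ p ∈ Qs w R, ∏ i, (1 - ind p (n i) • mon (e i p))) (Ph R ι) 1 = ∏ i, Lam 2 R (n i)

/-- **Exp** (60 lines; uses `S_Ub`, `S_Crt`) Proof. Let `f p b = ∏ i, (1 - ind p (nf w (m i) b) • mon (e i p))`, periodic in `b`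
modulo `p` (`nf w m (b + p) = nf w m b + p * (Wp w * m)`). By `S_Ub` and `act_sum` the sum on the left side is
`act (∑ b ∈ range (Pq w R), ∏ p ∈ Qs w R, f p b) (Ph R ι) 1`, by `S_Crt` this is `act (∏ p, ∑ b ∈ range p, f p b) (Ph R ι) 1`, and
`∏ p, (1/p) • (..) = (1/Pq) • ∏ p, (..)` (`Finset.prod_smul`). -/
def S_Exp : Prop := ∀ (ι : Type) [Fintype ι] [DecidableEq ι] (w : ℕ) (R : ℝ) (m : ι → ℕ), 1 < R →
  (∑ b ∈ range (Pq w R), ∏ i, Lam 2 R (nf w (m i) b)) / Pq w R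
    = act (∏ p ∈ Qs w R, EE w m p) (Ph R ι) 1

/-! ### Local factors -/

/-- **One** (40 lines) Proof. `p` does not divide `Wp w * m` (`not_dvd_Wm`), so the linear equation
`Wp w * m * b + 1 = 0` in the field `ZMod p` has exactly one solution. -/
def S_One : Prop := ∀ w m p : ℕ, p.Prime → w < p → Sm w m →
  ∃ b0 < p, ∀ b < p, (p ∣ nf w m b ↔ b = b0)

/-- **LocA** (100 lines; uses `S_One`) Proof. For `b < p`: `∏ i : σ × Bool = ∏ j, ∏ s` (`Fintype.prod_prod_type`), and the product over `s`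
is `1 + ind p (nf w (m j) b) • vv p j` (`ind` is 0 or 1). At most one `j` has `p ∣ nf w (m j) b`: if `p` divides both numbers
for `j ≠ k`, it divides their difference `Wp w * b * |m j - m k|`; it does not divide `Wp w` (`w < p`), nor `b` (otherwise it divides
`1`), so it divides `Nat.dist (m j) (m k)`: contradiction. So `∏ j (..) = 1 + ∑ j, ind p (nf w (m j) b) • vv p j`. Sum over
`b < p`: `p + ∑ j, vv p j` by `S_One`. Multiply by `1/p`. -/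
def S_LocA : Prop := ∀ (σ : Type) [Fintype σ] [DecidableEq σ] (w p : ℕ) (m : σ → ℕ), p.Prime → w < p →
  (∀ j, Sm w (m j)) → (∀ j k, j ≠ k → ¬ p ∣ Nat.dist (m j) (m k)) →
  EE w (fun i : σ × Bool => m i.1) p = 1 + (1 / (p : ℝ)) • ∑ j, vv p j

/-- **LocB** (60 lines; uses `S_One`) Proof. `EE - 1 = (1/p) • ∑ b ∈ range p, (∏ i (..) - 1)`. Each factor of the product is `1 - 0` or
`1 - mon`, of norm at most 2 (`Nm`), so the term has norm at most `2^(2 n) + 1 = 4^n + 1`. It is zero unless `p ∣ nf w (m j) b` for some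
`j`: at most `n` values of `b` (`S_One`). -/
def S_LocB : Prop := ∀ (σ : Type) [Fintype σ] [DecidableEq σ] (w p : ℕ) (m : σ → ℕ), p.Prime → w < p →
  (∀ j, Sm w (m j)) → Nm (EE w (fun i : σ × Bool => m i.1) p - 1)
    ((Fintype.card σ : ℝ) * (4 ^ Fintype.card σ + 1) / p)

/-- **Gg** (40 lines) Proof. `gg K x - 1 - x = ∑ k ∈ Ico 2 K, x^k`, of norm at most `∑ k ∈ Ico 2 K, p^(-k) ≤ p^(-2)/(1 - 1/p) ≤ 2/p^2`. -/
def S_Gg : Prop := ∀ (ι : Type) (K : ℕ) (p : ℝ) (x : Al ι), 2 ≤ K → 2 ≤ p → Nm x (1 / p) →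
  Nm (gg K x - 1 - x) (2 / p ^ 2)

/-- **Pex** (80 lines) Proof. Induction on `s` with constants `C' n` depending on the number of elements:
`(1 + u + r)(1 + Σ + ρ) - 1 - u - Σ = r + ρ + u Σ + u ρ + r Σ + r ρ` with `Nm u (C/p)`, `Nm r (C/p^2)`, `Nm Σ (n C/p)`,
`Nm ρ (C' n / p^2)`, `p ≥ 1`. (Choose `C'` increasing in `n`, or do the induction for all `s` of cardinality at most `n`.) -/
def S_Pex : Prop := ∀ (n : ℕ) (C : ℝ), 0 ≤ C → ∃ C' : ℝ, 0 ≤ C' ∧ ∀ (ι κ : Type) (s : Finset κ)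
  (u r : κ → Al ι) (p : ℝ), s.card ≤ n → 1 ≤ p → (∀ j ∈ s, Nm (u j) (C / p)) →
  (∀ j ∈ s, Nm (r j) (C / p ^ 2)) →
  Nm (∏ j ∈ s, (1 + u j + r j) - 1 - ∑ j ∈ s, u j) (C' / p ^ 2)

/-- **LocD** (80 lines; uses `S_Gg`, `S_Pex`) Proof. The `j`-th factor of `DD K p` is `(1 - z)(1 + x + ρ)(1 + x' + ρ')` with `Nm z (1/p)`,
`Nm x (1/p)`, `Nm ρ (2/p^2)` (`S_Gg`; `Nm.smul`, `Nm.mon`), that is `1 + u + r`, `u = x + x' - z` (norm at most `3/p`), `r` = the rest, a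
sum of products of norm at most `30/p^2`. And `u = -(1/p) • vv p j` (`mon_mul`). `S_Pex`. -/
def S_LocD : Prop := ∀ n : ℕ, ∃ C : ℝ, 0 ≤ C ∧ ∀ (σ : Type) [Fintype σ] [DecidableEq σ] (K p : ℕ),
  Fintype.card σ ≤ n → 2 ≤ K → 2 ≤ p →
  Nm (DD (σ := σ) K p - 1 + (1 / (p : ℝ)) • ∑ j : σ, vv p j) (C / (p : ℝ) ^ 2)

/-- **LocC** (90 lines; uses `S_LocA`, `S_LocB`, `S_LocD`) Proof. Let `s = (1/p) • ∑ j, vv p j`, `Nm s (3 n / p)`. By `S_LocD`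
`DD = 1 - s + ρ`, `Nm ρ (C/p^2)`, so `Nm (DD - 1) (C'/p)`. First claim: `EE = 1 + ε`, `Nm ε (C''/p)` (`S_LocB`),
`EE * DD - 1 = ε + (DD - 1) + ε (DD - 1)`. Second claim: `EE = 1 + s` (`S_LocA`),
`(1 + s)(1 - s + ρ) - 1 = ρ - s^2 + s ρ`. -/
def S_LocC : Prop := ∀ n : ℕ, ∃ C : ℝ, 0 < C ∧ ∀ (σ : Type) [Fintype σ] [DecidableEq σ] (w K p : ℕ)
  (m : σ → ℕ), Fintype.card σ ≤ n → 2 ≤ K → p.Prime → w < p → (∀ j, Sm w (m j)) →
  Nm (EE w (fun i : σ × Bool => m i.1) p * DD K p - 1) (C / p) ∧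
  ((∀ j k, j ≠ k → ¬ p ∣ Nat.dist (m j) (m k)) →
    Nm (EE w (fun i : σ × Bool => m i.1) p * DD K p - 1) (C / (p : ℝ) ^ 2))

/-- **Mas** (40 lines) Proof. Induction on `s`: `H_q * ∏ H - 1 = (H_q - 1) * ∏ H + (∏ H - 1)`, with `Nm (∏ H) (∏ (1 + ε))`
(`Nm.prod`, `H_p = (H_p - 1) + 1`). -/
def S_Mas : Prop := ∀ (ι : Type) (s : Finset ℕ) (H : ℕ → Al ι) (ε : ℕ → ℝ),
  (∀ p ∈ s, Nm (H p - 1) (ε p)) → Nm (∏ p ∈ s, H p - 1) (∏ p ∈ s, (1 + ε p) - 1)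

/-- **Sng** (90 lines) Proof. For `p ∈ Qs w R`: `1 + ε p ≤ (1 + C/p^2) * (if p ∣ Δ then 1 + C/p else 1)`. The product of the first factors is at
most `exp (C ∑ 1/p^2) ≤ exp (C/w)` as `∑ n ∈ Ioc w N, 1/n^2 ≤ 1/w` (`1/n^2 ≤ 1/(n-1) - 1/n`; `sum_Ioc_inv_sq_le_sub`); the product of the
second factors is a product of `1 + C/p` over a subset of `Δ.primeFactors.filter (w < ·)`, so at most `sing C w Δ` (factors at
least 1: `Finset.prod_le_prod_of_subset_of_one_le'` or by `Finset.prod_subset` and splitting). -/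
def S_Sng : Prop := ∀ (C : ℝ) (w : ℕ) (R : ℝ) (Δ : ℕ) (ε : ℕ → ℝ), 0 < C → 1 ≤ w → Δ ≠ 0 →
  (∀ p ∈ Qs w R, 0 ≤ ε p ∧ ε p ≤ C / p ∧ (¬ p ∣ Δ → ε p ≤ C / (p : ℝ) ^ 2)) →
  ∏ p ∈ Qs w R, (1 + ε p) ≤ Real.exp (C / w) * sing C w Δ

/-! ### Inversion -/

/-- **Inv** (120 lines) Proof. `(1 - x) * gg K x = 1 - x^K` (`mul_neg_geom_sum`), so `DD K p * FF K p` is the product over `j` of
`(1 - zz^K)(1 - xx^K)(1 - xx'^K)` (`Finset.prod_mul_distrib`, `ring`). Let `Sp Φ`: `Φ a = 0` whenever `a i = 0` or `R < a i` for some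
`i`. `Ph R _` satisfies `Sp` (`chi_zero`). If `Sp Φ` and `R < m i` for some `i` then `act (mon m) Φ = 0` (either `(m * a) i = 0` or
`(m * a) i ≥ m i > R`). `xx p i ^ K = (1/p^K) • mon (e i (p^K))` with `p^K ≥ 2^K > R` (`smul_pow`, `mon_pow`, `e_pow`), and
`zz p j ^ K = (1/p^K) • mon (e (j,true) (p^K) * e (j,false) (p^K))`. So every factor `1 - x^K` acts as the identity on every `Φ`
with `Sp Φ`, and so does every product of such factors. -/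
def S_Inv : Prop := ∀ (σ : Type) [Fintype σ] [DecidableEq σ] (w K : ℕ) (R : ℝ), R < 2 ^ K →
  act (∏ p ∈ Qs w R, (DD (σ := σ) K p * FF K p)) (Ph R (σ × Bool)) = Ph R (σ × Bool)

/-- **Moi** (120 lines) Proof. `MM w R n = 0` for `n = 0` or `n > R` (all `chi R (u * n)` vanish). If `b = 0` or `c = 0` both sides are 0. Let
`b, c ≥ 1`, `G(n) = 1/n * MM w R (n b) * MM w R (n c)`, zero for `n > R`. The left side is
`∑ h ∣ Pq, ∑ g ≤ R, (g, Wp w) = 1, μ(h) G(h g)`. Group by `n = h g` (terms with `n > R` are zero): for `n ≤ R` the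
coefficient of `G(n)` is the sum of `μ(h)` over `h ∣ n`, `h ∣ Pq`, `(n/h, Wp w) = 1`. `h ∣ Pq` is prime to `Wp w` (its primes are
`> w`), so `n` must be prime to `Wp w`, and then every squarefree divisor `h` of `n` divides `Pq w R` (its primes are in
`Qs w R` as `n ≤ R`): the coefficient is `∑ h ∣ n, μ(h) = [n = 1]` (`ArithmeticFunction.sum_eq_iff_..` or
`ArithmeticFunction.coe_moebius_mul_coe_zeta`). So the left side is `G(1)`. (`R ≥ 1` gives `1 ≤ R`.) -/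
def S_Moi : Prop := ∀ (w : ℕ) (R : ℝ) (b c : ℕ), 1 < R →
  ∑ h ∈ (Pq w R).divisors, ((ArithmeticFunction.moebius h : ℤ) : ℝ) / h * TT w R (h * b) (h * c)
    = MM w R b * MM w R c

/-- **ThZ** (100 lines; uses `S_Moi`) Proof. Let `Ψ a = MM (a (j,true)) * MM (a (j,false))`, `Y a = TT (a (j,true)) (a (j,false))`.
(1) `act (∏ p ∈ Qs w R, (1 - zz p j)) Y = Ψ`: by `sqx` with `F d = (1/d) • mon (e (j,true) d * e (j,false) d)` (for `d = p` this is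
`zz p j`), `act_sum`, `act_smul`, `act_mon` and `S_Moi`. (2) `(1 - z) * gg K z = 1 - z^K`, and
`zz p j ^ K = (1/p^K) • mon (e (j,true) (p^K) * e (j,false) (p^K))`, `p^K > R`, acts as zero on every `Φ` with
`Φ a = 0` whenever `a (j,true) = 0` or `R < a (j,true)`; `Y` is such a function (`MM w R n = 0` for `n = 0` or `n > R`), so
`∏ p (1 - zz^K)` acts as the identity on `Y` (the property is preserved). So
`act (∏ gg) Ψ = act (∏ gg) (act (∏ (1 - zz)) Y) = act (∏ (1 - zz^K)) Y = Y`. -/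
def S_ThZ : Prop := ∀ (σ : Type) [Fintype σ] [DecidableEq σ] (w K : ℕ) (R : ℝ) (j : σ), 1 < R →
  R < 2 ^ K → ∀ a : σ × Bool → ℕ,
  act (∏ p ∈ Qs w R, gg K (zz p j))
    (fun b => MM w R (b (j, true)) * MM w R (b (j, false))) a = TT w R (a (j, true)) (a (j, false))

/-- **The** (110 lines; uses `S_ThZ`) Proof. Exchange the products: `∏ p FF K p = ∏ j G j`,
`G j = ∏ p (1 - xx p (j,true)) * ∏ p (1 - xx p (j,false)) * ∏ p gg K (zz p j)`, local on `{(j,true), (j,false)}`;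
`Ph R a = ∏ j φ j a`, `φ j a = chi R (a (j,true)) * chi R (a (j,false))` (`Fintype.prod_prod_type`). `block`. For one `j`:
`∏ p (1 - xx p i) = ∑ u ∣ Pq, μ(u) (1/u) • mon (e i u)` (`sqx`), so
`act (∏ p (1 - xx p i)) (fun a => chi R (a i) * ψ a) a = MM w R (a i) * ψ a` if `ψ` does not depend on `a i`. Apply this for
`i = (j,false)` and `i = (j,true)` (`act_mul`, `mul_comm`), then `S_ThZ`. -/
def S_The : Prop := ∀ (σ : Type) [Fintype σ] [DecidableEq σ] (w K : ℕ) (R : ℝ), 1 < R →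
  R < 2 ^ K → ∀ a : σ × Bool → ℕ,
  act (∏ p ∈ Qs w R, FF K p) (Ph R (σ × Bool)) a = ∏ j : σ, TT w R (a (j, true)) (a (j, false))

/-! ### Elementary sums -/

/-- **Lim** (50 lines) Proof. `∑ k ≥ n, 1/(k √k) ≤ 4/√n`: `1/(k √k) ≤ 4 (1/√k - 1/√(k+1))` for `k ≥ 1`
(`1/√k - 1/√(k+1) = 1/(√k √(k+1) (√k + √(k+1)))` and `√(k+1) ≤ √2 √k`, `(√2)(1 + √2) ≤ 4`). So
`a n + 4 C/√n` is antitone and `a n - 4 C/√n` is monotone for `n ≥ 1`, both bounded, with the same limit `c`. -/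
def S_Lim : Prop := ∀ (a : ℕ → ℝ) (C : ℝ), 0 ≤ C →
  (∀ n : ℕ, 1 ≤ n → |a (n + 1) - a n| ≤ C / ((n : ℝ) * Real.sqrt n)) →
  ∃ c : ℝ, ∀ n : ℕ, 1 ≤ n → |a n - c| ≤ 4 * C / Real.sqrt n

/-- **L1** (60 lines; uses `S_Lim`) Proof. `a N = ∑ n ≤ N, log n / n - (1/2) log^2 N`, `t = log (n+1) - log n`, `1/(n+1) ≤ t ≤ 1/n`:
`a (n+1) - a n = log (n+1)/(n+1) - t log (n+1) + t^2/2`, at most `(log (n+1) + 1)/n^2` in absolute value, and
`log (n+1) ≤ 2 √(n+1)`, so at most `5/(n √n)`. -/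
def S_L1 : Prop := ∃ c C : ℝ, 0 < C ∧ ∀ N : ℕ, 1 ≤ N →
  |∑ n ∈ Icc 1 N, Real.log n / n - (1 / 2) * Real.log N ^ 2 - c| ≤ C / Real.sqrt N

/-- **H0** (50 lines) Proof. `hs 0 y = harmonic ⌊y⌋₊`. `Real.eulerMascheroniSeq_lt_eulerMascheroniConstant`,
`Real.eulerMascheroniConstant_lt_eulerMascheroniSeq'`: with `N = ⌊y⌋₊ ≥ 1`: `log N + γ < H_N < log (N+1) + γ`, and
`N ≤ y < N + 1`; `log (N+1) - log N ≤ 1/N ≤ 2/y`. -/
def S_H0 : Prop := ∀ y : ℝ, 1 ≤ y →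
  |hs 0 y - Real.log y - Real.eulerMascheroniConstant| ≤ 2 / y

/-- **H1** (100 lines; uses `S_H0`, `S_L1`) Proof. `N = ⌊y⌋₊`: `hs 1 y = log y * H_N - L_N`, `L_N = ∑ log n / n`. By `S_H0`
`H_N = log y + γ + O(1/y)` (it is `hs 0 y`), by `S_L1` `L_N = (1/2) log^2 N + c + O(1/√N)`, and
`|log^2 N - log^2 y| ≤ 2 log y (log y - log N) ≤ 2 log y / N`. So `hs 1 y = (1/2) log^2 y + γ log y - c + O(log y / y + 1/√y)`, and
`log y ≤ 2 √y`. -/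
def S_H1 : Prop := ∃ c C : ℝ, 0 < C ∧ ∀ y : ℝ, 1 ≤ y →
  |hs 1 y - (1 / 2) * Real.log y ^ 2 - Real.eulerMascheroniConstant * Real.log y - c|
    ≤ C / Real.sqrt y

/-- **H2** (70 lines) Proof. `N = ⌊y⌋₊`, `u_n = log (y/n) ≥ 0` for `n ≤ N`, `t_n = u_n - u_(n+1) = log ((n+1)/n) ∈ [1/(n+1), 1/n]`. For `n < N`
`(u_n^3 - u_(n+1)^3)/3 = t_n (u_n^2 + u_n u_(n+1) + u_(n+1)^2)/3 ∈ [t_n u_(n+1)^2, t_n u_n^2]`, so
`u_(n+1)^2/(n+1) ≤ (u_n^3 - u_(n+1)^3)/3 ≤ u_n^2/n`. Sum over `1 ≤ n < N`: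
`hs 2 y - u_1^2 ≤ (u_1^3 - u_N^3)/3 ≤ hs 2 y`, `u_1 = log y`, `0 ≤ u_N ≤ log 2 ≤ 1`. -/
def S_H2 : Prop := ∀ y : ℝ, 1 ≤ y → |hs 2 y - (1 / 3) * Real.log y ^ 3| ≤ Real.log y ^ 2 + 1

/-- **HwE** (80 lines) Proof. `∑ d ∣ (n, Wp w), μ(d) = [n prime to Wp w]`. So `hw w k y = ∑ n ≤ y, ∑ d ∣ n, d ∣ Wp w, μ(d) (1/n) log(y/n)^k`,
and for fixed `d` put `n = d n'`, `n' ≤ y/d` (`⌊y/d⌋₊ = ⌊y⌋₊ / d`, `Nat.floor_div_natCast`): `(μ(d)/d) hs k (y/d)`. -/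
def S_HwE : Prop := ∀ (w k : ℕ) (y : ℝ), 0 < y →
  hw w k y = ∑ d ∈ (Wp w).divisors, ((ArithmeticFunction.moebius d : ℤ) : ℝ) / d * hs k (y / d)

/-- **Dl** (40 lines) Proof. `Wp w` is squarefree; `ArithmeticFunction.IsMultiplicative.prodPrimeFactors_one_sub_of_squarefree`
(for the function `1/d`) and `Nat.totient_eq_mul_prod_factors`. -/
def S_Dl : Prop := ∀ w : ℕ,
  ∑ d ∈ (Wp w).divisors, ((ArithmeticFunction.moebius d : ℤ) : ℝ) / d = dl w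

/-- **Hw0** (90 lines; uses `S_HwE`, `S_Dl`, `S_H0`) Proof. `S_HwE`. For `d ≤ y`: `hs 0 (y/d) = log y - log d + γ + O(2 d/y)`. For `d > y`:
`hs 0 (y/d) = 0` and `|log y - log d + γ| ≤ C_w`, while `1/√y ≥ 1/√(Wp w)`. Sum: `dl w * log y + c + O(C_w/√y)`,
`c = ∑ d, μ(d)/d (γ - log d)`. -/
def S_Hw0 : Prop := ∀ w : ℕ, ∃ c C : ℝ, 0 < C ∧ ∀ y : ℝ, 1 ≤ y →
  |hw w 0 y - dl w * Real.log y - c| ≤ C / Real.sqrt y

/-- **Hw1** (110 lines; uses `S_HwE`, `S_Dl`, `S_H1`) Proof. As Hw0: for `d ≤ y`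
`hs 1 (y/d) = (1/2)(log y - log d)^2 + γ (log y - log d) + c + O(C √d/√y)`, for `d > y` it is zero and the main term is bounded by `C_w`.
Expand: `(1/2) log^2 y` has the coefficient `dl w`, the terms with `log y` and the constant terms give `c1`, `c2`. -/
def S_Hw1 : Prop := ∀ w : ℕ, ∃ c1 c2 C : ℝ, 0 < C ∧ ∀ y : ℝ, 1 ≤ y →
  |hw w 1 y - dl w / 2 * Real.log y ^ 2 - c1 * Real.log y - c2| ≤ C / Real.sqrt y

/-- **Hw2** (90 lines; uses `S_HwE`, `S_Dl`, `S_H2`) Proof. As Hw0: for `d ≤ y` `hs 2 (y/d) = (1/3)(log y - log d)^3 + O((1 + log y)^2)`, and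
`|(log y - log d)^3 - log^3 y| ≤ C_w (1 + log y)^2`; for `d > y` it is zero and `(1/3) log^3 y ≤ C_w`. -/
def S_Hw2 : Prop := ∀ w : ℕ, ∃ C : ℝ, 0 < C ∧ ∀ y : ℝ, 1 ≤ y →
  |hw w 2 y - dl w / 3 * Real.log y ^ 3| ≤ C * (1 + Real.log y) ^ 2

/-- **Cnt** (60 lines; uses `S_Dl`) Proof. As HwE: the number is `∑ d ∣ Wp w, μ(d) ⌊y/d⌋₊`, and `|⌊y/d⌋₊ - y/d| ≤ 1`: so it is
`y * dl w` up to the number of divisors of `Wp w`. (Or by periodicity: `Nat.filter_coprime_Ico_eq_totient`.) -/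
def S_Cnt : Prop := ∀ w : ℕ, ∃ C : ℝ, 0 < C ∧ ∀ y : ℝ, 0 ≤ y →
  |((((Icc 1 ⌊y⌋₊).filter (fun n => n.Coprime (Wp w))).card : ℕ) : ℝ) - dl w * y| ≤ C

/-- **Mob** (80 lines) Proof. The pairs `(u, n)` with `u ≤ y`, `n ≤ y/u`, both prime to `Wp w`, correspond to the pairs `(k, u)`, `k = u n ≤ y`
prime to `Wp w`, `u ∣ k`; the inner sum is `∑ u ∣ k, μ(u) = [k = 1]`. (`⌊y/u⌋₊ = ⌊y⌋₊ / u`; `Finset.sum_sigma'`, `Finset.sum_nbij'`, or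
`Nat.divisors` and `Finset.sum_comm'`.) -/
def S_Mob : Prop := ∀ (w : ℕ) (G : ℕ → ℝ) (y : ℝ), 1 ≤ y →
  ∑ u ∈ (Icc 1 ⌊y⌋₊).filter (fun n => n.Coprime (Wp w)),
    ((ArithmeticFunction.moebius u : ℤ) : ℝ) *
      ∑ n ∈ (Icc 1 ⌊y / u⌋₊).filter (fun n => n.Coprime (Wp w)), G (u * n) = G 1

/-- **M0** (50 lines; uses `S_Mob`, `S_Cnt`) Proof. `S_Mob` with `G = 1`: `∑ μ(u) A(y/u) = 1`, `A(t) = dl w * t + O(C)` (`S_Cnt`). So
`|dl w * y * mw w 0 y - 1| ≤ C y` (at most `y` terms), `dl w > 0` (`dl_pos`). -/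
def S_M0 : Prop := ∀ w : ℕ, ∃ C : ℝ, 0 < C ∧ ∀ y : ℝ, 1 ≤ y → |mw w 0 y| ≤ C

/-- **Sq** (30 lines) Proof. `1/√n ≤ 2(√n - √(n-1))`, telescoping. -/
def S_Sq : Prop := ∀ N : ℕ, ∑ n ∈ Icc 1 N, 1 / Real.sqrt n ≤ 2 * Real.sqrt N

/-- **M1** (80 lines; uses `S_Mob`, `S_Hw0`, `S_M0`, `S_Sq`) Proof. `S_Mob` with `G(k) = 1/k`: `∑ u (μ(u)/u) hw w 0 (y/u) = 1`. Insert `S_Hw0`
(`y/u ≥ 1`): `dl w * mw w 1 y + c * mw w 0 y + E = 1`, `|E| ≤ ∑ u ≤ y, (1/u) C √u/√y ≤ 2 C` (`S_Sq`). -/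
def S_M1 : Prop := ∀ w : ℕ, ∃ C : ℝ, 0 < C ∧ ∀ y : ℝ, 1 ≤ y → |mw w 1 y| ≤ C

/-- **M2** (90 lines; uses `S_Mob`, `S_Hw1`, `S_M0`, `S_M1`, `S_Sq`) Proof. `S_Mob` with `G(k) = (1/k) log (y/k)`: `∑ u (μ(u)/u) hw w 1 (y/u) = log y`.
Insert `S_Hw1`: `(dl w/2) mw w 2 y + c1 mw w 1 y + c2 mw w 0 y + E = log y`, `|E| ≤ 2 C`. -/
def S_M2 : Prop := ∀ w : ℕ, ∃ C : ℝ, 0 < C ∧ ∀ y : ℝ, 1 ≤ y →
  |mw w 2 y - 2 / dl w * Real.log y| ≤ C

/-- **MR** (70 lines) Proof. For `b = 0` or `b > R` all `chi R (u * b)` vanish. For `1 ≤ b ≤ R`: the terms with `u b > R` vanish; for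
`u b ≤ R`: `chi R (u b) = ((log R - log (u b))/log R)^2 = log ((R/b)/u)^2 / log^2 R`. The squarefree `u ≤ R/b` prime to `Wp w` are exactly
the divisors `u` of `Pq w R` with `u ≤ R/b` (the prime factors are `> w` and `≤ R`); the others have `μ(u) = 0`. -/
def S_MR : Prop := ∀ (w : ℕ) (R : ℝ) (b : ℕ), 1 < R →
  MM w R b = if 1 ≤ b ∧ (b : ℝ) ≤ R then mw w 2 (R / b) / Real.log R ^ 2 else 0

/-- **TTb** (150 lines; uses `S_MR`, `S_M2`, `S_Hw0`, `S_Hw1`, `S_Hw2`) Proof. Let `L = log R`, `δ = dl w`. For `g ≤ R`, `b ≥ 1` and `g b ≤ R`: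
`|MM w R (g b)| = |mw w 2 (R/(g b))|/L^2 ≤ ((2/δ) log (R/(g b)) + C)/L^2 ≤ ((2/δ) log (R/g) + C)/L^2`, and it is 0 in all other cases. So
`|TT w R b c| ≤ L^(-4) ∑ g (1/g)((2/δ) log (R/g) + C)^2 = L^(-4) ((4/δ^2) hw w 2 R + (4 C/δ) hw w 1 R + C^2 hw w 0 R)`
`≤ L^(-4) ((4/(3 δ)) L^3 + C' (1 + L)^2)` (`S_Hw2`, `S_Hw1`, `S_Hw0`), and `1 + L ≤ 3 L` for `R ≥ 2`. Multiply by `δ L (3/4)`: at most
`1 + C''/L`. For `b = c = 1`: `|mw w 2 (R/g)^2 - ((2/δ) log (R/g))^2| ≤ C (2 (2/δ) log (R/g) + C)`, so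
`TT w R 1 1 = L^(-4) (4/δ^2) hw w 2 R + O(L^(-4) (1 + L)^2)` and the second claim follows in the same way. -/
def S_TTb : Prop := ∀ w : ℕ, ∃ C : ℝ, 0 < C ∧ ∀ R : ℝ, 2 ≤ R →
  (∀ b c : ℕ, |dl w * Real.log R * (3 / 4) * TT w R b c| ≤ 1 + C / Real.log R) ∧
  |dl w * Real.log R * (3 / 4) * TT w R 1 1 - 1| ≤ C / Real.log R

/-! ### Assembly -/

/-- **Sum** (120 lines; uses `S_Per`, `S_Exp`, `S_Inv`, `S_The`, `S_LocC`, `S_Mas`, `S_Sng`) Proof. Choose `K ≥ 2` with `R < 2^K`. `n = card σ`, `ι = σ × Bool`,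
`card ι = 2 n`. By `S_Per` and `S_Exp` the average is `act (∏ EE) Ph 1` up to `R^(2 n)/X`. Let `Θ = act (∏ FF) Ph`; by `S_The`
`Θ a = ∏ j TT(..)`, so `|Θ a| ≤ T^n`, `Θ 1 = (TT w R 1 1)^n`. By `S_Inv` `Ph = act (∏ (DD * FF)) Ph = act (∏ DD) Θ` (`Finset.prod_mul_distrib`,
`act_mul`). So `act (∏ EE) Ph 1 = act (∏ (EE * DD)) Θ 1 = Θ 1 + act (∏ (EE * DD) - 1) Θ 1`. By `S_LocC`, `S_Mas`, `S_Sng`
(`ε p = C/p^2` if `p` does not divide `Δ`, else `C/p`; if `p` does not divide `Δ` it does not divide any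
`Nat.dist (m j) (m k)`, `j ≠ k`) the last term is at most `(e^(C/w) sing - 1) T^n` in absolute value. -/
def S_Sum : Prop := ∀ n : ℕ, ∃ C : ℝ, 0 < C ∧ ∀ (σ : Type) [Fintype σ] [DecidableEq σ] (w : ℕ)
  (R T : ℝ) (X Δ : ℕ) (m : σ → ℕ), Fintype.card σ ≤ n → 1 ≤ w → 1 < R → 1 ≤ X → Δ ≠ 0 →
  (∀ j, Sm w (m j)) → (∀ j k, j ≠ k → Nat.dist (m j) (m k) ∣ Δ) →
  (∀ b c : ℕ, |TT w R b c| ≤ T) →
  |(∑ b ∈ Icc 1 X, ∏ j : σ, Lam 2 R (nf w (m j) b) ^ 2) / X - TT w R 1 1 ^ Fintype.card σ|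
    ≤ R ^ (2 * Fintype.card σ) / X + T ^ Fintype.card σ * (Real.exp (C / w) * sing C w Δ - 1)

/-- **Cor** (180 lines; uses `S_Sum`, `S_TTb`) Proof. Given `J`: `l = 2`, `κ = 1/(4 (J+1))`, `C1` from `S_Sum` for `n = J`, `C = max C1 (3 * 2^J)`. Given `η ≤ 1`
(w.l.o.g.): `w0 ≥ 1` with `exp (C1/w0) ≤ 1 + η/2^(J+2)` (so `exp (C1/w) ≤ 3`). For `w ≥ w0` let `C2` be the constant of `S_TTb`, `R = X^κ`, `z = dl w * log R * (3/4)`,
`L = log R = κ log X → ∞`. `nu 2 w R n = z * Lam 2 R n ^ 2` (`(2*2-1)/2^2 = 3/4`). Let `σ = {m // m ∈ S}`, `Δ = Del S ≠ 0` (for `a < b` in `S` the factor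
`b - a` divides it, `Nat.dist`), `n = card S ≤ J`, `T = (1 + C2/L)/z`. Multiply `S_Sum` by `z^n`:
`|average of ∏ nu - (z TT(1,1))^n| ≤ z^n R^(2 n)/X + (1 + C2/L)^n (exp (C1/w) sing C1 w Δ - 1)`. As `X → ∞` (`w` fixed):
`(z TT(1,1))^n → 1` uniformly in `n ≤ J` (`|z TT(1,1) - 1| ≤ C2/L`), `(1 + C2/L)^n ≤ 2^J`, and
`z^n R^(2 n)/X ≤ (1 + log X)^J X^(1/2)/X → 0` (`R^(2 n) ≤ X^(2 J κ) ≤ X^(1/2)`, `z ≤ log R ≤ log X`). Finally
`2^J (exp (C1/w) s - 1) = 2^J exp (C1/w) (s - 1) + 2^J (exp (C1/w) - 1) ≤ 3 * 2^J (s - 1) + η/4`, `1 ≤ s = sing C1 w Δ ≤ sing C w Δ`. -/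
def S_Cor : Prop := CorStmt

end Pool.Agent.Lib.MP_9f2731_nt.GP.Sv
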