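import Pool.Agent.Lib.MP_9f2731_nt.GP.Defs

/-!
MP_9f2731_nt, GP/Sv (helper84): correlations of the majorant. Operators: the commutative ring
`Al ι` (monoid algebra of `ι → ℕ` with pointwise multiplication) acts on the functions `Fn ι` by
multiplicative shifts. `Nm f c`: the operator `f` has norm at most `c` for the sup norm.
`Loc I f`: the operator `f` only acts on the coordinates in `I`.
-/

open Finset

namespace Pool.Agent.Lib.MP_9f2731_nt.GP.Sv

/-- functions of a multi-index -/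
abbrev Fn (ι : Type) := (ι → ℕ) → ℝ

/-- formal combinations of shifts -/
abbrev Al (ι : Type) := MonoidAlgebra ℝ (ι → ℕ)

section act

variable {ι : Type}

/-- the shift by m -/
def shm (m : ι → ℕ) : Module.End ℝ (Fn ι) where
  toFun Φ := fun a => Φ (m * a)
  map_add' _ _ := rfl
  map_smul' _ _ := rfl

/-- the shifts as a monoid homomorphism -/
def shH (ι : Type) : (ι → ℕ) →* Module.End ℝ (Fn ι) where
  toFun := shm
  map_one' := by
    ext Φ a
    simp [shm]
  map_mul' m n := by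
    ext Φ a
    simp only [shm, LinearMap.coe_mk, AddHom.coe_mk, Module.End.mul_apply]
    congr 1
    rw [mul_left_comm, mul_assoc]

/-- the action as an algebra homomorphism -/
noncomputable def actH (ι : Type) : Al ι →ₐ[ℝ] Module.End ℝ (Fn ι) :=
  MonoidAlgebra.lift ℝ _ _ (shH ι)

/-- the action on functions -/
noncomputable def act (f : Al ι) (Φ : Fn ι) : Fn ι := actH ι f Φ

/-- the shift by m as an element of the ring -/
noncomputable def mon (m : ι → ℕ) : Al ι := MonoidAlgebra.of ℝ _ m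

theorem mon_one : mon (1 : ι → ℕ) = 1 := map_one _

theorem mon_mul (m n : ι → ℕ) : mon (m * n) = mon m * mon n := map_mul _ m n

theorem mon_pow (m : ι → ℕ) (k : ℕ) : mon (m ^ k) = mon m ^ k := map_pow _ m k

theorem mon_prod {κ : Type} (s : Finset κ) (m : κ → ι → ℕ) :
    mon (∏ k ∈ s, m k) = ∏ k ∈ s, mon (m k) := map_prod _ _ _

theorem act_mon (m : ι → ℕ) (Φ : Fn ι) (a : ι → ℕ) : act (mon m) Φ a = Φ (m * a) := by
  unfold act actH mon
  rw [MonoidAlgebra.lift_of]
  rfl

theorem act_one (Φ : Fn ι) : act 1 Φ = Φ := by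
  unfold act
  rw [map_one]
  rfl

theorem act_mul (f g : Al ι) (Φ : Fn ι) : act (f * g) Φ = act f (act g Φ) := by
  unfold act
  rw [map_mul]
  rfl

theorem act_add (f g : Al ι) (Φ : Fn ι) (a : ι → ℕ) :
    act (f + g) Φ a = act f Φ a + act g Φ a := by
  unfold act
  rw [map_add]
  rfl

theorem act_sub (f g : Al ι) (Φ : Fn ι) (a : ι → ℕ) :
    act (f - g) Φ a = act f Φ a - act g Φ a := by
  unfold act
  rw [map_sub]
  rfl

theorem act_neg (f : Al ι) (Φ : Fn ι) (a : ι → ℕ) : act (-f) Φ a = -act f Φ a := by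
  unfold act
  rw [map_neg]
  rfl

theorem act_zero (Φ : Fn ι) (a : ι → ℕ) : act 0 Φ a = 0 := by
  unfold act
  rw [map_zero]
  rfl

theorem act_smul (c : ℝ) (f : Al ι) (Φ : Fn ι) (a : ι → ℕ) :
    act (c • f) Φ a = c * act f Φ a := by
  unfold act
  rw [map_smul]
  rfl

theorem act_sum {κ : Type} (s : Finset κ) (f : κ → Al ι) (Φ : Fn ι) (a : ι → ℕ) :
    act (∑ k ∈ s, f k) Φ a = ∑ k ∈ s, act (f k) Φ a := by
  classical
  induction s using Finset.induction_on with
  | empty => simp [act_zero]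
  | insert k s hk ih => rw [Finset.sum_insert hk, act_add, ih, Finset.sum_insert hk]

/-- linearity in the function -/
theorem act_add' (f : Al ι) (Φ Ψ : Fn ι) (a : ι → ℕ) :
    act f (fun b => Φ b + Ψ b) a = act f Φ a + act f Ψ a := by
  unfold act
  have := map_add (actH ι f) Φ Ψ
  exact congrFun this a

theorem act_smul' (c : ℝ) (f : Al ι) (Φ : Fn ι) (a : ι → ℕ) :
    act f (fun b => c * Φ b) a = c * act f Φ a := by
  unfold act
  have := map_smul (actH ι f) c Φ
  exact congrFun this a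

/-! ### Norms -/

/-- the operator norm for the sup norm is at most c -/
def Nm (f : Al ι) (c : ℝ) : Prop :=
  0 ≤ c ∧ ∀ (Φ : Fn ι) (B : ℝ), (∀ a, |Φ a| ≤ B) → ∀ a, |act f Φ a| ≤ c * B

theorem Nm.nonneg {f : Al ι} {c : ℝ} (h : Nm f c) : 0 ≤ c := h.1

theorem nonneg_of_bd {Φ : Fn ι} {B : ℝ} (h : ∀ a, |Φ a| ≤ B) : 0 ≤ B :=
  (abs_nonneg _).trans (h 1)

theorem Nm.mono {f : Al ι} {c d : ℝ} (h : Nm f c) (hcd : c ≤ d) : Nm f d :=
  ⟨h.1.trans hcd, fun Φ B hB a => (h.2 Φ B hB a).trans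
    (mul_le_mul_of_nonneg_right hcd (nonneg_of_bd hB))⟩

theorem Nm.mon (m : ι → ℕ) : Nm (mon m) 1 :=
  ⟨zero_le_one, fun Φ B hB a => by rw [act_mon, one_mul]; exact hB _⟩

theorem Nm.one : Nm (1 : Al ι) 1 :=
  ⟨zero_le_one, fun Φ B hB a => by rw [act_one, one_mul]; exact hB _⟩

theorem Nm.zero : Nm (0 : Al ι) 0 :=
  ⟨le_rfl, fun Φ B hB a => by rw [act_zero]; simp⟩

theorem Nm.smul {f : Al ι} {c : ℝ} (h : Nm f c) (r : ℝ) : Nm (r • f) (|r| * c) :=
  ⟨mul_nonneg (abs_nonneg _) h.1, fun Φ B hB a => by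
    rw [act_smul, abs_mul, mul_assoc]
    exact mul_le_mul_of_nonneg_left (h.2 Φ B hB a) (abs_nonneg _)⟩

theorem Nm.neg {f : Al ι} {c : ℝ} (h : Nm f c) : Nm (-f) c :=
  ⟨h.1, fun Φ B hB a => by rw [act_neg, abs_neg]; exact h.2 Φ B hB a⟩

theorem Nm.add {f g : Al ι} {c d : ℝ} (hf : Nm f c) (hg : Nm g d) : Nm (f + g) (c + d) :=
  ⟨add_nonneg hf.1 hg.1, fun Φ B hB a => by
    rw [act_add, add_mul]
    exact (abs_add_le _ _).trans (add_le_add (hf.2 Φ B hB a) (hg.2 Φ B hB a))⟩

theorem Nm.sub {f g : Al ι} {c d : ℝ} (hf : Nm f c) (hg : Nm g d) : Nm (f - g) (c + d) := by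
  rw [sub_eq_add_neg]
  exact hf.add hg.neg

theorem Nm.mul {f g : Al ι} {c d : ℝ} (hf : Nm f c) (hg : Nm g d) : Nm (f * g) (c * d) :=
  ⟨mul_nonneg hf.1 hg.1, fun Φ B hB a => by
    rw [act_mul, mul_assoc]
    exact hf.2 _ _ (fun b => hg.2 Φ B hB b) a⟩

theorem Nm.sum {κ : Type} (s : Finset κ) {f : κ → Al ι} {c : κ → ℝ}
    (h : ∀ k ∈ s, Nm (f k) (c k)) : Nm (∑ k ∈ s, f k) (∑ k ∈ s, c k) := by
  classical
  induction s using Finset.induction_on with
  | empty => simpa using Nm.zero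
  | insert k s hk ih =>
    rw [Finset.sum_insert hk, Finset.sum_insert hk]
    exact (h k (mem_insert_self k s)).add (ih fun j hj => h j (mem_insert_of_mem hj))

theorem Nm.prod {κ : Type} (s : Finset κ) {f : κ → Al ι} {c : κ → ℝ}
    (h : ∀ k ∈ s, Nm (f k) (c k)) : Nm (∏ k ∈ s, f k) (∏ k ∈ s, c k) := by
  classical
  induction s using Finset.induction_on with
  | empty => simpa using Nm.one
  | insert k s hk ih =>
    rw [Finset.prod_insert hk, Finset.prod_insert hk]
    exact (h k (mem_insert_self k s)).mul (ih fun j hj => h j (mem_insert_of_mem hj))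

theorem Nm.pow {f : Al ι} {c : ℝ} (h : Nm f c) (k : ℕ) : Nm (f ^ k) (c ^ k) := by
  induction k with
  | zero => simpa using Nm.one
  | succ k ih => rw [pow_succ, pow_succ]; exact ih.mul h

/-! ### Locality -/

/-- the function depends only on the coordinates in I -/
def Dep (I : Set ι) (Φ : Fn ι) : Prop := ∀ a b : ι → ℕ, (∀ i ∈ I, a i = b i) → Φ a = Φ b

/-- the operator acts only on the coordinates in I -/
def Loc (I : Set ι) (f : Al ι) : Prop :=
  ∀ Ψ Φ : Fn ι, Dep Iᶜ Ψ → ∀ a, act f (fun b => Ψ b * Φ b) a = Ψ a * act f Φ a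

theorem Dep.mono {I J : Set ι} {Φ : Fn ι} (h : Dep I Φ) (hIJ : I ⊆ J) : Dep J Φ :=
  fun a b hab => h a b fun i hi => hab i (hIJ hi)

theorem Loc.mono {I J : Set ι} {f : Al ι} (h : Loc I f) (hIJ : I ⊆ J) : Loc J f :=
  fun Ψ Φ hΨ a => h Ψ Φ (hΨ.mono (Set.compl_subset_compl.2 hIJ)) a

/-- a linear functional of the operator: induction principle -/
theorem al_induction {P : Al ι → Prop} (f : Al ι) (hm : ∀ m, P (mon m))
    (ha : ∀ f g, P f → P g → P (f + g)) (hs : ∀ (c : ℝ) f, P f → P (c • f)) : P f := by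
  refine MonoidAlgebra.induction_on f (fun m => hm m) ha hs

/-- the action preserves the set of coordinates on which a function depends -/
theorem Dep.act {I : Set ι} {Φ : Fn ι} (h : Dep I Φ) (f : Al ι) : Dep I (act f Φ) := by
  refine al_induction (P := fun f => Dep I (Sv.act f Φ)) f ?_ ?_ ?_
  · intro m a b hab
    rw [act_mon, act_mon]
    exact h _ _ fun i hi => by rw [Pi.mul_apply, Pi.mul_apply, hab i hi]
  · intro f g hf hg a b hab
    rw [act_add, act_add, hf a b hab, hg a b hab]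
  · intro c f hf a b hab
    rw [act_smul, act_smul, hf a b hab]

theorem Loc.mon {I : Set ι} {m : ι → ℕ} (h : ∀ i, i ∉ I → m i = 1) : Loc I (mon m) := by
  intro Ψ Φ hΨ a
  rw [act_mon, act_mon]
  congr 1
  refine hΨ _ _ fun i hi => ?_
  rw [Pi.mul_apply, h i hi, one_mul]

theorem Loc.one {I : Set ι} : Loc I (1 : Al ι) := by
  intro Ψ Φ _ a
  rw [act_one, act_one]

theorem Loc.smul {I : Set ι} {f : Al ι} (h : Loc I f) (c : ℝ) : Loc I (c • f) := by
  intro Ψ Φ hΨ a
  rw [act_smul, act_smul, h Ψ Φ hΨ a]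
  ring

theorem Loc.add {I : Set ι} {f g : Al ι} (hf : Loc I f) (hg : Loc I g) : Loc I (f + g) := by
  intro Ψ Φ hΨ a
  rw [act_add, act_add, hf Ψ Φ hΨ a, hg Ψ Φ hΨ a]
  ring

theorem Loc.sub {I : Set ι} {f g : Al ι} (hf : Loc I f) (hg : Loc I g) : Loc I (f - g) := by
  intro Ψ Φ hΨ a
  rw [act_sub, act_sub, hf Ψ Φ hΨ a, hg Ψ Φ hΨ a]
  ring

theorem Loc.mul {I : Set ι} {f g : Al ι} (hf : Loc I f) (hg : Loc I g) : Loc I (f * g) := by
  intro Ψ Φ hΨ a
  rw [act_mul, act_mul]
  have e : Sv.act g (fun b => Ψ b * Φ b) = fun b => Ψ b * Sv.act g Φ b := by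
    funext b
    exact hg Ψ Φ hΨ b
  rw [e, hf Ψ _ hΨ a]

theorem Loc.sum {I : Set ι} {κ : Type} (s : Finset κ) {f : κ → Al ι}
    (h : ∀ k ∈ s, Loc I (f k)) : Loc I (∑ k ∈ s, f k) := by
  intro Ψ Φ hΨ a
  rw [act_sum, act_sum, Finset.mul_sum]
  exact Finset.sum_congr rfl fun k hk => h k hk Ψ Φ hΨ a

theorem Loc.prod {I : Set ι} {κ : Type} (s : Finset κ) {f : κ → Al ι}
    (h : ∀ k ∈ s, Loc I (f k)) : Loc I (∏ k ∈ s, f k) := by
  classical
  induction s using Finset.induction_on with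
  | empty => simpa using Loc.one
  | insert k s hk ih =>
    rw [Finset.prod_insert hk]
    exact (h k (mem_insert_self k s)).mul (ih fun j hj => h j (mem_insert_of_mem hj))

theorem Loc.pow {I : Set ι} {f : Al ι} (h : Loc I f) (k : ℕ) : Loc I (f ^ k) := by
  induction k with
  | zero => simpa using Loc.one
  | succ k ih => rw [pow_succ]; exact ih.mul h

/-- **Block lemma.** Operators on disjoint blocks of coordinates act independently. -/
theorem block {κ : Type} (s : Finset κ) (I : κ → Set ι)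
    (hI : ∀ j ∈ s, ∀ k ∈ s, j ≠ k → Disjoint (I j) (I k)) (f : κ → Al ι) (φ : κ → Fn ι)
    (hf : ∀ k ∈ s, Loc (I k) (f k)) (hφ : ∀ k ∈ s, Dep (I k) (φ k)) (a : ι → ℕ) :
    act (∏ k ∈ s, f k) (fun b => ∏ k ∈ s, φ k b) a = ∏ k ∈ s, act (f k) (φ k) a := by
  classical
  induction s using Finset.induction_on generalizing a with
  | empty => simp [act_one]
  | insert j s hj ih =>
    have hIs : ∀ j' ∈ s, ∀ k ∈ s, j' ≠ k → Disjoint (I j') (I k) := fun j' hj' k hk =>
      hI j' (mem_insert_of_mem hj') k (mem_insert_of_mem hk)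
    have ih' := ih hIs (fun k hk => hf k (mem_insert_of_mem hk))
      (fun k hk => hφ k (mem_insert_of_mem hk))
    have hd : ∀ k ∈ s, I j ⊆ (I k)ᶜ := fun k hk =>
      Disjoint.subset_compl_right (hI j (mem_insert_self j s) k (mem_insert_of_mem hk)
        (fun e => hj (e ▸ hk)))
    rw [Finset.prod_insert hj, Finset.prod_insert hj, act_mul]
    -- the product over `s` commutes with the multiplication by `φ j`
    have hP : ∀ t ⊆ s, ∀ Φ : Fn ι, ∀ b,
        act (∏ k ∈ t, f k) (fun c => φ j c * Φ c) b = φ j b * act (∏ k ∈ t, f k) Φ b := by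
      intro t
      induction t using Finset.induction_on with
      | empty => intro _ Φ b; simp [act_one]
      | insert k t hk iht =>
        intro hts Φ b
        rw [Finset.prod_insert hk, act_mul, act_mul]
        have e : act (∏ k ∈ t, f k) (fun c => φ j c * Φ c)
            = fun c => φ j c * act (∏ k ∈ t, f k) Φ c := by
          funext c
          exact iht (fun x hx => hts (mem_insert_of_mem hx)) Φ c
        have hk' : k ∈ s := hts (mem_insert_self k t)
        rw [e, hf k (mem_insert_of_mem hk') _ _ ((hφ j (mem_insert_self j s)).mono (hd k hk')) b]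
    have e1 : (fun b => ∏ k ∈ insert j s, φ k b) = fun b => φ j b * ∏ k ∈ s, φ k b := by
      funext b
      rw [Finset.prod_insert hj]
    have e2 : act (∏ k ∈ s, f k) (fun b => ∏ k ∈ insert j s, φ k b)
        = fun b => (∏ k ∈ s, act (f k) (φ k) b) * φ j b := by
      funext b
      rw [e1, hP s subset_rfl _ b, ih' b, mul_comm]
    rw [e2, hf j (mem_insert_self j s) _ _ _ a, mul_comm]
    intro b c hbc
    refine Finset.prod_congr rfl fun k hk => ?_
    refine (hφ k (mem_insert_of_mem hk)).act (f k) b c fun i hi => hbc i ?_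
    exact fun hi' => hd k hk hi' hi

end act

end Pool.Agent.Lib.MP_9f2731_nt.GP.Sv
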