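import Pool.Agent.Lib.MP_9f2731_nt.GP.Sv.Base

/-!
MP_9f2731_nt, GP/Sv (helper84): definitions of the chapter and their basic properties.
-/

open Finset

namespace Pool.Agent.Lib.MP_9f2731_nt.GP.Sv

/-- q at the coordinate i, one elsewhere -/
def e {ι : Type} [DecidableEq ι] (i : ι) (q : ℕ) : ι → ℕ := fun k => if k = i then q else 1

/-- the primes in (w, R] -/
noncomputable def Qs (w : ℕ) (R : ℝ) : Finset ℕ :=
  (range (⌊R⌋₊ + 1)).filter (fun p => p.Prime ∧ w < p)

/-- their product -/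
noncomputable def Pq (w : ℕ) (R : ℝ) : ℕ := ∏ p ∈ Qs w R, p

/-- the cutoff -/
noncomputable def chi (R : ℝ) (n : ℕ) : ℝ :=
  if 1 ≤ n ∧ (n : ℝ) ≤ R then (1 - Real.log n / Real.log R) ^ 2 else 0

/-- the product of the cutoffs -/
noncomputable def Ph (R : ℝ) (ι : Type) [Fintype ι] : Fn ι := fun a => ∏ i, chi R (a i)

/-- the numbers `W b m + 1` -/
def nf (w m b : ℕ) : ℕ := Wp w * b * m + 1

/-- indicator of divisibility -/
noncomputable def ind (p n : ℕ) : ℝ := if p ∣ n then 1 else 0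

/-- local factor at p: average over the residues -/
noncomputable def EE {ι : Type} [Fintype ι] [DecidableEq ι] (w : ℕ) (m : ι → ℕ) (p : ℕ) : Al ι :=
  (1 / (p : ℝ)) • ∑ b ∈ range p, ∏ i, (1 - ind p (nf w (m i) b) • mon (e i p))

/-- one variable -/
noncomputable def xx {ι : Type} [DecidableEq ι] (p : ℕ) (i : ι) : Al ι :=
  (1 / (p : ℝ)) • mon (e i p)

/-- both variables of a form -/
noncomputable def zz {σ : Type} [DecidableEq σ] (p : ℕ) (j : σ) : Al (σ × Bool) :=
  (1 / (p : ℝ)) • mon (e (j, true) p * e (j, false) p)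

/-- `v = t t' - t - t'` -/
noncomputable def vv {σ : Type} [DecidableEq σ] (p : ℕ) (j : σ) : Al (σ × Bool) :=
  mon (e (j, true) p) * mon (e (j, false) p) - mon (e (j, true) p) - mon (e (j, false) p)

/-- truncated geometric series -/
noncomputable def gg {ι : Type} (K : ℕ) (x : Al ι) : Al ι := ∑ k ∈ range K, x ^ k

/-- the approximate inverse of the local factor -/
noncomputable def DD {σ : Type} [Fintype σ] [DecidableEq σ] (K p : ℕ) : Al (σ × Bool) :=
  ∏ j : σ, ((1 - zz p j) * gg K (xx p (j, true)) * gg K (xx p (j, false)))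

/-- the model of the local factor -/
noncomputable def FF {σ : Type} [Fintype σ] [DecidableEq σ] (K p : ℕ) : Al (σ × Bool) :=
  ∏ j : σ, ((1 - xx p (j, true)) * (1 - xx p (j, false)) * gg K (zz p j))

/-- `∑ μ(u)/u χ(u b)` over the u composed of primes in (w, R] -/
noncomputable def MM (w : ℕ) (R : ℝ) (b : ℕ) : ℝ :=
  ∑ u ∈ (Pq w R).divisors, ((ArithmeticFunction.moebius u : ℤ) : ℝ) / u * chi R (u * b)

/-- the correlation sum of one form -/
noncomputable def TT (w : ℕ) (R : ℝ) (b c : ℕ) : ℝ :=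
  ∑ g ∈ (Icc 1 ⌊R⌋₊).filter (fun n => n.Coprime (Wp w)), 1 / (g : ℝ) * MM w R (g * b) * MM w R (g * c)

/-- φ(W)/W -/
noncomputable def dl (w : ℕ) : ℝ := ((Wp w).totient : ℝ) / (Wp w : ℝ)

/-- harmonic sums with logarithmic weights -/
noncomputable def hs (k : ℕ) (y : ℝ) : ℝ :=
  ∑ n ∈ Icc 1 ⌊y⌋₊, 1 / (n : ℝ) * Real.log (y / n) ^ k

/-- the same over the numbers prime to Wp w -/
noncomputable def hw (w k : ℕ) (y : ℝ) : ℝ :=
  ∑ n ∈ (Icc 1 ⌊y⌋₊).filter (fun n => n.Coprime (Wp w)), 1 / (n : ℝ) * Real.log (y / n) ^ k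

/-- Moebius sums with logarithmic weights over the numbers prime to Wp w -/
noncomputable def mw (w k : ℕ) (y : ℝ) : ℝ :=
  ∑ n ∈ (Icc 1 ⌊y⌋₊).filter (fun n => n.Coprime (Wp w)),
    ((ArithmeticFunction.moebius n : ℤ) : ℝ) / n * Real.log (y / n) ^ k

/-! ### Basic properties -/

theorem e_mul {ι : Type} [DecidableEq ι] (i : ι) (q r : ℕ) : e i (q * r) = e i q * e i r := by
  funext k
  simp only [e, Pi.mul_apply]
  split_ifs <;> simp

theorem e_one {ι : Type} [DecidableEq ι] (i : ι) : e i 1 = 1 := by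
  funext k
  simp [e]

theorem e_pow {ι : Type} [DecidableEq ι] (i : ι) (q n : ℕ) : e i (q ^ n) = e i q ^ n := by
  funext k
  simp only [e, Pi.pow_apply]
  split_ifs <;> simp

theorem e_self {ι : Type} [DecidableEq ι] (i : ι) (q : ℕ) : e i q i = q := by simp [e]

theorem e_ne {ι : Type} [DecidableEq ι] {i k : ι} (h : k ≠ i) (q : ℕ) : e i q k = 1 := by
  simp [e, h]

theorem mem_Qs {w : ℕ} {R : ℝ} {p : ℕ} : p ∈ Qs w R ↔ p.Prime ∧ w < p ∧ p ≤ ⌊R⌋₊ := by
  unfold Qs
  rw [mem_filter, mem_range]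
  constructor
  · rintro ⟨h1, h2, h3⟩
    exact ⟨h2, h3, by omega⟩
  · rintro ⟨h1, h2, h3⟩
    exact ⟨by omega, h1, h2⟩

theorem Pq_ne {w : ℕ} {R : ℝ} : Pq w R ≠ 0 := by
  unfold Pq
  exact Finset.prod_ne_zero_iff.2 fun p hp => (mem_Qs.1 hp).1.ne_zero

theorem prime_dvd_Pq {w : ℕ} {R : ℝ} {p : ℕ} (hp : p.Prime) : p ∣ Pq w R ↔ p ∈ Qs w R := by
  unfold Pq
  constructor
  · intro h
    obtain ⟨q, hq, h2⟩ := (Prime.dvd_finsetProd_iff hp.prime _).1 h
    rwa [(Nat.prime_dvd_prime_iff_eq hp (mem_Qs.1 hq).1).1 h2]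
  · intro h
    exact Finset.dvd_prod_of_mem _ h

theorem Pq_primeFactors {w : ℕ} {R : ℝ} : (Pq w R).primeFactors = Qs w R := by
  ext p
  rw [Nat.mem_primeFactors]
  constructor
  · rintro ⟨h1, h2, -⟩
    exact (prime_dvd_Pq h1).1 h2
  · intro h
    exact ⟨(mem_Qs.1 h).1, (prime_dvd_Pq (mem_Qs.1 h).1).2 h, Pq_ne⟩

theorem Pq_squarefree {w : ℕ} {R : ℝ} : Squarefree (Pq w R) := by
  have h : ∀ s : Finset ℕ, (∀ p ∈ s, p.Prime) → Squarefree (∏ p ∈ s, p) := by
    intro s
    induction s using Finset.induction_on with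
    | empty => intro _; simp
    | insert p s hp ih =>
      intro h
      rw [Finset.prod_insert hp]
      refine (Nat.squarefree_mul ?_).2 ⟨(h p (mem_insert_self p s)).squarefree,
        ih fun q hq => h q (mem_insert_of_mem hq)⟩
      refine Nat.Coprime.prod_right fun q hq => ?_
      refine (Nat.coprime_primes (h p (mem_insert_self p s)) (h q (mem_insert_of_mem hq))).2 ?_
      rintro rfl
      exact hp hq
  exact h _ fun p hp => (mem_Qs.1 hp).1

/-- expansion of the product over the primes in (w, R] -/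
theorem sqx {A : Type} [CommRing A] (w : ℕ) (R : ℝ) (F : ℕ → A) (h1 : F 1 = 1)
    (hm : ∀ m n : ℕ, m.Coprime n → F (m * n) = F m * F n) :
    ∏ p ∈ Qs w R, (1 - F p)
      = ∑ d ∈ (Pq w R).divisors, ((ArithmeticFunction.moebius d : ℤ) : A) * F d := by
  classical
  let G : ArithmeticFunction A := ⟨fun n => if n = 0 then 0 else F n, by simp⟩
  have hG : ∀ n : ℕ, n ≠ 0 → G n = F n := fun n hn => by
    show (if n = 0 then 0 else F n) = F n
    rw [if_neg hn]
  have hmul : G.IsMultiplicative := by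
    refine ⟨by rw [hG 1 one_ne_zero, h1], fun {m n} hmn => ?_⟩
    by_cases hm0 : m = 0
    · subst hm0
      simp
    by_cases hn0 : n = 0
    · subst hn0
      simp
    rw [hG _ (mul_ne_zero hm0 hn0), hG _ hm0, hG _ hn0, hm m n hmn]
  have := hmul.prodPrimeFactors_one_sub_of_squarefree G Pq_squarefree (n := Pq w R)
  rw [Pq_primeFactors] at this
  have h2 : ∏ p ∈ Qs w R, (1 - F p) = ∏ p ∈ Qs w R, (1 - G p) :=
    Finset.prod_congr rfl fun p hp => by rw [hG p (mem_Qs.1 hp).1.ne_zero]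
  rw [h2, this]
  refine Finset.sum_congr rfl fun d hd => ?_
  rw [hG d (Nat.pos_of_mem_divisors hd).ne']

theorem chi_nonneg (R : ℝ) (n : ℕ) : 0 ≤ chi R n := by
  unfold chi
  split_ifs
  · exact sq_nonneg _
  · exact le_rfl

theorem chi_le_one {R : ℝ} (hR : 1 < R) (n : ℕ) : chi R n ≤ 1 := by
  unfold chi
  split_ifs with h
  · have h1 : (1 : ℝ) ≤ n := by exact_mod_cast h.1
    have h2 : 0 ≤ Real.log n := Real.log_nonneg h1
    have h3 : Real.log n ≤ Real.log R := Real.log_le_log (by linarith) h.2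
    have h4 : 0 < Real.log R := Real.log_pos hR
    have h5 : 0 ≤ Real.log n / Real.log R := div_nonneg h2 h4.le
    have h6 : Real.log n / Real.log R ≤ 1 := (div_le_one h4).2 h3
    nlinarith
  · exact zero_le_one

theorem chi_zero {R : ℝ} {n : ℕ} (h : n = 0 ∨ R < n) : chi R n = 0 := by
  unfold chi
  rw [if_neg]
  rintro ⟨h1, h2⟩
  rcases h with h | h
  · omega
  · linarith

theorem Wp_pos (w : ℕ) : 0 < Wp w := primorial_pos w

/-- a prime divides `Wp w` if and only if it is at most w -/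
theorem prime_dvd_Wp {w p : ℕ} (hp : p.Prime) : p ∣ Wp w ↔ p ≤ w := by
  unfold Wp primorial
  constructor
  · intro h
    obtain ⟨q, hq, h2⟩ := (Prime.dvd_finsetProd_iff hp.prime _).1 h
    rw [mem_filter, mem_range] at hq
    rw [(Nat.prime_dvd_prime_iff_eq hp hq.2).1 h2]
    omega
  · intro h
    refine Finset.dvd_prod_of_mem _ ?_
    rw [mem_filter, mem_range]
    exact ⟨by omega, hp⟩

/-- `nf w m b` is prime to `Wp w` -/
theorem nf_coprime (w m b : ℕ) : (nf w m b).Coprime (Wp w) := by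
  unfold nf
  rw [mul_assoc]
  exact (Nat.coprime_mul_left_add_left 1 (Wp w) (b * m)).2 (Nat.coprime_one_left _)

theorem nf_pos (w m b : ℕ) : 1 ≤ nf w m b := Nat.le_add_left _ _

/-- a prime above w does not divide `Wp w * m` -/
theorem not_dvd_Wm {w m p : ℕ} (hm : Sm w m) (hp : p.Prime) (hw : w < p) : ¬ p ∣ Wp w * m := by
  intro h
  rcases (Nat.Prime.dvd_mul hp).1 h with h | h
  · have := (prime_dvd_Wp hp).1 h
    omega
  · have := hm.2 p hp h
    omega

theorem dl_pos (w : ℕ) : 0 < dl w := by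
  unfold dl
  have h1 : (0 : ℝ) < (Wp w).totient := by exact_mod_cast Nat.totient_pos.2 (Wp_pos w)
  have h2 : (0 : ℝ) < Wp w := by exact_mod_cast Wp_pos w
  exact div_pos h1 h2

theorem dl_le_one (w : ℕ) : dl w ≤ 1 := by
  unfold dl
  have h2 : (0 : ℝ) < Wp w := by exact_mod_cast Wp_pos w
  rw [div_le_one h2]
  exact_mod_cast Nat.totient_le _

end Pool.Agent.Lib.MP_9f2731_nt.GP.Sv
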