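import Pool.Agent.Lib.MP_9f2731_nt.GP.Sv.HwE

/-!
MP_9f2731_nt, GP/Sv/Cnt (helper6, after helper84's docstring): counting the numbers prime to `Wp w`.
-/

open Finset

namespace Pool.Agent.Lib.MP_9f2731_nt.GP.Sv

open HwEN in
theorem pCnt (hD : S_Dl) : S_Cnt := by
  intro w
  have hW : Wp w ≠ 0 := (Wp_pos w).ne'
  refine ⟨((Wp w).divisors.card : ℝ) + 1, by positivity, fun y hy => ?_⟩
  have e1 : ((((Icc 1 ⌊y⌋₊).filter (fun n => n.Coprime (Wp w))).card : ℕ) : ℝ)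
      = ∑ d ∈ (Wp w).divisors, ((ArithmeticFunction.moebius d : ℤ) : ℝ) * ((⌊y⌋₊ / d : ℕ) : ℝ) := by
    have h1 : ((((Icc 1 ⌊y⌋₊).filter (fun n => n.Coprime (Wp w))).card : ℕ) : ℝ)
        = ∑ n ∈ Icc 1 ⌊y⌋₊, ∑ d ∈ (Wp w).divisors,
          (if d ∣ n then ((ArithmeticFunction.moebius d : ℤ) : ℝ) else 0) := by
      rw [Finset.card_filter]
      push_cast
      refine Finset.sum_congr rfl fun n _ => ?_
      rw [cop (Wp w) n hW]
    rw [h1, Finset.sum_comm]
    refine Finset.sum_congr rfl fun d hd => ?_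
    have hd1 : 1 ≤ d := Nat.pos_of_mem_divisors hd
    rw [mult (fun _ => ((ArithmeticFunction.moebius d : ℤ) : ℝ)) ⌊y⌋₊ d hd1]
    rw [Finset.sum_const, Nat.card_Icc, nsmul_eq_mul]
    simp only [Nat.add_sub_cancel]
    ring
  have e2 : dl w * y = ∑ d ∈ (Wp w).divisors, ((ArithmeticFunction.moebius d : ℤ) : ℝ)
      * (y / d) := by
    rw [← hD w, Finset.sum_mul]
    exact Finset.sum_congr rfl fun d _ => by ring
  rw [e1, e2, ← Finset.sum_sub_distrib]
  refine (Finset.abs_sum_le_sum_abs _ _).trans ?_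
  have h3 : ∀ d ∈ (Wp w).divisors, |((ArithmeticFunction.moebius d : ℤ) : ℝ)
      * ((⌊y⌋₊ / d : ℕ) : ℝ) - ((ArithmeticFunction.moebius d : ℤ) : ℝ) * (y / d)| ≤ 1 := by
    intro d hd
    rw [← mul_sub, abs_mul]
    have h1 : |((ArithmeticFunction.moebius d : ℤ) : ℝ)| ≤ 1 := by
      have := ArithmeticFunction.abs_moebius_le_one (n := d)
      exact_mod_cast this
    have h2 : |((⌊y⌋₊ / d : ℕ) : ℝ) - y / d| ≤ 1 := by
      rw [← Nat.floor_div_natCast]
      have hyd : 0 ≤ y / d := by positivity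
      have a1 := Nat.floor_le hyd
      have a2 := Nat.lt_floor_add_one (y / d)
      rw [abs_le]
      constructor <;> linarith
    calc _ ≤ (1 : ℝ) * 1 := mul_le_mul h1 h2 (abs_nonneg _) zero_le_one
      _ = 1 := one_mul _
  refine (Finset.sum_le_sum h3).trans ?_
  rw [Finset.sum_const, nsmul_eq_mul, mul_one]
  linarith

end Pool.Agent.Lib.MP_9f2731_nt.GP.Sv
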