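import Pool.Agent.Lib.MP_9f2731_nt.GP.Sv.Spec

/-!
MP_9f2731_nt, GP/Sv, module H2: the harmonic sum with the weight log^2.
-/

namespace Pool.Agent.Lib.MP_9f2731_nt.GP.Sv

open Finset

/-- one step -/
private theorem h2_step (y : ℝ) (n : ℕ) (hn : 1 ≤ n) (hy : ((n + 1 : ℕ) : ℝ) ≤ y) :
    1 / ((n + 1 : ℕ) : ℝ) * Real.log (y / ((n + 1 : ℕ) : ℝ)) ^ 2 ≤
      (Real.log (y / n) ^ 3 - Real.log (y / ((n + 1 : ℕ) : ℝ)) ^ 3) / 3 ∧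
    (Real.log (y / n) ^ 3 - Real.log (y / ((n + 1 : ℕ) : ℝ)) ^ 3) / 3 ≤
      1 / (n : ℝ) * Real.log (y / n) ^ 2 := by
  have hn0 : (0 : ℝ) < n := by exact_mod_cast hn
  have hn1 : (0 : ℝ) < ((n + 1 : ℕ) : ℝ) := by positivity
  have hy0 : 0 < y := hn1.trans_le hy
  set b := Real.log (y / ((n + 1 : ℕ) : ℝ)) with hb
  set a := Real.log (y / n) with ha
  set t := Real.log (((n + 1 : ℕ) : ℝ) / n) with ht
  have hb0 : 0 ≤ b := Real.log_nonneg ((one_le_div hn1).mpr hy)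
  have hat : a = b + t := by
    rw [ha, hb, ht, Real.log_div hy0.ne' hn0.ne', Real.log_div hy0.ne' hn1.ne',
      Real.log_div hn1.ne' hn0.ne']
    ring
  have ht1 : t ≤ 1 / n := by
    have h := Real.log_le_sub_one_of_pos (show 0 < ((n + 1 : ℕ) : ℝ) / n by positivity)
    have h2 : ((n + 1 : ℕ) : ℝ) / n - 1 = 1 / n := by
      push_cast
      field_simp
      ring
    rw [h2] at h
    exact h
  have ht2 : 1 / ((n + 1 : ℕ) : ℝ) ≤ t := by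
    have h := Real.log_le_sub_one_of_pos (show 0 < (n : ℝ) / ((n + 1 : ℕ) : ℝ) by positivity)
    have h2 : (n : ℝ) / ((n + 1 : ℕ) : ℝ) - 1 = -(1 / ((n + 1 : ℕ) : ℝ)) := by
      push_cast
      field_simp
      ring
    have h3 : Real.log ((n : ℝ) / ((n + 1 : ℕ) : ℝ)) = -t := by
      rw [ht, Real.log_div hn0.ne' hn1.ne', Real.log_div hn1.ne' hn0.ne']
      ring
    rw [h2, h3] at h
    linarith
  have ht0 : 0 ≤ t := le_trans (by positivity) ht2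
  have e1 : (a ^ 3 - b ^ 3) / 3 = t * b ^ 2 + (t * (t * b) + t * t ^ 2 / 3) := by
    rw [hat]
    ring
  have e2 : t * a ^ 2 - (a ^ 3 - b ^ 3) / 3 = t * (t * b) + t * t ^ 2 * (2 / 3) := by
    rw [hat]
    ring
  have p1 : 0 ≤ t * (t * b) := mul_nonneg ht0 (mul_nonneg ht0 hb0)
  have p2 : 0 ≤ t * t ^ 2 := mul_nonneg ht0 (sq_nonneg _)
  constructor
  · calc 1 / ((n + 1 : ℕ) : ℝ) * b ^ 2 ≤ t * b ^ 2 :=
        mul_le_mul_of_nonneg_right ht2 (sq_nonneg _)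
      _ ≤ (a ^ 3 - b ^ 3) / 3 := by rw [e1]; linarith
  · calc (a ^ 3 - b ^ 3) / 3 ≤ t * a ^ 2 := by linarith
      _ ≤ 1 / (n : ℝ) * a ^ 2 := mul_le_mul_of_nonneg_right ht1 (sq_nonneg _)

private theorem h2_sum (y : ℝ) : ∀ N : ℕ, 1 ≤ N → (N : ℝ) ≤ y →
    (Real.log y ^ 3 - Real.log (y / N) ^ 3) / 3 + 1 / (N : ℝ) * Real.log (y / N) ^ 2 ≤
      ∑ n ∈ Icc 1 N, 1 / (n : ℝ) * Real.log (y / n) ^ 2 ∧
    ∑ n ∈ Icc 1 N, 1 / (n : ℝ) * Real.log (y / n) ^ 2 ≤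
      Real.log y ^ 2 + (Real.log y ^ 3 - Real.log (y / N) ^ 3) / 3 := by
  intro N hN
  induction N, hN using Nat.le_induction with
  | base =>
    intro _
    simp
  | succ n hn ih =>
    intro hy
    have hy' : (n : ℝ) ≤ y := le_trans (by exact_mod_cast Nat.le_succ n) hy
    obtain ⟨h1, h2⟩ := ih hy'
    obtain ⟨h3, h4⟩ := h2_step y n hn hy
    rw [sum_Icc_succ_top (by omega)]
    constructor
    · linarith
    · linarith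

theorem pH2 : S_H2 := by
  intro y hy
  have hN1 : 1 ≤ ⌊y⌋₊ := Nat.le_floor (by rw [Nat.cast_one]; exact hy)
  have hNy : ((⌊y⌋₊ : ℕ) : ℝ) ≤ y := Nat.floor_le (by linarith)
  obtain ⟨h1, h2⟩ := h2_sum y _ hN1 hNy
  have hN0 : (0 : ℝ) < ((⌊y⌋₊ : ℕ) : ℝ) := by exact_mod_cast hN1
  have hlt : y < (⌊y⌋₊ : ℝ) + 1 := Nat.lt_floor_add_one y
  have hN1' : (1 : ℝ) ≤ ((⌊y⌋₊ : ℕ) : ℝ) := by exact_mod_cast hN1
  have hu0 : 0 ≤ Real.log (y / ((⌊y⌋₊ : ℕ) : ℝ)) := Real.log_nonneg ((one_le_div hN0).mpr hNy)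
  have hu1 : Real.log (y / ((⌊y⌋₊ : ℕ) : ℝ)) ≤ 1 := by
    have h := Real.log_le_sub_one_of_pos (show 0 < y / ((⌊y⌋₊ : ℕ) : ℝ) by positivity)
    have h3 : y / ((⌊y⌋₊ : ℕ) : ℝ) ≤ 2 := by
      rw [div_le_iff₀ hN0]
      linarith
    linarith
  have hu3 : Real.log (y / ((⌊y⌋₊ : ℕ) : ℝ)) ^ 3 ≤ 1 := pow_le_one₀ hu0 hu1
  have hu3' : 0 ≤ Real.log (y / ((⌊y⌋₊ : ℕ) : ℝ)) ^ 3 := pow_nonneg hu0 3
  have hp : 0 ≤ 1 / ((⌊y⌋₊ : ℕ) : ℝ) * Real.log (y / ((⌊y⌋₊ : ℕ) : ℝ)) ^ 2 := by positivity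
  unfold hs
  rw [abs_le]
  have hl : 0 ≤ Real.log y ^ 2 := sq_nonneg _
  constructor <;> linarith

end Pool.Agent.Lib.MP_9f2731_nt.GP.Sv
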