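import Pool.Agent.Lib.MP_9f2731_nt.GP.Sv.Spec

/-!
MP_9f2731_nt, GP/Sv/Mob: Moebius inversion for sums.
-/

open Finset

namespace Pool.Agent.Lib.MP_9f2731_nt.GP.Sv

theorem Mob_aux (k : ℕ) (hk : k ≠ 0) :
    ∑ u ∈ k.divisors, ((ArithmeticFunction.moebius u : ℤ) : ℝ) = if k = 1 then 1 else 0 := by
  have h1 : ∑ u ∈ k.divisors, (ArithmeticFunction.moebius u : ℤ) = if k = 1 then 1 else 0 := by
    rw [← ArithmeticFunction.coe_mul_zeta_apply, ArithmeticFunction.moebius_mul_coe_zeta,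
      ArithmeticFunction.one_apply]
  rw [← Int.cast_sum, h1]
  split_ifs <;> simp

theorem pMob : S_Mob := by
  intro w G y hy
  set N := ⌊y⌋₊ with hN
  have hN1 : 1 ≤ N := Nat.le_floor (by simpa using hy)
  have hfl : ∀ u : ℕ, ⌊y / u⌋₊ = N / u := fun u => Nat.floor_div_natCast y u
  have h1 : ∑ u ∈ (Icc 1 N).filter (fun n => n.Coprime (Wp w)),
      ((ArithmeticFunction.moebius u : ℤ) : ℝ) *
        ∑ n ∈ (Icc 1 ⌊y / u⌋₊).filter (fun n => n.Coprime (Wp w)), G (u * n) =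
      ∑ x ∈ ((Icc 1 N).filter (fun n => n.Coprime (Wp w))).sigma
        (fun u => (Icc 1 (N / u)).filter (fun n => n.Coprime (Wp w))),
        ((ArithmeticFunction.moebius x.1 : ℤ) : ℝ) * G (x.1 * x.2) := by
    rw [Finset.sum_sigma]
    refine Finset.sum_congr rfl fun u _ => ?_
    rw [hfl, Finset.mul_sum]
  have h2 : ∑ x ∈ ((Icc 1 N).filter (fun n => n.Coprime (Wp w))).sigma
        (fun u => (Icc 1 (N / u)).filter (fun n => n.Coprime (Wp w))),
        ((ArithmeticFunction.moebius x.1 : ℤ) : ℝ) * G (x.1 * x.2) =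
      ∑ x ∈ ((Icc 1 N).filter (fun n => n.Coprime (Wp w))).sigma (fun k => k.divisors),
        ((ArithmeticFunction.moebius x.2 : ℤ) : ℝ) * G x.1 := by
    refine Finset.sum_nbij' (fun x => ⟨x.1 * x.2, x.1⟩) (fun x => ⟨x.2, x.1 / x.2⟩) ?_ ?_ ?_ ?_ ?_
    · rintro ⟨u, n⟩ hx
      simp only [Finset.mem_sigma, Finset.mem_filter, Finset.mem_Icc] at hx
      obtain ⟨⟨⟨hu1, hu2⟩, hu3⟩, ⟨hn1, hn2⟩, hn3⟩ := hx
      simp only [Finset.mem_sigma, Finset.mem_filter, Finset.mem_Icc, Nat.mem_divisors]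
      have h3 : u * n ≤ N := by
        have := Nat.mul_le_mul_left u hn2
        exact this.trans (Nat.mul_div_le N u)
      have h4 : 1 ≤ u * n := Nat.mul_pos hu1 hn1
      exact ⟨⟨⟨h4, h3⟩, Nat.Coprime.mul_left hu3 hn3⟩, Dvd.intro _ rfl, by omega⟩
    · rintro ⟨k, u⟩ hx
      simp only [Finset.mem_sigma, Finset.mem_filter, Finset.mem_Icc, Nat.mem_divisors] at hx
      obtain ⟨⟨⟨hk1, hk2⟩, hk3⟩, ⟨n, rfl⟩, hk0⟩ := hx
      have hu : 0 < u := Nat.pos_of_ne_zero (left_ne_zero_of_mul hk0)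
      have hn : 0 < n := Nat.pos_of_ne_zero (right_ne_zero_of_mul hk0)
      simp only [Finset.mem_sigma, Finset.mem_filter, Finset.mem_Icc]
      rw [Nat.mul_div_cancel_left n hu]
      refine ⟨⟨⟨hu, ?_⟩, Nat.Coprime.coprime_mul_right hk3⟩, ⟨hn, ?_⟩,
        Nat.Coprime.coprime_mul_left hk3⟩
      · exact (Nat.le_mul_of_pos_right u hn).trans hk2
      · rw [Nat.le_div_iff_mul_le hu, mul_comm]
        exact hk2
    · rintro ⟨u, n⟩ hx
      simp only [Finset.mem_sigma, Finset.mem_filter, Finset.mem_Icc] at hx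
      simp only
      rw [Nat.mul_div_cancel_left n hx.1.1.1]
    · rintro ⟨k, u⟩ hx
      simp only [Finset.mem_sigma, Finset.mem_filter, Finset.mem_Icc, Nat.mem_divisors] at hx
      simp only
      rw [Nat.mul_div_cancel' hx.2.1]
    · rintro ⟨u, n⟩ _
      rfl
  rw [h1, h2, Finset.sum_sigma]
  have h3 : ∀ k ∈ (Icc 1 N).filter (fun n => n.Coprime (Wp w)),
      ∑ u ∈ k.divisors, ((ArithmeticFunction.moebius u : ℤ) : ℝ) * G k =
      if k = 1 then G k else 0 := by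
    intro k hk
    rw [Finset.mem_filter, Finset.mem_Icc] at hk
    rw [← Finset.sum_mul, Mob_aux k (by omega)]
    split_ifs <;> simp
  rw [Finset.sum_congr rfl h3, Finset.sum_ite_eq' _ 1 G, if_pos]
  rw [Finset.mem_filter, Finset.mem_Icc]
  exact ⟨⟨le_rfl, hN1⟩, Nat.coprime_one_left _⟩

end Pool.Agent.Lib.MP_9f2731_nt.GP.Sv
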