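import Pool.Agent.Lib.MP_9f2731_nt.GP.Sv.LamP
import Pool.Agent.Lib.MP_9f2731_nt.GP.Sv.Dns
import Pool.Agent.Lib.MP_9f2731_nt.GP.Sv.Per
import Pool.Agent.Lib.MP_9f2731_nt.GP.Sv.Crt
import Pool.Agent.Lib.MP_9f2731_nt.GP.Sv.Ub
import Pool.Agent.Lib.MP_9f2731_nt.GP.Sv.Exp
import Pool.Agent.Lib.MP_9f2731_nt.GP.Sv.One
import Pool.Agent.Lib.MP_9f2731_nt.GP.Sv.LocA
import Pool.Agent.Lib.MP_9f2731_nt.GP.Sv.LocB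
import Pool.Agent.Lib.MP_9f2731_nt.GP.Sv.Gg
import Pool.Agent.Lib.MP_9f2731_nt.GP.Sv.Pex
import Pool.Agent.Lib.MP_9f2731_nt.GP.Sv.LocD
import Pool.Agent.Lib.MP_9f2731_nt.GP.Sv.LocC
import Pool.Agent.Lib.MP_9f2731_nt.GP.Sv.Mas
import Pool.Agent.Lib.MP_9f2731_nt.GP.Sv.Sng
import Pool.Agent.Lib.MP_9f2731_nt.GP.Sv.Inv
import Pool.Agent.Lib.MP_9f2731_nt.GP.Sv.Moi
import Pool.Agent.Lib.MP_9f2731_nt.GP.Sv.ThZ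
import Pool.Agent.Lib.MP_9f2731_nt.GP.Sv.The
import Pool.Agent.Lib.MP_9f2731_nt.GP.Sv.Lim
import Pool.Agent.Lib.MP_9f2731_nt.GP.Sv.L1
import Pool.Agent.Lib.MP_9f2731_nt.GP.Sv.H0
import Pool.Agent.Lib.MP_9f2731_nt.GP.Sv.H1
import Pool.Agent.Lib.MP_9f2731_nt.GP.Sv.H2
import Pool.Agent.Lib.MP_9f2731_nt.GP.Sv.HwE
import Pool.Agent.Lib.MP_9f2731_nt.GP.Sv.Dl
import Pool.Agent.Lib.MP_9f2731_nt.GP.Sv.Hw0
import Pool.Agent.Lib.MP_9f2731_nt.GP.Sv.Hw1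
import Pool.Agent.Lib.MP_9f2731_nt.GP.Sv.Hw2
import Pool.Agent.Lib.MP_9f2731_nt.GP.Sv.Cnt
import Pool.Agent.Lib.MP_9f2731_nt.GP.Sv.Mob
import Pool.Agent.Lib.MP_9f2731_nt.GP.Sv.M0
import Pool.Agent.Lib.MP_9f2731_nt.GP.Sv.Sq
import Pool.Agent.Lib.MP_9f2731_nt.GP.Sv.M1
import Pool.Agent.Lib.MP_9f2731_nt.GP.Sv.M2
import Pool.Agent.Lib.MP_9f2731_nt.GP.Sv.MR
import Pool.Agent.Lib.MP_9f2731_nt.GP.Sv.TTb
import Pool.Agent.Lib.MP_9f2731_nt.GP.Sv.Sum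
import Pool.Agent.Lib.MP_9f2731_nt.GP.Sv.Cor

/-!
MP_9f2731_nt, GP/Sv: the correlation estimate, without hypotheses (helper84).
-/

namespace Pool.Agent.Lib.MP_9f2731_nt.GP.Sv

theorem fLocC : S_LocC := pLocC (pLocA pOne) (pLocB pOne) (pLocD pGg pPex)

theorem fL1 : S_L1 := pL1 pLim

theorem fHw0 : S_Hw0 := pHw0 pHwE pDl pH0

theorem fHw1 : S_Hw1 := pHw1 pHwE pDl (pH1 pH0 fL1)

theorem fHw2 : S_Hw2 := pHw2 pHwE pDl pH2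

theorem fM0 : S_M0 := pM0 pMob (pCnt pDl)

theorem fM1 : S_M1 := pM1 pMob fHw0 fM0 pSq

theorem fM2 : S_M2 := pM2 pMob fHw1 fM0 fM1 pSq

theorem fTTb : S_TTb := pTTb pMR fM2 fHw0 fHw1 fHw2

theorem fSum : S_Sum :=
  pSum (pPer pLamP pDns) (pExp (pUb pLamP) pCrt) pInv (pThe (pThZ pMoi)) fLocC pMas pSng

/-- the correlation estimate -/
theorem cor : CorStmt := pCor fSum fTTb

end Pool.Agent.Lib.MP_9f2731_nt.GP.Sv
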