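import Pool.Agent.Lib.MP_9f2731_nt.GP.Sv.Spec

/-!
MP_9f2731_nt, GP/Sv/HwC (helper6): common part of Hw0 and Hw1.
-/

open Finset

namespace Pool.Agent.Lib.MP_9f2731_nt.GP.Sv

namespace HwC

theorem hs_zero {k : ℕ} {t : ℝ} (ht : t < 1) : hs k t = 0 := by
  unfold hs
  have : ⌊t⌋₊ = 0 := by
    rw [Nat.floor_eq_zero]; exact ht
  rw [this]
  simp

/-- one divisor -/
theorem one {k : ℕ} {P : ℝ → ℝ} {E : ℝ} (hE : 0 ≤ E)
    (hP : ∀ t : ℝ, 1 ≤ t → |hs k t - P (Real.log t)| ≤ E / Real.sqrt t)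
    (hB : ∀ L : ℝ, 0 ≤ L → ∃ B : ℝ, 0 ≤ B ∧ ∀ u, -L ≤ u → u ≤ 0 → |P u| ≤ B) (d : ℕ)
    (hd : 1 ≤ d) : ∃ C : ℝ, 0 ≤ C ∧ ∀ y : ℝ, 1 ≤ y →
      |hs k (y / d) - P (Real.log y - Real.log d)| ≤ C / Real.sqrt y := by
  have hd' : (1 : ℝ) ≤ d := by exact_mod_cast hd
  obtain ⟨B, hB0, hB1⟩ := hB (Real.log d) (Real.log_nonneg hd')
  refine ⟨E * Real.sqrt d + B * Real.sqrt d, by positivity, fun y hy => ?_⟩
  have hy0 : 0 < y := by linarith
  have hsy : 0 < Real.sqrt y := Real.sqrt_pos.2 hy0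
  have hsd : 0 < Real.sqrt d := Real.sqrt_pos.2 (by positivity)
  by_cases h : (d : ℝ) ≤ y
  · have h1 : 1 ≤ y / d := by
      rw [le_div_iff₀ (by positivity)]; linarith
    have h2 := hP (y / d) h1
    rw [Real.log_div hy0.ne' (by positivity)] at h2
    refine h2.trans ?_
    rw [Real.sqrt_div hy0.le, add_div]
    have e1 : E / (Real.sqrt y / Real.sqrt d) = E * Real.sqrt d / Real.sqrt y := by
      field_simp
    rw [e1]
    have : 0 ≤ B * Real.sqrt d / Real.sqrt y := by positivity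
    linarith
  · rw [not_le] at h
    have h1 : y / d < 1 := by
      rw [div_lt_one (by positivity)]; exact h
    rw [hs_zero h1, zero_sub, abs_neg]
    have hly : 0 ≤ Real.log y := Real.log_nonneg hy
    have hld : Real.log y ≤ Real.log d := Real.log_le_log hy0 h.le
    have h2 := hB1 (Real.log y - Real.log d) (by linarith) (by linarith)
    refine h2.trans ?_
    rw [add_div]
    have h3 : B ≤ B * Real.sqrt d / Real.sqrt y := by
      rw [le_div_iff₀ hsy]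
      exact mul_le_mul_of_nonneg_left (Real.sqrt_le_sqrt h.le) hB0
    have : 0 ≤ E * Real.sqrt d / Real.sqrt y := by positivity
    linarith

theorem abs_mu_div (d : ℕ) : |((ArithmeticFunction.moebius d : ℤ) : ℝ) / d| ≤ 1 := by
  rw [abs_div, Nat.abs_cast]
  have h1 : |((ArithmeticFunction.moebius d : ℤ) : ℝ)| ≤ 1 := by
    have := ArithmeticFunction.abs_moebius_le_one (n := d)
    exact_mod_cast this
  rcases Nat.eq_zero_or_pos d with h | h
  · subst h; simp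
  · have hd' : (1 : ℝ) ≤ d := by exact_mod_cast h
    rw [div_le_one (by positivity)]
    linarith

theorem comb (hE' : S_HwE) {w k : ℕ} {P : ℝ → ℝ} {E : ℝ} (hE : 0 ≤ E)
    (hP : ∀ t : ℝ, 1 ≤ t → |hs k t - P (Real.log t)| ≤ E / Real.sqrt t)
    (hB : ∀ L : ℝ, 0 ≤ L → ∃ B : ℝ, 0 ≤ B ∧ ∀ u, -L ≤ u → u ≤ 0 → |P u| ≤ B) :
    ∃ C : ℝ, 0 < C ∧ ∀ y : ℝ, 1 ≤ y →
      |hw w k y - ∑ d ∈ (Wp w).divisors, ((ArithmeticFunction.moebius d : ℤ) : ℝ) / d
        * P (Real.log y - Real.log d)| ≤ C / Real.sqrt y := by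
  have h1 : ∀ d : ℕ, ∃ C : ℝ, 0 ≤ C ∧ (1 ≤ d → ∀ y : ℝ, 1 ≤ y →
      |hs k (y / d) - P (Real.log y - Real.log d)| ≤ C / Real.sqrt y) := by
    intro d
    by_cases hd : 1 ≤ d
    · obtain ⟨C, hC, h⟩ := one hE hP hB d hd
      exact ⟨C, hC, fun _ => h⟩
    · exact ⟨0, le_rfl, fun h => absurd h hd⟩
  choose Cd hCd h2 using h1
  refine ⟨1 + ∑ d ∈ (Wp w).divisors, Cd d, ?_, fun y hy => ?_⟩
  · have : 0 ≤ ∑ d ∈ (Wp w).divisors, Cd d := Finset.sum_nonneg fun d _ => hCd d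
    linarith
  · have hy0 : 0 < y := by linarith
    have hsy : 0 < Real.sqrt y := Real.sqrt_pos.2 hy0
    rw [hE' w k y hy0, ← Finset.sum_sub_distrib]
    refine (Finset.abs_sum_le_sum_abs _ _).trans ?_
    have h3 : ∀ d ∈ (Wp w).divisors, |((ArithmeticFunction.moebius d : ℤ) : ℝ) / d * hs k (y / d)
        - ((ArithmeticFunction.moebius d : ℤ) : ℝ) / d * P (Real.log y - Real.log d)|
        ≤ Cd d / Real.sqrt y := by
      intro d hd
      have hd1 : 1 ≤ d := Nat.pos_of_mem_divisors hd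
      rw [← mul_sub, abs_mul]
      calc _ ≤ 1 * (Cd d / Real.sqrt y) :=
            mul_le_mul (abs_mu_div d) (h2 d hd1 y hy) (abs_nonneg _) zero_le_one
        _ = _ := one_mul _
    refine (Finset.sum_le_sum h3).trans ?_
    rw [← Finset.sum_div]
    gcongr
    linarith

end HwC

end Pool.Agent.Lib.MP_9f2731_nt.GP.Sv
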