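import Pool.Agent.Lib.MP_9f2731_nt.GP.Sv.Spec

/-!
MP_9f2731_nt, GP/Sv/ThZ (helper46): inversion of the correlation sum of one form.
-/

open Finset

namespace Pool.Agent.Lib.MP_9f2731_nt.GP.Sv

private theorem thzMM (w : ℕ) (R : ℝ) (n : ℕ) (h : n = 0 ∨ R < n) : MM w R n = 0 := by
  unfold MM
  refine Finset.sum_eq_zero fun u hu => ?_
  have hu1 : 1 ≤ u := Nat.pos_of_mem_divisors hu
  have h1 : chi R (u * n) = 0 := by
    apply chi_zero
    rcases h with h | h
    · left
      rw [h, mul_zero]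
    · right
      refine lt_of_lt_of_le h ?_
      have h2 : n ≤ u * n := Nat.le_mul_of_pos_left n hu1
      exact_mod_cast h2
  rw [h1, mul_zero]

private theorem thzTT (w : ℕ) (R : ℝ) (b c : ℕ) (h : b = 0 ∨ R < b) : TT w R b c = 0 := by
  unfold TT
  refine Finset.sum_eq_zero fun g hg => ?_
  have hg1 : 1 ≤ g := (Finset.mem_Icc.1 (Finset.mem_filter.1 hg).1).1
  have h1 : MM w R (g * b) = 0 := by
    apply thzMM
    rcases h with h | h
    · left
      rw [h, mul_zero]
    · right
      refine lt_of_lt_of_le h ?_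
      have h2 : b ≤ g * b := Nat.le_mul_of_pos_left b hg1
      exact_mod_cast h2
  rw [h1, mul_zero, zero_mul]

private theorem thzInt {ι : Type} (k : ℤ) (f : Al ι) (Φ : Fn ι) (a : ι → ℕ) :
    act ((k : Al ι) * f) Φ a = (k : ℝ) * act f Φ a := by
  have h : ((k : Al ι) * f) = (k : ℝ) • f := by
    rw [← zsmul_eq_mul, Int.cast_smul_eq_zsmul]
  rw [h, act_smul]

/-- the index d at both coordinates of j -/
private def ej {σ : Type} [DecidableEq σ] (j : σ) (d : ℕ) : σ × Bool → ℕ :=
  e (j, true) d * e (j, false) d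

private theorem ej_one {σ : Type} [DecidableEq σ] (j : σ) : ej j 1 = 1 := by
  unfold ej
  rw [e_one, e_one, mul_one]

private theorem ej_mul {σ : Type} [DecidableEq σ] (j : σ) (m n : ℕ) :
    ej j (m * n) = ej j m * ej j n := by
  unfold ej
  rw [e_mul, e_mul]
  exact mul_mul_mul_comm _ _ _ _

private theorem ej_pow {σ : Type} [DecidableEq σ] (j : σ) (m K : ℕ) :
    ej j m ^ K = ej j (m ^ K) := by
  induction K with
  | zero => rw [pow_zero, pow_zero, ej_one]
  | succ K ih => rw [pow_succ, ih, pow_succ, ej_mul]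

private theorem ej_true {σ : Type} [DecidableEq σ] (j : σ) (d : ℕ) (a : σ × Bool → ℕ) :
    (ej j d * a) (j, true) = d * a (j, true) := by
  have h : ((j, true) : σ × Bool) ≠ (j, false) := by
    intro h
    exact absurd (congrArg Prod.snd h) (by simp)
  show e (j, true) d (j, true) * e (j, false) d (j, true) * a (j, true) = _
  rw [e_self, e_ne h, mul_one]

private theorem ej_false {σ : Type} [DecidableEq σ] (j : σ) (d : ℕ) (a : σ × Bool → ℕ) :
    (ej j d * a) (j, false) = d * a (j, false) := by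
  have h : ((j, false) : σ × Bool) ≠ (j, true) := by
    intro h
    exact absurd (congrArg Prod.snd h) (by simp)
  show e (j, true) d (j, false) * e (j, false) d (j, false) * a (j, false) = _
  rw [e_self, e_ne h, one_mul]

/-- **ThZ** -/
theorem pThZ (h1 : S_Moi) : S_ThZ := by
  intro σ _ _ w K R j hR hK a
  obtain ⟨Y, hY⟩ : ∃ Y : Fn (σ × Bool), Y = fun b => TT w R (b (j, true)) (b (j, false)) :=
    ⟨_, rfl⟩
  -- (1)
  have s1 : act (∏ p ∈ Qs w R, (1 - zz p j)) Y =
      fun b => MM w R (b (j, true)) * MM w R (b (j, false)) := by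
    funext b
    have h2 := sqx (A := Al (σ × Bool)) w R (fun d => (1 / (d : ℝ)) • mon (ej j d)) (by
      show (1 / ((1 : ℕ) : ℝ)) • mon (ej j 1) = 1
      rw [ej_one, mon_one, Nat.cast_one, div_one, one_smul]) (by
      intro m n _
      show (1 / ((m * n : ℕ) : ℝ)) • mon (ej j (m * n)) = _
      rw [ej_mul, mon_mul, smul_mul_smul_comm]
      congr 1
      push_cast
      rw [one_div_mul_one_div])
    have h3 : ∏ p ∈ Qs w R, (1 - zz p j) =
        ∏ p ∈ Qs w R, (1 - (fun d : ℕ => (1 / (d : ℝ)) • mon (ej j d)) p) := rfl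
    rw [h3, h2, act_sum]
    show _ = MM w R (b (j, true)) * MM w R (b (j, false))
    rw [← h1 w R (b (j, true)) (b (j, false)) hR]
    refine Finset.sum_congr rfl fun d _ => ?_
    rw [thzInt, act_smul, act_mon, hY]
    show _ * (1 / (d : ℝ) * TT w R ((ej j d * b) (j, true)) ((ej j d * b) (j, false))) = _
    rw [ej_true, ej_false]
    ring
  -- (2)
  have s2 : ∀ p ∈ Qs w R, act (1 - zz p j ^ K) Y = Y := by
    intro p hp
    have hp2 : 2 ≤ p := (mem_Qs.1 hp).1.two_le
    funext b
    have h2 : zz p j ^ K = ((1 / (p : ℝ)) ^ K) • mon (ej j (p ^ K)) := by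
      rw [← ej_pow, mon_pow, ← smul_pow]
      rfl
    rw [act_sub, act_one, h2, act_smul, act_mon, hY]
    show TT w R (b (j, true)) (b (j, false)) -
      (1 / (p : ℝ)) ^ K * TT w R ((ej j (p ^ K) * b) (j, true)) ((ej j (p ^ K) * b) (j, false)) =
      TT w R (b (j, true)) (b (j, false))
    have h4 : p ^ K * b (j, true) = 0 ∨ R < (p ^ K * b (j, true) : ℕ) := by
      by_cases hb : b (j, true) = 0
      · left
        rw [hb, mul_zero]
      · right
        have h3 : (2 : ℕ) ^ K ≤ p ^ K * b (j, true) :=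
          (Nat.pow_le_pow_left hp2 K).trans (Nat.le_mul_of_pos_right _ (Nat.pos_of_ne_zero hb))
        refine lt_of_lt_of_le hK ?_
        exact_mod_cast h3
    rw [ej_true, ej_false, thzTT w R (p ^ K * b (j, true)) _ h4, mul_zero, sub_zero]
  have s3 : ∀ s ⊆ Qs w R, act (∏ p ∈ s, (1 - zz p j ^ K)) Y = Y := by
    intro s
    induction s using Finset.induction_on with
    | empty =>
      intro _
      rw [Finset.prod_empty, act_one]
    | insert p s hp ih =>
      intro hs
      rw [Finset.prod_insert hp, act_mul, ih (fun x hx => hs (Finset.mem_insert_of_mem hx)),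
        s2 p (hs (Finset.mem_insert_self p s))]
  have s4 : (∏ p ∈ Qs w R, gg K (zz p j)) * ∏ p ∈ Qs w R, (1 - zz p j) =
      ∏ p ∈ Qs w R, (1 - zz p j ^ K) := by
    rw [← Finset.prod_mul_distrib]
    refine Finset.prod_congr rfl fun p _ => ?_
    unfold gg
    exact geom_sum_mul_neg _ _
  rw [← s1, ← act_mul, s4, s3 _ subset_rfl, hY]

end Pool.Agent.Lib.MP_9f2731_nt.GP.Sv
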